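import Pool.Agent.MP_aed30a_nt.H54.PlaneDefs

namespace Pool.Agent.MP_aed30a_nt.H54
open Finset

variable {F : Type} [Field F] [Fintype F] [DecidableEq F]

theorem c0_sum (d : ℕ) : ∑ k ∈ range (d + 1), (k + 1) = (d + 2).choose 2 := by
  induction d with
  | zero => simp
  | succ d ih =>
    rw [sum_range_succ, ih, show d + 1 + 2 = (d + 2) + 1 by ring,
      Nat.choose_succ_succ' (d + 2) 1, Nat.choose_one_right]
    ring

theorem c0_card (d : ℕ) :
    Nat.card {n : Fin 2 →₀ ℕ | (n.sum fun _ e => e) ≤ d} = (d + 2).choose 2 := by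
  have h : {n : Fin 2 →₀ ℕ | (n.sum fun _ e => e) ≤ d} =
      ((range (d + 1)).biUnion
        (fun k => (univ : Finset (Fin 2)).finsuppAntidiag k) : Finset (Fin 2 →₀ ℕ)) := by
    ext n
    have e : (n.sum fun _ e => e) = ∑ i, n i := Finsupp.sum_fintype _ _ (fun _ => rfl)
    simp only [Set.mem_ofPred_eq, coe_biUnion, mem_coe, mem_range, Set.mem_iUnion,
      mem_finsuppAntidiag, subset_univ, and_true, exists_prop, e]
    constructor
    · intro h
      exact ⟨_, Nat.lt_succ_of_le h, rfl⟩
    · rintro ⟨k, hk, h⟩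
      exact h.le.trans (Nat.le_of_lt_succ hk)
  rw [h, Nat.card_coe_set_eq, Set.ncard_coe_finset, card_biUnion, ← c0_sum]
  · refine sum_congr rfl fun k _ => ?_
    rw [card_finsuppAntidiag_nat_eq_choose, card_univ, Fintype.card_fin,
      show 2 + k - 1 = k + 1 by omega, Nat.choose_succ_self_right]
  · intro i _ j _ hij
    rw [Function.onFun, disjoint_left]
    intro n hi hj
    rw [mem_finsuppAntidiag] at hi hj
    exact hij (hi.1.symm.trans hj.1)

omit [Fintype F] [DecidableEq F] in
theorem c0_finrank (d : ℕ) :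
    Module.finrank F (MvPolynomial.restrictTotalDegree (Fin 2) F d) = (d + 2).choose 2 := by
  rw [← c0_card d]
  exact Module.finrank_eq_nat_card_basis
    (MvPolynomial.basisRestrictSupport F {n : Fin 2 →₀ ℕ | (n.sum fun _ e => e) ≤ d})

/-- evaluation at the points of `S` -/
noncomputable def c0_ev (d : ℕ) (S : Finset (F × F)) :
    MvPolynomial.restrictTotalDegree (Fin 2) F d →ₗ[F] (S → F) where
  toFun G := fun P => evP G.1 P.1
  map_add' G H := by
    funext P
    simp [evP]
  map_smul' c G := by
    funext P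
    simp [evP]

omit [Fintype F] [DecidableEq F] in
theorem c0_mem_ker (d : ℕ) (S : Finset (F × F))
    (G : MvPolynomial.restrictTotalDegree (Fin 2) F d) :
    G ∈ LinearMap.ker (c0_ev d S) ↔ ∀ P ∈ S, evP G.1 P = 0 := by
  rw [LinearMap.mem_ker, funext_iff]
  constructor
  · intro h P hP
    exact h ⟨P, hP⟩
  · intro h P
    exact h P.1 P.2

/-- the vanishing polynomials are the kernel of evaluation -/
noncomputable def c0_equiv (d : ℕ) (S : Finset (F × F)) :
    Van d S ≃ LinearMap.ker (c0_ev d S) where
  toFun G := ⟨⟨G.1, (MvPolynomial.mem_restrictTotalDegree _ _ _).2 G.2.1⟩,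
    (c0_mem_ker d S _).2 G.2.2⟩
  invFun G := ⟨G.1.1, (MvPolynomial.mem_restrictTotalDegree _ _ _).1 G.1.2,
    (c0_mem_ker d S _).1 G.2⟩
  left_inv _ := rfl
  right_inv _ := rfl

omit [Fintype F] in
theorem c0_surj (d : ℕ) (S : Finset (F × F))
    (h : ∀ P ∈ S, ∃ G ∈ Van d (S.erase P), evP G P ≠ 0) :
    Function.Surjective (c0_ev d S) := by
  rw [← LinearMap.range_eq_top, eq_top_iff, ← (Pi.basisFun F S).span_eq, Submodule.span_le]
  rintro _ ⟨P, rfl⟩
  obtain ⟨G, hG, hP⟩ := h P.1 P.2
  refine ⟨(evP G P.1)⁻¹ • ⟨G, (MvPolynomial.mem_restrictTotalDegree _ _ _).2 hG.1⟩, ?_⟩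
  rw [map_smul]
  funext Q
  by_cases hQ : Q = P
  · subst hQ
    simp [c0_ev, hP]
  · have : evP G Q.1 = 0 := hG.2 _ (mem_erase.2 ⟨fun e => hQ (Subtype.ext e), Q.2⟩)
    simp [c0_ev, this, hQ]

omit [Fintype F] in
theorem c0_rank (d : ℕ) (S : Finset (F × F))
    (h : ∀ P ∈ S, ∃ G ∈ Van d (S.erase P), evP G P ≠ 0) :
    Module.finrank F (LinearMap.ker (c0_ev d S)) + #S = (d + 2).choose 2 := by
  have h1 := LinearMap.finrank_range_add_finrank_ker (c0_ev d S)
  rw [LinearMap.range_eq_top.2 (c0_surj d S h), finrank_top, Module.finrank_fintype_fun_eq_card,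
    Fintype.card_coe, c0_finrank] at h1
  omega

omit [Fintype F] in
theorem c0_sep (S : Finset (F × F)) (P : F × F) (hP : P ∉ S) :
    ∃ G ∈ Van (#S) S, evP G P ≠ 0 := by
  induction S using Finset.induction_on with
  | empty => exact ⟨1, ⟨by simp, by simp⟩, by simp [evP]⟩
  | insert Q S hQ ih =>
    obtain ⟨G, hG, hGP⟩ := ih (fun h => hP (mem_insert_of_mem h))
    have hPQ : P ≠ Q := fun e => hP (e ▸ mem_insert_self _ _)
    have hl : ∃ l : MvPolynomial (Fin 2) F, l.totalDegree ≤ 1 ∧ evP l Q = 0 ∧ evP l P ≠ 0 := by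
      by_cases h1 : P.1 = Q.1
      · have h2 : P.2 ≠ Q.2 := fun e => hPQ (Prod.ext h1 e)
        refine ⟨MvPolynomial.X 1 - MvPolynomial.C Q.2, ?_, by simp [evP], ?_⟩
        · refine (MvPolynomial.totalDegree_sub _ _).trans ?_
          simp
        · simpa [evP, sub_eq_zero] using h2
      · refine ⟨MvPolynomial.X 0 - MvPolynomial.C Q.1, ?_, by simp [evP], ?_⟩
        · refine (MvPolynomial.totalDegree_sub _ _).trans ?_
          simp
        · simpa [evP, sub_eq_zero] using h1
    obtain ⟨l, hl1, hlQ, hlP⟩ := hl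
    refine ⟨l * G, ⟨?_, ?_⟩, ?_⟩
    · refine (MvPolynomial.totalDegree_mul _ _).trans ?_
      have := hG.1
      rw [card_insert_of_notMem hQ]
      omega
    · intro R hR
      rcases mem_insert.1 hR with rfl | hR
      · unfold evP at hlQ ⊢
        rw [map_mul, hlQ, zero_mul]
      · have := hG.2 R hR
        unfold evP at this ⊢
        rw [map_mul, this, mul_zero]
    · unfold evP at hlP hGP ⊢
      rw [map_mul]
      exact mul_ne_zero hlP hGP

theorem c0_choose (n : ℕ) : 2 * (n + 2).choose 2 = (n + 2) * (n + 1) := by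
  induction n with
  | zero => simp
  | succ n ih =>
    rw [show n + 1 + 2 = (n + 2) + 1 by ring, Nat.choose_succ_succ' (n + 2) 1,
      Nat.choose_one_right, mul_add, ih]
    ring

theorem bezout (G H : MvPolynomial (Fin 2) F) (hGH : IsRelPrime G H) (hH : H ≠ 0) (a : ℕ)
    (ha : G.totalDegree ≤ a) (S : Finset (F × F)) (hG : ∀ P ∈ S, evP G P = 0)
    (hS : ∀ P ∈ S, evP H P = 0) : #S ≤ a * H.totalDegree := by
  set b := H.totalDegree with hb
  set e := #S with he
  have hsep : ∀ P ∈ S, ∃ K ∈ Van (e + a + b) (S.erase P), evP K P ≠ 0 := by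
    intro P hP
    obtain ⟨K, hK, hKP⟩ := c0_sep (S.erase P) P (notMem_erase _ _)
    refine ⟨K, ⟨hK.1.trans ?_, hK.2⟩, hKP⟩
    have := card_erase_le (s := S) (a := P)
    omega
  have hr := c0_rank (e + a + b) S hsep
  have hmem : ∀ (A : MvPolynomial.restrictTotalDegree (Fin 2) F (e + b))
      (B : MvPolynomial.restrictTotalDegree (Fin 2) F (e + a)),
      A.1 * G + B.1 * H ∈ MvPolynomial.restrictTotalDegree (Fin 2) F (e + a + b) := by
    intro A B
    have hA := (MvPolynomial.mem_restrictTotalDegree _ _ _).1 A.2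
    have hB := (MvPolynomial.mem_restrictTotalDegree _ _ _).1 B.2
    refine Submodule.add_mem _ ?_ ?_
    · rw [MvPolynomial.mem_restrictTotalDegree]
      refine (MvPolynomial.totalDegree_mul _ _).trans ?_
      omega
    · rw [MvPolynomial.mem_restrictTotalDegree]
      refine (MvPolynomial.totalDegree_mul _ _).trans ?_
      omega
  let φ : (MvPolynomial.restrictTotalDegree (Fin 2) F (e + b) ×
      MvPolynomial.restrictTotalDegree (Fin 2) F (e + a)) →ₗ[F]
      LinearMap.ker (c0_ev (e + a + b) S) :=
    { toFun := fun x => ⟨⟨x.1.1 * G + x.2.1 * H, hmem x.1 x.2⟩, by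
        rw [c0_mem_ker]
        intro P hP
        have h1 := hG P hP
        have h2 := hS P hP
        unfold evP at h1 h2 ⊢
        simp [h1, h2]⟩
      map_add' := fun x y => by
        apply Subtype.ext
        apply Subtype.ext
        simp only [Prod.fst_add, Prod.snd_add, Submodule.coe_add]
        ring
      map_smul' := fun c x => by
        apply Subtype.ext
        apply Subtype.ext
        simp only [Prod.smul_fst, Prod.smul_snd, Submodule.coe_smul, RingHom.id_apply,
          smul_add, smul_mul_assoc] }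
  have hmem2 : ∀ (C : MvPolynomial.restrictTotalDegree (Fin 2) F e),
      C.1 * H ∈ MvPolynomial.restrictTotalDegree (Fin 2) F (e + b) ∧
      -(C.1 * G) ∈ MvPolynomial.restrictTotalDegree (Fin 2) F (e + a) := by
    intro C
    have hC := (MvPolynomial.mem_restrictTotalDegree _ _ _).1 C.2
    refine ⟨?_, Submodule.neg_mem _ ?_⟩
    · rw [MvPolynomial.mem_restrictTotalDegree]
      refine (MvPolynomial.totalDegree_mul _ _).trans ?_
      omega
    · rw [MvPolynomial.mem_restrictTotalDegree]
      refine (MvPolynomial.totalDegree_mul _ _).trans ?_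
      omega
  let ψ : MvPolynomial.restrictTotalDegree (Fin 2) F e →ₗ[F] LinearMap.ker φ :=
    { toFun := fun C => ⟨(⟨C.1 * H, (hmem2 C).1⟩, ⟨-(C.1 * G), (hmem2 C).2⟩), by
        rw [LinearMap.mem_ker]
        apply Subtype.ext
        apply Subtype.ext
        change C.1 * H * G + -(C.1 * G) * H = 0
        ring⟩
      map_add' := fun x y => by
        apply Subtype.ext
        apply Prod.ext
        · apply Subtype.ext
          simp only [Submodule.coe_add, Prod.fst_add]
          ring
        · apply Subtype.ext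
          simp only [Submodule.coe_add, Prod.snd_add]
          ring
      map_smul' := fun c x => by
        apply Subtype.ext
        apply Prod.ext
        · apply Subtype.ext
          simp only [Submodule.coe_smul, Prod.smul_fst, RingHom.id_apply, smul_mul_assoc]
        · apply Subtype.ext
          simp only [Submodule.coe_smul, Prod.smul_snd, RingHom.id_apply, smul_mul_assoc,
            smul_neg] }
  have hψ : Function.Surjective ψ := by
    rintro ⟨⟨A, B⟩, hAB⟩
    have h0 : A.1 * G + B.1 * H = 0 :=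
      congrArg (fun z : LinearMap.ker (c0_ev (e + a + b) S) => z.1.1) (LinearMap.mem_ker.1 hAB)
    have hdvd : H ∣ A.1 := by
      refine hGH.symm.dvd_of_dvd_mul_right ⟨-B.1, ?_⟩
      linear_combination h0
    obtain ⟨C, hC⟩ := hdvd
    have hCd : C ∈ MvPolynomial.restrictTotalDegree (Fin 2) F e := by
      rw [MvPolynomial.mem_restrictTotalDegree]
      by_cases hC0 : C = 0
      · simp [hC0]
      · have hA := (MvPolynomial.mem_restrictTotalDegree _ _ _).1 A.2
        rw [hC, MvPolynomial.totalDegree_mul_of_isDomain hH hC0] at hA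
        omega
    refine ⟨⟨C, hCd⟩, ?_⟩
    apply Subtype.ext
    apply Prod.ext
    · apply Subtype.ext
      change C * H = A.1
      rw [hC]
      ring
    · apply Subtype.ext
      change -(C * G) = B.1
      apply mul_right_cancel₀ hH
      rw [hC] at h0
      linear_combination -h0
  have h1 := LinearMap.finrank_range_add_finrank_ker (K := F)
    (V := MvPolynomial.restrictTotalDegree (Fin 2) F (e + b) ×
      MvPolynomial.restrictTotalDegree (Fin 2) F (e + a))
    (V₂ := LinearMap.ker (c0_ev (e + a + b) S)) φ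
  have h2 : Module.finrank F (LinearMap.ker φ) ≤ (e + 2).choose 2 := by
    rw [← c0_finrank (F := F) e]
    exact LinearMap.finrank_le_finrank_of_surjective hψ
  have h3 : Module.finrank F (LinearMap.range φ) ≤
      Module.finrank F (LinearMap.ker (c0_ev (e + a + b) S)) := Submodule.finrank_le _
  rw [Module.finrank_prod, c0_finrank, c0_finrank] at h1
  have k1 := c0_choose e
  have k2 := c0_choose (e + a)
  have k3 := c0_choose (e + b)
  have k4 := c0_choose (e + a + b)
  nlinarith

theorem van_finite (d : ℕ) (S : Finset (F × F)) : (Van d S).Finite := by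
  have : Finite (MvPolynomial.restrictTotalDegree (Fin 2) F d) := Module.finite_of_finite F
  have : Finite (Van d S) := Finite.of_equiv _ (c0_equiv d S).symm
  exact Set.toFinite _

/-- points that can be separated impose independent conditions -/
theorem iv_mul_of_sep (d : ℕ) (S : Finset (F × F))
    (h : ∀ P ∈ S, ∃ G ∈ Van d (S.erase P), evP G P ≠ 0) :
    iv d S * Fintype.card F ^ #S = Fintype.card F ^ (d + 2).choose 2 := by
  rw [iv, Nat.card_congr (c0_equiv d S), Module.natCard_eq_pow_finrank (K := F),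
    Nat.card_eq_fintype_card, ← pow_add, c0_rank d S h]

theorem iv_empty (d : ℕ) :
    iv d (∅ : Finset (F × F)) = Fintype.card F ^ (d + 2).choose 2 := by
  simpa using iv_mul_of_sep d (∅ : Finset (F × F)) (by simp)

end Pool.Agent.MP_aed30a_nt.H54
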