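import Pool.Agent.MP_aed30a_nt.H54.Bezout

namespace Pool.Agent.MP_aed30a_nt.H54
open Finset

variable {F : Type} [Field F] [Fintype F] [DecidableEq F]

omit [Fintype F] [DecidableEq F] in
theorem c1_mul (G H : MvPolynomial (Fin 2) F) (P : F × F) :
    evP (G * H) P = evP G P * evP H P := by
  simp [evP]

omit [Fintype F] [DecidableEq F] in
theorem c1_dvd {G H : MvPolynomial (Fin 2) F} (h : G ∣ H) (P : F × F) (hP : evP G P = 0) :
    evP H P = 0 := by
  obtain ⟨k, rfl⟩ := h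
  rw [c1_mul, hP, zero_mul]

omit [Fintype F] [DecidableEq F] in
theorem c1_const {g : MvPolynomial (Fin 2) F} (hg : g ≠ 0) (h0 : g.totalDegree = 0) :
    IsUnit g ∧ ∀ P, evP g P ≠ 0 := by
  rw [MvPolynomial.totalDegree_eq_zero_iff_eq_C] at h0
  have hc : g.coeff 0 ≠ 0 := by
    intro hc
    apply hg
    rw [h0, hc, map_zero]
  refine ⟨?_, fun P => ?_⟩
  · rw [h0]
    exact (IsUnit.mk0 _ hc).map _
  · rw [h0]
    simpa [evP] using hc

/-- the points of `Z` are zeros of the common factor or common zeros of the cofactors -/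
theorem c1_split (Z : Finset (F × F)) (G Q g G' Q' : MvPolynomial (Fin 2) F)
    (hrel : IsRelPrime G' Q') (hG : g * G' = G) (hQ : g * Q' = Q) (hQ0 : Q ≠ 0) (a : ℕ)
    (ha : G'.totalDegree ≤ a) (hGZ : ∀ P ∈ Z, evP G P = 0) (hQZ : ∀ P ∈ Z, evP Q P = 0) :
    #{P ∈ Z | ¬ evP g P = 0} ≤ a * Q'.totalDegree := by
  have hQ' : Q' ≠ 0 := by
    rintro rfl
    exact hQ0 (by rw [← hQ, mul_zero])
  refine bezout G' Q' hrel hQ' a ha _ (fun P hP => ?_) (fun P hP => ?_)
  · rw [mem_filter] at hP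
    have := hGZ P hP.1
    rw [← hG, c1_mul] at this
    exact (mul_eq_zero.mp this).resolve_left hP.2
  · rw [mem_filter] at hP
    have := hQZ P hP.1
    rw [← hQ, c1_mul] at this
    exact (mul_eq_zero.mp this).resolve_left hP.2

omit [Fintype F] in
theorem c1_line {S : Finset (F × F)} (h : ∀ l, ¬ Rich S l) {Z : Finset (F × F)} (hZ : Z ⊆ S)
    {g : MvPolynomial (Fin 2) F} (hg : g ≠ 0) (h1 : g.totalDegree ≤ 1) :
    #{P ∈ Z | evP g P = 0} ≤ 5 := by
  have h2 : #{P ∈ Z | evP g P = 0} ≤ #{P ∈ S | evP g P = 0} :=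
    card_le_card (filter_subset_filter _ hZ)
  have h3 := h g
  unfold Rich at h3
  by_contra h4
  exact h3 ⟨hg, h1, by omega⟩

omit [Fintype F] in
theorem c1_deg {S : Finset (F × F)} (h : ∀ l, ¬ Rich S l) {Z : Finset (F × F)} (hZ : Z ⊆ S)
    (h8 : 8 ≤ #Z) {Q : MvPolynomial (Fin 2) F} (hQ0 : Q ≠ 0) (hQ : Q ∈ Van 2 Z) :
    Q.totalDegree = 2 := by
  by_contra h2
  have h1 : Q.totalDegree ≤ 1 := by
    have := hQ.1
    omega
  have h3 := c1_line h hZ hQ0 h1
  rw [filter_true_of_mem hQ.2] at h3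
  omega

/-- a conic through eight points divides each cubic through them -/
theorem c1_K {S : Finset (F × F)} (h : ∀ l, ¬ Rich S l) {Z : Finset (F × F)} (hZ : Z ⊆ S)
    (h8 : 8 ≤ #Z) {Q G : MvPolynomial (Fin 2) F} (hQ0 : Q ≠ 0) (hQ : Q ∈ Van 2 Z)
    (hG : G ∈ Van 3 Z) : Q ∣ G := by
  by_cases hG0 : G = 0
  · rw [hG0]; exact dvd_zero _
  obtain ⟨G', Q', g, hrel, hG', hQ'⟩ := UniqueFactorizationMonoid.exists_reduced_factors' G Q hQ0
  have hg0 : g ≠ 0 := by
    rintro rfl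
    exact hQ0 (by rw [← hQ', zero_mul])
  have hQ'0 : Q' ≠ 0 := by
    rintro rfl
    exact hQ0 (by rw [← hQ', mul_zero])
  have hG'0 : G' ≠ 0 := by
    rintro rfl
    exact hG0 (by rw [← hG', mul_zero])
  have d1 := MvPolynomial.totalDegree_mul_of_isDomain hg0 hQ'0
  have d2 := MvPolynomial.totalDegree_mul_of_isDomain hg0 hG'0
  rw [hQ'] at d1
  rw [hG'] at d2
  have e1 := hQ.1
  have e2 := hG.1
  by_cases hu : Q'.totalDegree = 0
  · have := (c1_const hQ'0 hu).1
    rw [← hQ', ← hG']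
    exact mul_dvd_mul_left g this.dvd
  exfalso
  have hsum := card_filter_add_card_filter_not (s := Z) (fun P => evP g P = 0)
  by_cases h0 : g.totalDegree = 0
  · have a1 : #{P ∈ Z | evP g P = 0} = 0 := by
      rw [card_eq_zero, filter_eq_empty_iff]
      exact fun P _ => (c1_const hg0 h0).2 P
    have a2 := c1_split Z G Q g G' Q' hrel hG' hQ' hQ0 3 (by omega) hG.2 hQ.2
    omega
  · have a1 := c1_line h hZ hg0 (by omega)
    have a2 := c1_split Z G Q g G' Q' hrel hG' hQ' hQ0 2 (by omega) hG.2 hQ.2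
    omega

omit [Fintype F] in
/-- division by a common factor -/
theorem c1_iv (S : Finset (F × F)) (Q : MvPolynomial (Fin 2) F) (hQ0 : Q ≠ 0) (e d : ℕ)
    (he : Q.totalDegree = e) (hd : ∀ G ∈ Van (e + d) S, Q ∣ G) :
    iv (e + d) S = iv d {P ∈ S | evP Q P ≠ 0} := by
  unfold iv
  symm
  refine Nat.card_eq_of_bijective
    (fun l => ⟨Q * l.1, ?_, fun P hP => ?_⟩) ⟨fun l l' hl => ?_, fun G => ?_⟩
  · have := MvPolynomial.totalDegree_mul Q l.1
    have := l.2.1
    omega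
  · rw [c1_mul]
    by_cases h0 : evP Q P = 0
    · rw [h0, zero_mul]
    · rw [l.2.2 P (mem_filter.mpr ⟨hP, h0⟩), mul_zero]
  · exact Subtype.ext (mul_left_cancel₀ hQ0 (congrArg Subtype.val hl))
  · obtain ⟨l, hl⟩ := hd G.1 G.2
    refine ⟨⟨l, ?_, fun P hP => ?_⟩, Subtype.ext hl.symm⟩
    · by_cases hl0 : l = 0
      · rw [hl0]; simp
      · have := MvPolynomial.totalDegree_mul_of_isDomain hQ0 hl0
        have h2 := G.2.1
        rw [hl] at h2
        omega
    · rw [mem_filter] at hP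
      have := G.2.2 P hP.1
      rw [hl, c1_mul] at this
      exact (mul_eq_zero.mp this).resolve_left hP.2

theorem c1_single (d : ℕ) (P : F × F) :
    iv d ({P} : Finset (F × F)) * Fintype.card F = Fintype.card F ^ (d + 2).choose 2 := by
  have := iv_mul_of_sep d ({P} : Finset (F × F)) (fun P' hP' => ⟨1, ⟨by simp, fun P'' hP'' => by
    rw [mem_singleton] at hP'
    simp [hP'] at hP''⟩, by simp [evP]⟩)
  simpa using this

omit [Fintype F] [DecidableEq F] in
theorem c1_mono {d e : ℕ} (hde : d ≤ e) {S T : Finset (F × F)} (hST : T ⊆ S)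
    {G : MvPolynomial (Fin 2) F} (hG : G ∈ Van d S) : G ∈ Van e T :=
  ⟨hG.1.trans hde, fun P hP => hG.2 P (hST hP)⟩

omit [Fintype F] [DecidableEq F] in
theorem c1_one {d : ℕ} {S : Finset (F × F)} (h : ∀ G ∈ Van d S, G = 0) : iv d S = 1 := by
  unfold iv
  rw [Nat.card_eq_one_iff_exists]
  exact ⟨⟨0, by simp, fun P _ => by simp [evP]⟩, fun G => Subtype.ext (h G.1 G.2)⟩

theorem c1_diff (S : Finset (F × F)) (P : F × F) (hP : P ∈ S) :
    Nat.card {G : MvPolynomial (Fin 2) F // G ∈ Van 2 (S.erase P) ∧ evP G P ≠ 0} + iv 2 S =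
      iv 2 (S.erase P) := by
  have h1 : Van 2 S ⊆ Van 2 (S.erase P) := fun G hG => c1_mono le_rfl (erase_subset _ _) hG
  have h2 := Set.ncard_sdiff_add_ncard_of_subset h1 (van_finite _ _)
  have h3 : Van 2 (S.erase P) \ Van 2 S =
      {G : MvPolynomial (Fin 2) F | G ∈ Van 2 (S.erase P) ∧ evP G P ≠ 0} := by
    ext G
    simp only [Set.mem_sdiff, Set.mem_ofPred_eq]
    refine and_congr_right fun hG => ⟨fun h3 h4 => h3 ⟨hG.1, fun P' hP' => ?_⟩,
      fun h3 h4 => h3 (h4.2 P hP)⟩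
    by_cases h5 : P' = P
    · rw [h5, h4]
    · exact hG.2 P' (mem_erase.mpr ⟨h5, hP'⟩)
  rw [h3] at h2
  exact h2

/-- no conic through nine of the points: the cubics are proportional -/
theorem c1_C {S : Finset (F × F)} (hS : #S = 10) (h : ∀ l, ¬ Rich S l)
    (ha : ∀ Q ∈ Van 2 S, Q = 0) (hb : ∀ P ∈ S, ∀ Q ∈ Van 2 (S.erase P), evP Q P = 0)
    {G H : MvPolynomial (Fin 2) F} (hG0 : G ≠ 0) (hG : G ∈ Van 3 S) (hH : H ∈ Van 3 S) :
    G ∣ H := by
  by_cases hH0 : H = 0
  · rw [hH0]; exact dvd_zero _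
  obtain ⟨H', G', g, hrel, hH', hG'⟩ := UniqueFactorizationMonoid.exists_reduced_factors' H G hG0
  have hg0 : g ≠ 0 := by
    rintro rfl
    exact hG0 (by rw [← hG', zero_mul])
  have hG'0 : G' ≠ 0 := by
    rintro rfl
    exact hG0 (by rw [← hG', mul_zero])
  have hH'0 : H' ≠ 0 := by
    rintro rfl
    exact hH0 (by rw [← hH', mul_zero])
  have d1 := MvPolynomial.totalDegree_mul_of_isDomain hg0 hG'0
  have d2 := MvPolynomial.totalDegree_mul_of_isDomain hg0 hH'0
  rw [hG'] at d1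
  rw [hH'] at d2
  have e1 := hG.1
  have e2 := hH.1
  by_cases hu : G'.totalDegree = 0
  · have := (c1_const hG'0 hu).1
    rw [← hG', ← hH']
    exact mul_dvd_mul_left g this.dvd
  exfalso
  have hsum := card_filter_add_card_filter_not (s := S) (fun P => evP g P = 0)
  by_cases h0 : g.totalDegree = 0
  · have a1 : #{P ∈ S | evP g P = 0} = 0 := by
      rw [card_eq_zero, filter_eq_empty_iff]
      exact fun P _ => (c1_const hg0 h0).2 P
    have a2 := c1_split S H G g H' G' hrel hH' hG' hG0 3 (by omega) hH.2 hG.2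
    omega
  by_cases h1 : g.totalDegree = 1
  · have a1 := c1_line h subset_rfl hg0 (by omega)
    have a2 := c1_split S H G g H' G' hrel hH' hG' hG0 2 (by omega) hH.2 hG.2
    omega
  have a2 := c1_split S H G g H' G' hrel hH' hG' hG0 1 (by omega) hH.2 hG.2
  have a3 : #{P ∈ S | ¬ evP g P = 0} ≤ 1 := by omega
  have a4 : ∀ P ∈ S, evP g P = 0 := by
    intro P hP
    by_contra hP0
    refine hP0 (hb P hP g ⟨by omega, fun P' hP' => ?_⟩)
    rw [mem_erase] at hP'
    by_contra hP'0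
    exact hP'.1 (card_le_one.mp a3 P' (mem_filter.mpr ⟨hP'.2, hP'0⟩) P (mem_filter.mpr ⟨hP, hP0⟩))
  exact hg0 (ha g ⟨by omega, a4⟩)

omit [Fintype F] in
theorem c1_zero {S : Finset (F × F)} {P : F × F}
    (hb : ∀ Q ∈ Van 2 (S.erase P), evP Q P = 0) :
    Nat.card {G : MvPolynomial (Fin 2) F // G ∈ Van 2 (S.erase P) ∧ evP G P ≠ 0} = 0 := by
  rw [Nat.card_eq_zero]
  exact Or.inl ⟨fun G => G.2.2 (hb G.1 G.2.1)⟩

theorem caseA (S : Finset (F × F)) (hS : #S = 10) (h : ∀ l, ¬ Rich S l) :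
    ((Fintype.card F : ℚ) - 1) * ((iv 3 S : ℚ) - 1 -
        ((Fintype.card F : ℚ) - 1) * (if iv 3 S = 1 then 0 else 1)) =
      ((Fintype.card F : ℚ) ^ 3 - Fintype.card F) * ((iv 2 S : ℚ) - 1) +
        ((Fintype.card F : ℚ) ^ 2 - Fintype.card F) * c9 S := by
  have hq : 1 < Fintype.card F := Fintype.one_lt_card
  have e0 : iv 0 (∅ : Finset (F × F)) = Fintype.card F := by simpa using iv_empty (F := F) 0
  have e1 : iv 1 (∅ : Finset (F × F)) = Fintype.card F ^ 3 := by simpa using iv_empty (F := F) 1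
  by_cases ha : ∀ Q ∈ Van 2 S, Q = 0
  swap
  · push Not at ha
    obtain ⟨Q, hQ, hQ0⟩ := ha
    have hd := c1_deg h subset_rfl (by omega) hQ0 hQ
    have hT : {P ∈ S | evP Q P ≠ 0} = (∅ : Finset (F × F)) := by
      rw [filter_eq_empty_iff]
      exact fun P hP h0 => h0 (hQ.2 P hP)
    have i3 := c1_iv S Q hQ0 2 1 hd fun G hG => c1_K h subset_rfl (by omega) hQ0 hQ hG
    have i2 := c1_iv S Q hQ0 2 0 hd fun G hG =>
      c1_K h subset_rfl (by omega) hQ0 hQ (c1_mono (by omega) subset_rfl hG)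
    rw [hT, e1] at i3
    rw [hT, e0] at i2
    have i9 : c9 S = 0 := by
      unfold c9
      refine sum_eq_zero fun P hP => c1_zero fun G hG => ?_
      exact c1_dvd (c1_K h (erase_subset P S) (by rw [card_erase_of_mem hP]; omega) hQ0
        (c1_mono le_rfl (erase_subset _ _) hQ) (c1_mono (by omega) subset_rfl hG)) P (hQ.2 P hP)
    have n1 : Fintype.card F ^ 3 ≠ 1 := (Nat.one_lt_pow (by omega) hq).ne'
    rw [show iv 3 S = _ from i3, show iv 2 S = _ from i2, i9, if_neg n1]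
    push_cast
    ring
  have i2 : iv 2 S = 1 := c1_one ha
  by_cases hb : ∀ P ∈ S, ∀ Q ∈ Van 2 (S.erase P), evP Q P = 0
  swap
  · push Not at hb
    obtain ⟨P0, hP0, Q, hQ, hQP⟩ := hb
    have hQ0 : Q ≠ 0 := by
      rintro rfl
      exact hQP (by simp [evP])
    have h9 : #(S.erase P0) = 9 := by rw [card_erase_of_mem hP0]; omega
    have hd := c1_deg h (erase_subset P0 S) (by omega) hQ0 hQ
    have hT : {P ∈ S | evP Q P ≠ 0} = ({P0} : Finset (F × F)) := by
      ext P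
      rw [mem_filter, mem_singleton]
      refine ⟨fun hP => ?_, fun hP => by rw [hP]; exact ⟨hP0, hQP⟩⟩
      by_contra h5
      exact hP.2 (hQ.2 P (mem_erase.mpr ⟨h5, hP.1⟩))
    have hT' : {P ∈ S.erase P0 | evP Q P ≠ 0} = (∅ : Finset (F × F)) := by
      rw [filter_eq_empty_iff]
      exact fun P hP h0 => h0 (hQ.2 P hP)
    have i3 := c1_iv S Q hQ0 2 1 hd fun G hG =>
      c1_K h (erase_subset P0 S) (by omega) hQ0 hQ (c1_mono le_rfl (erase_subset _ _) hG)
    have j2 := c1_iv (S.erase P0) Q hQ0 2 0 hd fun G hG =>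
      c1_K h (erase_subset P0 S) (by omega) hQ0 hQ (c1_mono (by omega) subset_rfl hG)
    rw [hT] at i3
    rw [hT', e0] at j2
    have s1 := c1_single 1 P0
    rw [← i3] at s1
    have i3' : iv 3 S = Fintype.card F ^ 2 := by
      refine Nat.eq_of_mul_eq_mul_right (by omega : 0 < Fintype.card F) ?_
      rw [show iv 3 S * _ = _ from s1, ← pow_succ]
      rfl
    have i9 : c9 S + 1 = Fintype.card F := by
      unfold c9
      rw [sum_eq_single_of_mem P0 hP0]
      · have := c1_diff S P0 hP0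
        rw [i2, show iv 2 (S.erase P0) = _ from j2] at this
        exact this
      · intro P hP hne
        refine c1_zero fun G hG => ?_
        have h8 : #((S.erase P0).erase P) = 8 := by
          rw [card_erase_of_mem (mem_erase.mpr ⟨hne, hP⟩)]; omega
        refine c1_dvd (c1_K h ((erase_subset P _).trans (erase_subset P0 S)) (by omega) hQ0
          (c1_mono le_rfl (erase_subset _ _) hQ) (c1_mono (by omega) ?_ hG)) P
          (hQ.2 P (mem_erase.mpr ⟨hne, hP⟩))
        exact erase_subset_erase P (erase_subset P0 S)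
    have n1 : Fintype.card F ^ 2 ≠ 1 := (Nat.one_lt_pow (by omega) hq).ne'
    have i9' : (c9 S : ℚ) = Fintype.card F - 1 := by
      rw [← i9]; push_cast; ring
    rw [i3', i2, i9', if_neg n1]
    push_cast
    ring
  have i9 : c9 S = 0 := by
    unfold c9
    exact sum_eq_zero fun P hP => c1_zero (hb P hP)
  by_cases hc : ∀ G ∈ Van 3 S, G = 0
  · rw [c1_one hc, i2, i9]
    simp
  push Not at hc
  obtain ⟨G, hG, hG0⟩ := hc
  have hd : G.totalDegree = 3 := by
    by_contra h3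
    have := hG.1
    exact hG0 (ha G ⟨by omega, hG.2⟩)
  have hT : {P ∈ S | evP G P ≠ 0} = (∅ : Finset (F × F)) := by
    rw [filter_eq_empty_iff]
    exact fun P hP h0 => h0 (hG.2 P hP)
  have i3 := c1_iv S G hG0 3 0 hd fun H hH => c1_C hS h ha hb hG0 hG hH
  rw [hT, e0] at i3
  rw [show iv 3 S = _ from i3, i2, i9, if_neg hq.ne']
  push_cast
  ring

end Pool.Agent.MP_aed30a_nt.H54
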