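import Pool.Agent.MP_aed30a_nt.H54.Bezout

namespace Pool.Agent.MP_aed30a_nt.H54
open Finset

variable {F : Type} [Field F] [Fintype F] [DecidableEq F]

omit [Fintype F] [DecidableEq F] in
theorem c2_ev_mul (G H : MvPolynomial (Fin 2) F) (P : F × F) :
    evP (G * H) P = evP G P * evP H P := by simp [evP]

omit [Fintype F] [DecidableEq F] in
theorem c2_ev_C (a : F) (P : F × F) : evP (MvPolynomial.C a) P = a := by simp [evP]

omit [Fintype F] [DecidableEq F] in
theorem c2_ev_zero (P : F × F) : evP (0 : MvPolynomial (Fin 2) F) P = 0 := by simp [evP]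

omit [Fintype F] [DecidableEq F] in
/-- a nonzero polynomial of degree at most one with a zero has degree one -/
theorem c2_deg_one (l : MvPolynomial (Fin 2) F) (h0 : l ≠ 0) (h1 : l.totalDegree ≤ 1)
    (P : F × F) (hP : evP l P = 0) : l.totalDegree = 1 := by
  by_contra hne
  have h : l.totalDegree = 0 := by omega
  have hC := MvPolynomial.totalDegree_eq_zero_iff_eq_C.mp h
  rw [hC, c2_ev_C] at hP
  rw [hP] at hC
  exact h0 (by simpa using hC)

omit [Fintype F] [DecidableEq F] in
theorem c2_irred (l : MvPolynomial (Fin 2) F) (h1 : l.totalDegree = 1) : Irreducible l := by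
  refine MvPolynomial.irreducible_of_totalDegree_eq_one h1 fun x hx => ?_
  refine isUnit_iff_ne_zero.mpr fun hx0 => ?_
  have : l = 0 := by
    ext i
    simpa [hx0] using hx i
  simp [this] at h1

/-- a polynomial of degree at most `k` with more than `k` zeros on a line is divisible by it -/
theorem c2_dvd (l : MvPolynomial (Fin 2) F) (h1 : l.totalDegree = 1) (k : ℕ)
    (G : MvPolynomial (Fin 2) F) (hG : G.totalDegree ≤ k) (Z : Finset (F × F)) (hk : k < #Z)
    (hZl : ∀ P ∈ Z, evP l P = 0) (hZG : ∀ P ∈ Z, evP G P = 0) : l ∣ G := by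
  have hirr := c2_irred l h1
  by_contra hnd
  have hrp : IsRelPrime l G := hirr.isRelPrime_iff_not_dvd.mpr hnd
  have := bezout G l hrp.symm hirr.ne_zero k hG Z hZG hZl
  rw [h1] at this
  omega

/-- removing a line -/
theorem c2_iv (l : MvPolynomial (Fin 2) F) (h1 : l.totalDegree = 1) (d : ℕ)
    (S : Finset (F × F)) (hS : d + 1 < #{P ∈ S | evP l P = 0}) :
    iv (d + 1) S = iv d {P ∈ S | evP l P ≠ 0} := by
  have hl0 : l ≠ 0 := (c2_irred l h1).ne_zero
  symm
  unfold iv
  refine Nat.card_congr (Equiv.ofBijective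
    (fun H : Van d {P ∈ S | evP l P ≠ 0} => (⟨l * H.1, ?_⟩ : Van (d + 1) S)) ⟨?_, ?_⟩)
  · refine ⟨?_, fun P hP => ?_⟩
    · have := MvPolynomial.totalDegree_mul l H.1
      have h2 := H.2.1
      omega
    · rw [c2_ev_mul]
      by_cases h : evP l P = 0
      · simp [h]
      · rw [H.2.2 P (mem_filter.mpr ⟨hP, h⟩), mul_zero]
  · intro H H' h
    have h' : l * H.1 = l * H'.1 := congrArg Subtype.val h
    exact Subtype.ext (mul_left_cancel₀ hl0 h')
  · rintro ⟨G, hG1, hG2⟩
    obtain ⟨H, rfl⟩ := c2_dvd l h1 (d + 1) G hG1 _ hS (fun P hP => (mem_filter.mp hP).2)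
      (fun P hP => hG2 P (mem_filter.mp hP).1)
    refine ⟨⟨H, ?_, fun P hP => ?_⟩, rfl⟩
    · by_cases hH : H = 0
      · simp [hH]
      · rw [MvPolynomial.totalDegree_mul_of_isDomain hl0 hH] at hG1
        omega
    · have := hG2 P (mem_filter.mp hP).1
      rw [c2_ev_mul] at this
      exact (mul_eq_zero.mp this).resolve_left (mem_filter.mp hP).2

/-- the polynomials vanishing on `S` minus a point -/
theorem c2_erase (d : ℕ) (S : Finset (F × F)) (P : F × F) (hP : P ∈ S) :
    iv d (S.erase P) = iv d S +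
      Nat.card {G : MvPolynomial (Fin 2) F // G ∈ Van d (S.erase P) ∧ evP G P ≠ 0} := by
  have hfin := van_finite d (S.erase P)
  have h1 : Van d (S.erase P) = Van d S ∪ {G | G ∈ Van d (S.erase P) ∧ evP G P ≠ 0} := by
    ext G
    constructor
    · intro hG
      by_cases h : evP G P = 0
      · left
        refine ⟨hG.1, fun Q hQ => ?_⟩
        by_cases hQP : Q = P
        · rw [hQP, h]
        · exact hG.2 Q (mem_erase.mpr ⟨hQP, hQ⟩)
      · right
        exact ⟨hG, h⟩
    · rintro (hG | hG)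
      · exact ⟨hG.1, fun Q hQ => hG.2 Q (mem_of_mem_erase hQ)⟩
      · exact hG.1
  have h2 : Disjoint (Van d S) {G | G ∈ Van d (S.erase P) ∧ evP G P ≠ 0} := by
    rw [Set.disjoint_left]
    intro G hG hG'
    exact hG'.2 (hG.2 P hP)
  have h3 : {G | G ∈ Van d (S.erase P) ∧ evP G P ≠ 0}.Finite :=
    hfin.subset fun G hG => hG.1
  have h4 := Set.ncard_union_eq h2 (van_finite d S) h3
  rw [← h1] at h4
  exact h4

/-- the line through two points -/
noncomputable def c2_line (A B : F × F) : MvPolynomial (Fin 2) F :=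
  MvPolynomial.C (B.2 - A.2) * (MvPolynomial.X 0 - MvPolynomial.C A.1) -
    MvPolynomial.C (B.1 - A.1) * (MvPolynomial.X 1 - MvPolynomial.C A.2)

omit [Fintype F] [DecidableEq F] in
theorem c2_line_ev (A B P : F × F) :
    evP (c2_line A B) P = (B.2 - A.2) * (P.1 - A.1) - (B.1 - A.1) * (P.2 - A.2) := by
  simp [evP, c2_line]

omit [Fintype F] [DecidableEq F] in
theorem c2_deg_XC (i : Fin 2) (a : F) :
    (MvPolynomial.X i - MvPolynomial.C a : MvPolynomial (Fin 2) F).totalDegree ≤ 1 := by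
  refine (MvPolynomial.totalDegree_sub _ _).trans ?_
  simp

omit [Fintype F] [DecidableEq F] in
theorem c2_line_deg (A B : F × F) : (c2_line A B).totalDegree ≤ 1 := by
  have h : ∀ (c a : F) (i : Fin 2), (MvPolynomial.C c * (MvPolynomial.X i - MvPolynomial.C a) :
      MvPolynomial (Fin 2) F).totalDegree ≤ 1 := by
    intro c a i
    refine (MvPolynomial.totalDegree_mul _ _).trans ?_
    have := c2_deg_XC i a
    simpa using this
  refine (MvPolynomial.totalDegree_sub _ _).trans ?_
  exact max_le (h _ _ _) (h _ _ _)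

omit [Fintype F] [DecidableEq F] in
theorem c2_line_ne (A B : F × F) (h : A ≠ B) : c2_line A B ≠ 0 := by
  intro h0
  have h1 := c2_line_ev A B (A.1 + 1, A.2)
  have h2 := c2_line_ev A B (A.1, A.2 + 1)
  rw [h0, c2_ev_zero] at h1 h2
  apply h
  ext
  · simp only [add_sub_cancel_left, sub_self, mul_zero, mul_one, zero_sub] at h2
    linear_combination h2.symm
  · simp only [add_sub_cancel_left, sub_self, mul_zero, mul_one, sub_zero] at h1
    linear_combination h1

omit [Fintype F] [DecidableEq F] in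
/-- a line through `Q` that misses `P` -/
theorem c2_sep1 (Q P : F × F) (h : Q ≠ P) :
    ∃ m : MvPolynomial (Fin 2) F, m.totalDegree ≤ 1 ∧ evP m Q = 0 ∧ evP m P ≠ 0 := by
  by_cases h1 : Q.1 = P.1
  · have h2 : Q.2 ≠ P.2 := fun h2 => h (Prod.ext h1 h2)
    refine ⟨MvPolynomial.X 1 - MvPolynomial.C Q.2, c2_deg_XC _ _, by simp [evP], ?_⟩
    simpa [evP, sub_eq_zero] using h2.symm
  · refine ⟨MvPolynomial.X 0 - MvPolynomial.C Q.1, c2_deg_XC _ _, by simp [evP], ?_⟩
    simpa [evP, sub_eq_zero] using Ne.symm h1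

omit [Fintype F] in
theorem c2_sep (U : Finset (F × F)) (P : F × F) (hP : P ∉ U) :
    ∃ G ∈ Van (#U) U, evP G P ≠ 0 := by
  induction U using Finset.induction_on with
  | empty => exact ⟨1, ⟨by simp, by simp⟩, by simp [evP]⟩
  | insert Q U hQ ih =>
    obtain ⟨G, hG, hGP⟩ := ih fun h => hP (mem_insert_of_mem h)
    obtain ⟨m, hm1, hm2, hm3⟩ := c2_sep1 Q P fun h => hP (h ▸ mem_insert_self _ _)
    refine ⟨m * G, ⟨?_, fun R hR => ?_⟩, ?_⟩
    · have := MvPolynomial.totalDegree_mul m G
      have h2 := hG.1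
      rw [card_insert_of_notMem hQ]
      omega
    · rw [c2_ev_mul]
      rcases mem_insert.mp hR with rfl | hR
      · simp [hm2]
      · simp [hG.2 R hR]
    · rw [c2_ev_mul]
      exact mul_ne_zero hm3 hGP

omit [DecidableEq F] in
theorem c2_q : 2 ≤ Fintype.card F := Fintype.one_lt_card

/-- separated points: number of conics -/
theorem c2_iv_sep (T : Finset (F × F)) (hT : #T ≤ 4)
    (h : ∀ P ∈ T, ∃ G ∈ Van 2 (T.erase P), evP G P ≠ 0) :
    iv 2 T = Fintype.card F ^ (6 - #T) := by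
  have h1 := iv_mul_of_sep 2 T h
  have h2 : (2 + 2).choose 2 = (6 - #T) + #T := by
    have : (2 + 2).choose 2 = 6 := by decide
    omega
  rw [h2, pow_add] at h1
  have hq : 0 < Fintype.card F ^ #T := pow_pos Fintype.card_pos _
  exact Nat.eq_of_mul_eq_mul_right hq h1

theorem c2_small (T : Finset (F × F)) (hT : #T ≤ 3) : iv 2 T = Fintype.card F ^ (6 - #T) := by
  refine c2_iv_sep T (by omega) fun P hP => ?_
  obtain ⟨G, hG, hGP⟩ := c2_sep (T.erase P) P (notMem_erase _ _)
  refine ⟨G, ⟨hG.1.trans ?_, hG.2⟩, hGP⟩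
  rw [card_erase_of_mem hP]
  omega

/-- four points not on a line -/
theorem c2_four_gen (T : Finset (F × F)) (hT : #T = 4)
    (h : ∀ m ∈ Van 1 T, m = 0) : iv 2 T = Fintype.card F ^ 2 ∧ iv 1 T = 1 := by
  constructor
  · have := c2_iv_sep T hT.le fun P hP => ?_
    · rw [this, hT]
    have h3 : #(T.erase P) = 3 := by rw [card_erase_of_mem hP, hT]
    obtain ⟨A, B, C, hAB, hAC, hBC, hE⟩ := card_eq_three.mp h3
    have hmem : ∀ Q, Q ∈ T.erase P ↔ Q = A ∨ Q = B ∨ Q = C := by
      intro Q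
      rw [hE]
      simp
    have hA : A ≠ P := (mem_erase.mp ((hmem A).mpr (by simp))).1
    have hB : B ≠ P := (mem_erase.mp ((hmem B).mpr (by simp))).1
    have hC : C ≠ P := (mem_erase.mp ((hmem C).mpr (by simp))).1
    by_cases h1 : evP (c2_line A B) P = 0
    · by_cases h2 : evP (c2_line A C) P = 0
      · exfalso
        refine c2_line_ne A P hA (h _ ⟨c2_line_deg _ _, fun Q hQ => ?_⟩)
        rw [c2_line_ev] at h1 h2 ⊢
        by_cases hQP : Q = P
        · rw [hQP]; ring
        · rcases (hmem Q).mp (mem_erase.mpr ⟨hQP, hQ⟩) with rfl | rfl | rfl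
          · ring
          · linear_combination -h1
          · linear_combination -h2
      · obtain ⟨m, hm1, hm2, hm3⟩ := c2_sep1 B P hB
        refine ⟨c2_line A C * m, ⟨?_, fun Q hQ => ?_⟩, ?_⟩
        · have := MvPolynomial.totalDegree_mul (c2_line A C) m
          have := c2_line_deg A C
          omega
        · rw [c2_ev_mul]
          rcases (hmem Q).mp hQ with rfl | rfl | rfl
          · simp [c2_line_ev]
          · simp [hm2]
          · rw [c2_line_ev]; ring
        · rw [c2_ev_mul]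
          exact mul_ne_zero h2 hm3
    · obtain ⟨m, hm1, hm2, hm3⟩ := c2_sep1 C P hC
      refine ⟨c2_line A B * m, ⟨?_, fun Q hQ => ?_⟩, ?_⟩
      · have := MvPolynomial.totalDegree_mul (c2_line A B) m
        have := c2_line_deg A B
        omega
      · rw [c2_ev_mul]
        rcases (hmem Q).mp hQ with rfl | rfl | rfl
        · simp [c2_line_ev]
        · rw [c2_line_ev]; ring
        · simp [hm2]
      · rw [c2_ev_mul]
        exact mul_ne_zero h1 hm3
  · have : Van 1 T = {0} := by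
      ext m
      constructor
      · exact fun hm => h m hm
      · rintro rfl
        exact ⟨by simp, fun P _ => c2_ev_zero P⟩
    unfold iv
    rw [this]
    simp

/-- four points on a line -/
theorem c2_four_col (T : Finset (F × F)) (hT : #T = 4) (m : MvPolynomial (Fin 2) F)
    (hm : m ∈ Van 1 T) (h0 : m ≠ 0) :
    iv 2 T = Fintype.card F ^ 3 ∧ iv 1 T = Fintype.card F := by
  obtain ⟨P, hP⟩ : T.Nonempty := card_pos.mp (by omega)
  have h1 := c2_deg_one m h0 hm.1 P (hm.2 P hP)
  have h2 : ({P ∈ T | evP m P = 0} : Finset (F × F)) = T := filter_true_of_mem hm.2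
  have h3 : ({P ∈ T | evP m P ≠ 0} : Finset (F × F)) = ∅ :=
    filter_false_of_mem fun P hP h => h (hm.2 P hP)
  have h4 := c2_iv m h1 1 T (by rw [h2]; omega)
  have h5 := c2_iv m h1 0 T (by rw [h2]; omega)
  rw [h3, iv_empty] at h4 h5
  exact ⟨h4, by simpa using h5⟩

omit [Fintype F] in
theorem c2_rich_deg (S : Finset (F × F)) (l : MvPolynomial (Fin 2) F) (hl : Rich S l) :
    l.totalDegree = 1 := by
  obtain ⟨P, hP⟩ : ({P ∈ S | evP l P = 0} : Finset (F × F)).Nonempty :=
    card_pos.mp (by have := hl.2.2; omega)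
  exact c2_deg_one l hl.1 hl.2.1 P (mem_filter.mp hP).2

theorem rich_card (S : Finset (F × F)) (hS : #S = 10) (l : MvPolynomial (Fin 2) F)
    (hl : Rich S l) : Nat.card {l' // Rich S l'} = Fintype.card F - 1 := by
  have h1 := c2_rich_deg S l hl
  have hc : Nat.card {u : F // u ≠ 0} = Fintype.card F - 1 := by
    rw [Nat.card_eq_fintype_card, Fintype.card_subtype_compl]
    simp
  rw [← hc]
  symm
  refine Nat.card_congr (Equiv.ofBijective
    (fun u : {u : F // u ≠ 0} => (⟨l * MvPolynomial.C u.1, ?_⟩ : {l' // Rich S l'})) ⟨?_, ?_⟩)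
  · refine ⟨mul_ne_zero hl.1 (by simpa using u.2), ?_, ?_⟩
    · have := MvPolynomial.totalDegree_mul l (MvPolynomial.C u.1)
      rw [MvPolynomial.totalDegree_C] at this
      omega
    · refine hl.2.2.trans (card_le_card fun P hP => ?_)
      rw [mem_filter] at hP ⊢
      exact ⟨hP.1, by rw [c2_ev_mul, hP.2, zero_mul]⟩
  · intro u v h
    have h' : l * MvPolynomial.C u.1 = l * MvPolynomial.C v.1 := congrArg Subtype.val h
    exact Subtype.ext (MvPolynomial.C_injective _ _ (mul_left_cancel₀ hl.1 h'))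
  · rintro ⟨l', hl'⟩
    have h1' := c2_rich_deg S l' hl'
    have hI : 1 < #(({P ∈ S | evP l P = 0} : Finset (F × F)) ∩ {P ∈ S | evP l' P = 0}) := by
      have h2 := card_union_add_card_inter ({P ∈ S | evP l P = 0} : Finset (F × F))
        {P ∈ S | evP l' P = 0}
      have h3 : #(({P ∈ S | evP l P = 0} : Finset (F × F)) ∪ {P ∈ S | evP l' P = 0}) ≤ #S :=
        card_le_card (union_subset (filter_subset _ _) (filter_subset _ _))
      have h4 := hl.2.2
      have h5 := hl'.2.2
      omega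
    obtain ⟨H, rfl⟩ := c2_dvd l h1 1 l' hl'.2.1 _ hI
      (fun P hP => (mem_filter.mp (mem_inter.mp hP).1).2)
      (fun P hP => (mem_filter.mp (mem_inter.mp hP).2).2)
    have hH : H ≠ 0 := right_ne_zero_of_mul hl'.1
    rw [MvPolynomial.totalDegree_mul_of_isDomain hl.1 hH] at h1'
    have hC := MvPolynomial.totalDegree_eq_zero_iff_eq_C.mp (show H.totalDegree = 0 by omega)
    refine ⟨⟨MvPolynomial.coeff 0 H, fun h => hH ?_⟩, Subtype.ext ?_⟩
    · rw [hC, h]; simp
    · simp only
      rw [← hC]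

theorem caseB (S : Finset (F × F)) (hS : #S = 10) (l : MvPolynomial (Fin 2) F) (hl : Rich S l)
    (T : Finset (F × F)) (hT : T = {P ∈ S | evP l P ≠ 0}) :
    iv 3 S ≠ 1 ∧ iv 2 S = iv 1 T ∧
      (c9 S : ℚ) = ∑ P ∈ T, ((iv 1 (T.erase P) : ℚ) - iv 1 T) ∧
      (iv 3 S : ℚ) = (Fintype.card F : ℚ) ^ (6 - #T) +
        if #T = 4 then (Fintype.card F : ℚ) ^ 2 * ((iv 1 T : ℚ) - 1) else 0 := by
  have h1 := c2_rich_deg S l hl
  have h6 := hl.2.2
  have hq := c2_q (F := F)
  have hT4 : #T ≤ 4 := by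
    have := card_filter_add_card_filter_not (s := S) fun P => evP l P = 0
    rw [hT]
    simp only [ne_eq]
    omega
  have h3 : iv 3 S = iv 2 T := hT ▸ c2_iv l h1 2 S (by omega)
  have h2 : iv 2 S = iv 1 T := hT ▸ c2_iv l h1 1 S (by omega)
  have hpow : ∀ k, 0 < k → Fintype.card F ^ k ≠ 1 := fun k hk =>
    (Nat.one_lt_pow hk.ne' hq).ne'
  have hmain : iv 2 T ≠ 1 ∧ (iv 2 T : ℚ) = (Fintype.card F : ℚ) ^ (6 - #T) +
      if #T = 4 then (Fintype.card F : ℚ) ^ 2 * ((iv 1 T : ℚ) - 1) else 0 := by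
    by_cases h4 : #T = 4
    · rw [if_pos h4, h4]
      by_cases hc : ∀ m ∈ Van 1 T, m = 0
      · obtain ⟨ha, hb⟩ := c2_four_gen T h4 hc
        rw [ha, hb]
        exact ⟨hpow 2 (by norm_num), by push_cast; ring⟩
      · push Not at hc
        obtain ⟨m, hm, h0⟩ := hc
        obtain ⟨ha, hb⟩ := c2_four_col T h4 m hm h0
        rw [ha, hb]
        exact ⟨hpow 3 (by norm_num), by push_cast; ring⟩
    · rw [if_neg h4, c2_small T (by omega)]
      exact ⟨hpow _ (by omega), by push_cast; ring⟩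
  refine ⟨h3 ▸ hmain.1, h2, ?_, h3 ▸ hmain.2⟩
  have hterm : ∀ P ∈ S, (Nat.card {G : MvPolynomial (Fin 2) F //
      G ∈ Van 2 (S.erase P) ∧ evP G P ≠ 0} : ℚ) = (iv 1 (T.erase P) : ℚ) - iv 1 T := by
    intro P hP
    have he := c2_erase 2 S P hP
    have hc : 1 + 1 < #{Q ∈ S.erase P | evP l Q = 0} := by
      rw [filter_erase]
      have := pred_card_le_card_erase (s := ({Q ∈ S | evP l Q = 0} : Finset (F × F))) (a := P)
      omega
    have hi := c2_iv l h1 1 (S.erase P) hc
    rw [filter_erase, ← hT] at hi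
    have : iv 1 (T.erase P) = iv 1 T + Nat.card {G : MvPolynomial (Fin 2) F //
      G ∈ Van 2 (S.erase P) ∧ evP G P ≠ 0} := by rw [← hi, ← h2]; exact he
    rw [this]
    push_cast
    ring
  unfold c9
  push_cast
  rw [sum_congr rfl hterm]
  symm
  refine sum_subset (hT ▸ filter_subset _ _) fun P _ hP => ?_
  rw [erase_eq_of_notMem hP, sub_self]

end Pool.Agent.MP_aed30a_nt.H54
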