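import Mathlib

/-! Definitions for the non-polynomiality of the number of irreducible subrings. -/

namespace Pool.Agent.MP_aed30a_nt.H54
open Finset

section lattice
variable {A : Type*} [CommRing A]

/-- `L` contains `1`, satisfies `p L L ⊆ L` and has index `p ^ f`. -/
def Adm (p f : ℕ) (L : AddSubgroup A) : Prop :=
  (1 : A) ∈ L ∧ (∀ x ∈ L, ∀ y ∈ L, (p : A) * (x * y) ∈ L) ∧ L.index = p ^ f

/-- the subgroup `p L L` -/
def sq (p : ℕ) (L : AddSubgroup A) : AddSubgroup A :=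
  AddSubgroup.closure {z | ∃ x ∈ L, ∃ y ∈ L, z = (p : A) * (x * y)}

end lattice

section plane
variable {F : Type*} [CommRing F]

/-- value of the polynomial of degree at most three with coefficient vector `c` -/
def ev3 (c : Fin 10 → F) (P : F × F) : F :=
  c 0 + c 1 * P.1 + c 2 * P.2 + c 3 * P.1 ^ 2 + c 4 * (P.1 * P.2) + c 5 * P.2 ^ 2 +
    c 6 * P.1 ^ 3 + c 7 * (P.1 ^ 2 * P.2) + c 8 * (P.1 * P.2 ^ 2) + c 9 * P.2 ^ 3

/-- value of the polynomial of degree at most two with coefficient vector `c` -/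
def ev2 (c : Fin 6 → F) (P : F × F) : F :=
  c 0 + c 1 * P.1 + c 2 * P.2 + c 3 * P.1 ^ 2 + c 4 * (P.1 * P.2) + c 5 * P.2 ^ 2

/-- ten points that lie on no cubic -/
def Gen (t : Fin 10 → F × F) : Prop :=
  ∀ c : Fin 10 → F, (∀ i, ev3 c (t i) = 0) → c = 0

/-- number of ordered ten-tuples of points on no cubic -/
noncomputable def Rc (F : Type*) [CommRing F] : ℕ := Nat.card {t : Fin 10 → F × F // Gen t}

variable [Fintype F] [DecidableEq F]

/-- number of points of a cubic -/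
def N3 (c : Fin 10 → F) : ℕ := #{P : F × F | ev3 c P = 0}

/-- number of points of a conic -/
def N2 (c : Fin 6 → F) : ℕ := #{P : F × F | ev2 c P = 0}

/-- number of square roots -/
def sqc (v : F) : ℕ := #{w : F | w ^ 2 = v}

/-- number of roots of `a y ^ 2 + b y + c` -/
def rc (a b c : F) : ℕ := #{y : F | a * y ^ 2 + b * y + c = 0}

/-- numbers of arguments where `g` has one, resp. two square roots -/
def prof (g : F → F) : ℕ × ℕ := (#{x : F | sqc (g x) = 1}, #{x : F | sqc (g x) = 2})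

/-- sum over the constant term -/
def row (τ : ℕ × ℕ → ℚ) (e4 e3 e2 e1 : F) : ℚ :=
  ∑ c : F, τ (prof fun x => e4 * x ^ 4 + e3 * x ^ 3 + e2 * x ^ 2 + e1 * x + c)

/-- sum over the depressed monic quartics -/
def H4 (F : Type*) [CommRing F] [Fintype F] [DecidableEq F] (τ : ℕ × ℕ → ℚ) : ℚ :=
  ((Fintype.card F : ℚ) - 1) * ∑ a ∈ univ.erase (0 : F), row τ 1 0 a a +
    ∑ b : F, row τ 1 0 0 b + ∑ a ∈ univ.erase (0 : F), row τ 1 0 a 0

/-- sum over the depressed monic cubics -/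
def H3 (F : Type*) [CommRing F] [Fintype F] [DecidableEq F] (τ : ℕ × ℕ → ℚ) : ℚ :=
  ∑ a : F, row τ 0 1 0 a

/-- sum over the polynomials of degree at most two -/
def H2 (F : Type*) [CommRing F] [Fintype F] [DecidableEq F] (τ : ℕ × ℕ → ℚ) : ℚ :=
  (Fintype.card F : ℚ) * ∑ a ∈ univ.erase (0 : F), row τ 0 0 a 0 +
    ((Fintype.card F : ℚ) - 1) * row τ (0 : F) 0 0 1 + row τ (0 : F) 0 0 0

end plane

section closed

/-- sum over the nonzero polynomials of degree at most one of a function of the number of their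
zeros outside a fixed line -/
def linS (q : ℕ) (G : ℕ → ℚ) : ℚ :=
  2 * ((q : ℚ) - 1) * G 0 + ((q : ℚ) - 1) ^ 2 * G q + ((q : ℚ) ^ 3 - q ^ 2) * G (q - 1)

/-- number of ten-sets with at least six collinear points -/
def B1 (q : ℕ) : ℚ :=
  ∑ t ∈ range 5, ((q : ℚ) ^ 2 + q) * (q.choose (10 - t) : ℚ) * ((q ^ 2 - q).choose t : ℚ)

/-- conics through all ten points, summed over these sets -/
def B10 (q : ℕ) : ℚ :=
  ∑ t ∈ range 5, ((q : ℚ) ^ 2 + q) * (q.choose (10 - t) : ℚ) * linS q fun N => (N.choose t : ℚ)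

/-- conics through exactly nine points, summed over these sets -/
def B9 (q : ℕ) : ℚ :=
  ∑ t ∈ range 4, ((q : ℚ) ^ 2 + q) * (q.choose (9 - t) : ℚ) *
    linS q fun N => (N.choose t : ℚ) * ((q : ℚ) ^ 2 - q - N)

/-- cubics (with zero) through all ten points, summed over these sets -/
def Bp (q : ℕ) : ℚ :=
  ∑ t ∈ range 5, ((q : ℚ) ^ 2 + q) * (q.choose (10 - t) : ℚ) * (q : ℚ) ^ (6 - t) *
      ((q ^ 2 - q).choose t : ℚ) +
    ((q : ℚ) ^ 2 + q) * (q.choose 6 : ℚ) * (q : ℚ) ^ 2 * linS q fun N => (N.choose 4 : ℚ)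

/-- weight of a cubic through the vertical point with `n` projective points and `K` further
points at infinity -/
def Psi (q n K : ℕ) : ℚ :=
  (q : ℚ) ^ 2 * (((n - 1).choose 9 : ℚ) / 10) +
    ((q : ℚ) + 1) * (((n - 1 - K).choose 10 : ℚ) -
      ((n - 1 - K : ℕ) : ℚ) * (((n - 1).choose 9 : ℚ) / 10)) / (1 + K)

/-- the weight summed over the lines through the vertical point -/
def tauT (q Ki : ℕ) (s : ℕ × ℕ) : ℚ :=
  Psi q (1 + Ki + s.1 + 2 * s.2) Ki + ((q : ℚ) - s.1 - s.2) * Psi q (1 + Ki + s.1 + 2 * s.2) 0 +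
    s.1 * Psi q (1 + Ki + s.1 + 2 * s.2) 1 + s.2 * Psi q (1 + Ki + s.1 + 2 * s.2) 2

/-- the closed part of the sum over cubics singular at the vertical point -/
def W0c (q : ℕ) : ℚ :=
  ((q : ℚ) - 1) * q * (((q : ℚ) - 1) / 2 * q ^ 4 * Psi q (2 + q) 1 +
      (q : ℚ) ^ 3 * (Psi q (1 + 2 * q) 1 + ((q : ℚ) - 1) * Psi q (1 + q) 1) +
      ((q : ℚ) - 1) / 2 * q ^ 2 * (Psi q (3 * q) 1 + 2 * ((q : ℚ) - 1) * Psi q (2 * q) 1 +
        ((q : ℚ) - 1) ^ 2 * Psi q q 1)) +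
    ((q : ℚ) - 1) * q ^ 3 * (Psi q (3 * q) q + ((q : ℚ) - 1) * Psi q (2 * q) q +
      ((q : ℚ) - 1) * Psi q (2 * q) 0 + ((q : ℚ) - 1) ^ 2 * Psi q q 0) +
    ((q : ℚ) - 1) * q ^ 3 * (Psi q (1 + 2 * q) q + ((q : ℚ) - 1) * Psi q (1 + q) 0)

end closed

/-- the weight of the cubic `y ^ 2 l(x) + y m(x) + c(x)` -/
def vertW {F : Type*} [CommRing F] [Fintype F] [DecidableEq F] (l : F × F) (m : F × F × F)
    (c : F × F × F × F) : ℚ :=
  Psi (Fintype.card F) (1 + rc l.1 m.1 c.1 + ∑ x : F, rc (l.1 * x + l.2)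
    (m.1 * x ^ 2 + m.2.1 * x + m.2.2) (c.1 * x ^ 3 + c.2.1 * x ^ 2 + c.2.2.1 * x + c.2.2.2))
    (rc l.1 m.1 c.1)

end Pool.Agent.MP_aed30a_nt.H54
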