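import Pool.Agent.MP_aed30a_nt.H54.Bezout

namespace Pool.Agent.MP_aed30a_nt.H54
open Finset

variable {F : Type} [Field F] [Fintype F] [DecidableEq F]

/-- exponent vector of the monomial `x ^ a y ^ b` -/
noncomputable def c3_ex (a : ℕ × ℕ) : Fin 2 →₀ ℕ := Finsupp.single 0 a.1 + Finsupp.single 1 a.2

theorem c3_ex_zero (a : ℕ × ℕ) : c3_ex a 0 = a.1 := by simp [c3_ex]

theorem c3_ex_one (a : ℕ × ℕ) : c3_ex a 1 = a.2 := by simp [c3_ex]

theorem c3_ex_inj : Function.Injective c3_ex := by
  intro a b h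
  have h0 := congrArg (fun f => f 0) h
  have h1 := congrArg (fun f => f 1) h
  simp only [c3_ex_zero, c3_ex_one] at h0 h1
  exact Prod.ext h0 h1

/-- the polynomial with coefficient vector `c` -/
noncomputable def c3_pol {n : ℕ} (e : Fin n → ℕ × ℕ) (c : Fin n → F) : MvPolynomial (Fin 2) F :=
  ∑ j, MvPolynomial.monomial (c3_ex (e j)) (c j)

omit [Fintype F] [DecidableEq F] in
theorem c3_pol_coeff {n : ℕ} (e : Fin n → ℕ × ℕ) (he : Function.Injective e) (c : Fin n → F)
    (j : Fin n) : MvPolynomial.coeff (c3_ex (e j)) (c3_pol e c) = c j := by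
  classical
  unfold c3_pol
  rw [MvPolynomial.coeff_sum, Finset.sum_eq_single j]
  · simp
  · intro i _ hij
    rw [MvPolynomial.coeff_monomial, if_neg]
    intro h
    exact hij (he (c3_ex_inj h))
  · simp

omit [Fintype F] [DecidableEq F] in
theorem c3_pol_inj {n : ℕ} (e : Fin n → ℕ × ℕ) (he : Function.Injective e) :
    Function.Injective (c3_pol (F := F) e) := by
  intro c c' h
  funext j
  rw [← c3_pol_coeff e he c j, ← c3_pol_coeff e he c' j, h]

omit [Fintype F] [DecidableEq F] in
theorem c3_pol_deg {n d : ℕ} (e : Fin n → ℕ × ℕ) (hd : ∀ j, (e j).1 + (e j).2 ≤ d)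
    (c : Fin n → F) : (c3_pol e c).totalDegree ≤ d := by
  unfold c3_pol
  refine MvPolynomial.totalDegree_finsetSum_le fun j _ => ?_
  refine (MvPolynomial.totalDegree_monomial_le _ _).trans ?_
  rw [Finsupp.sum_fintype _ _ (fun _ => rfl), Fin.sum_univ_two]
  simpa [c3_ex_zero, c3_ex_one] using hd j

omit [Fintype F] [DecidableEq F] in
theorem c3_pol_ev {n : ℕ} (e : Fin n → ℕ × ℕ) (c : Fin n → F) (P : F × F) :
    evP (c3_pol e c) P = ∑ j, c j * (P.1 ^ (e j).1 * P.2 ^ (e j).2) := by
  unfold c3_pol evP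
  rw [map_sum]
  refine Finset.sum_congr rfl fun j _ => ?_
  rw [MvPolynomial.eval_monomial, Finsupp.prod_fintype _ _ (fun _ => by simp), Fin.prod_univ_two]
  simp [c3_ex_zero, c3_ex_one]

theorem c3_card_van (d : ℕ) :
    #(van_finite d (∅ : Finset (F × F))).toFinset = Fintype.card F ^ (d + 2).choose 2 := by
  rw [← iv_empty d, iv, Nat.card_eq_card_finite_toFinset]

theorem c3_image {n d : ℕ} (e : Fin n → ℕ × ℕ) (he : Function.Injective e)
    (hd : ∀ j, (e j).1 + (e j).2 ≤ d) (hn : (d + 2).choose 2 = n) [DecidableEq (MvPolynomial (Fin 2) F)] :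
    (univ : Finset (Fin n → F)).image (c3_pol e) = (van_finite d (∅ : Finset (F × F))).toFinset := by
  apply Finset.eq_of_subset_of_card_le
  · intro H hH
    obtain ⟨c, -, rfl⟩ := Finset.mem_image.1 hH
    rw [Set.Finite.mem_toFinset]
    exact ⟨c3_pol_deg e hd c, fun P hP => absurd hP (Finset.notMem_empty P)⟩
  · rw [c3_card_van, Finset.card_image_of_injective _ (c3_pol_inj e he), hn]
    simp

theorem c3_surj {n d : ℕ} (e : Fin n → ℕ × ℕ) (he : Function.Injective e)
    (hd : ∀ j, (e j).1 + (e j).2 ≤ d) (hn : (d + 2).choose 2 = n) (H : MvPolynomial (Fin 2) F)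
    (hH : H.totalDegree ≤ d) : ∃ c, c3_pol e c = H := by
  classical
  have : H ∈ (univ : Finset (Fin n → F)).image (c3_pol e) := by
    rw [c3_image e he hd hn, Set.Finite.mem_toFinset]
    exact ⟨hH, fun P hP => absurd hP (Finset.notMem_empty P)⟩
  obtain ⟨c, -, hc⟩ := Finset.mem_image.1 this
  exact ⟨c, hc⟩

theorem c3_sum {n d : ℕ} (e : Fin n → ℕ × ℕ) (he : Function.Injective e)
    (hd : ∀ j, (e j).1 + (e j).2 ≤ d) (hn : (d + 2).choose 2 = n)
    (f : MvPolynomial (Fin 2) F → ℚ) :
    ∑ H ∈ (van_finite d (∅ : Finset (F × F))).toFinset, f H = ∑ c : Fin n → F, f (c3_pol e c) := by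
  classical
  rw [← c3_image e he hd hn, Finset.sum_image fun a _ b _ h => c3_pol_inj e he h]

/-- exponents in degree at most three -/
def c3_e3 : Fin 10 → ℕ × ℕ :=
  ![(0, 0), (1, 0), (0, 1), (2, 0), (1, 1), (0, 2), (3, 0), (2, 1), (1, 2), (0, 3)]

/-- exponents in degree at most two -/
def c3_e2 : Fin 6 → ℕ × ℕ := ![(0, 0), (1, 0), (0, 1), (2, 0), (1, 1), (0, 2)]

/-- exponents in degree at most one -/
def c3_e1 : Fin 3 → ℕ × ℕ := ![(0, 0), (1, 0), (0, 1)]

theorem c3_e3_inj : Function.Injective c3_e3 := by decide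
theorem c3_e2_inj : Function.Injective c3_e2 := by decide
theorem c3_e1_inj : Function.Injective c3_e1 := by decide
theorem c3_e3_deg : ∀ j, (c3_e3 j).1 + (c3_e3 j).2 ≤ 3 := by decide
theorem c3_e2_deg : ∀ j, (c3_e2 j).1 + (c3_e2 j).2 ≤ 2 := by decide
theorem c3_e1_deg : ∀ j, (c3_e1 j).1 + (c3_e1 j).2 ≤ 1 := by decide

omit [Fintype F] [DecidableEq F] in
theorem c3_ev3 (c : Fin 10 → F) (P : F × F) : evP (c3_pol c3_e3 c) P = ev3 c P := by
  rw [c3_pol_ev]
  simp [Fin.sum_univ_succ, c3_e3, ev3]
  ring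

omit [Fintype F] [DecidableEq F] in
theorem c3_ev2 (c : Fin 6 → F) (P : F × F) : evP (c3_pol c3_e2 c) P = ev2 c P := by
  rw [c3_pol_ev]
  simp [Fin.sum_univ_succ, c3_e2, ev2]
  ring

omit [Fintype F] [DecidableEq F] in
theorem c3_ev1 (c : Fin 3 → F) (P : F × F) :
    evP (c3_pol c3_e1 c) P = c 0 + c 1 * P.1 + c 2 * P.2 := by
  rw [c3_pol_ev]
  simp [Fin.sum_univ_succ, c3_e1]
  ring

theorem sum_van3 (G : ℕ → ℚ) :
    ∑ H ∈ (van_finite 3 (∅ : Finset (F × F))).toFinset, G #{P | evP H P = 0} =
      ∑ c : Fin 10 → F, G (N3 c) := by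
  rw [c3_sum c3_e3 c3_e3_inj c3_e3_deg (by decide)]
  simp only [c3_ev3, N3]

theorem sum_van2 (G : ℕ → ℚ) :
    ∑ H ∈ (van_finite 2 (∅ : Finset (F × F))).toFinset, G #{P | evP H P = 0} =
      ∑ c : Fin 6 → F, G (N2 c) := by
  rw [c3_sum c3_e2 c3_e2_inj c3_e2_deg (by decide)]
  simp only [c3_ev2, N2]

omit [Fintype F] [DecidableEq F] in
theorem c3_pol_zero {n : ℕ} (e : Fin n → ℕ × ℕ) : c3_pol e (0 : Fin n → F) = 0 := by
  simp [c3_pol]

omit [DecidableEq F] in
/-- ten points on no cubic are distinct -/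
theorem c3_gen_inj (t : Fin 10 → F × F) (ht : Gen t) : Function.Injective t := by
  have hinj : Function.Injective fun (c : Fin 10 → F) (i : Fin 10) => ev3 c (t i) := by
    intro c c' h
    have : c - c' = 0 := by
      apply ht
      intro i
      have hi := congrFun h i
      simp only [ev3, Pi.sub_apply] at hi ⊢
      linear_combination hi
    exact sub_eq_zero.1 this
  have hsurj := Finite.injective_iff_surjective.1 hinj
  intro i j hij
  by_contra hne
  obtain ⟨c, hc⟩ := hsurj (Pi.single i 1)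
  have h1 : ev3 c (t i) = (Pi.single i 1 : Fin 10 → F) i := congrFun hc i
  have h2 : ev3 c (t j) = (Pi.single i 1 : Fin 10 → F) j := congrFun hc j
  rw [Pi.single_eq_same] at h1
  rw [Pi.single_eq_of_ne (Ne.symm hne)] at h2
  rw [hij, h2] at h1
  exact zero_ne_one h1

theorem c3_gen_iff (t : Fin 10 → F × F) : Gen t ↔ iv 3 (univ.image t) = 1 := by
  constructor
  · intro ht
    have : Van 3 (univ.image t) = {0} := by
      ext H
      simp only [Set.mem_singleton_iff]
      constructor
      · rintro ⟨hd, hv⟩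
        obtain ⟨c, rfl⟩ := c3_surj c3_e3 c3_e3_inj c3_e3_deg (by decide) H hd
        have : c = 0 := ht c fun i => by
          rw [← c3_ev3]
          exact hv _ (Finset.mem_image_of_mem t (Finset.mem_univ i))
        rw [this, c3_pol_zero]
      · rintro rfl
        exact ⟨by simp, fun P _ => by simp [evP]⟩
    rw [iv, this]
    simp
  · intro h c hc
    have h0 : (0 : MvPolynomial (Fin 2) F) ∈ Van 3 (univ.image t) :=
      ⟨by simp, fun P _ => by simp [evP]⟩
    have h1 : c3_pol c3_e3 c ∈ Van 3 (univ.image t) := by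
      refine ⟨c3_pol_deg _ c3_e3_deg c, fun P hP => ?_⟩
      obtain ⟨i, -, rfl⟩ := Finset.mem_image.1 hP
      rw [c3_ev3]
      exact hc i
    have hs : Subsingleton (Van 3 (univ.image t)) := (Nat.card_eq_one_iff_unique.1 h).1
    have := congrArg Subtype.val (hs.elim ⟨_, h1⟩ ⟨_, h0⟩)
    apply c3_pol_inj c3_e3 c3_e3_inj
    rw [c3_pol_zero]
    exact this

/-- a ten-set has `10!` orderings -/
theorem c3_orderings {α : Type} [Fintype α] [DecidableEq α] (S : Finset α) (hS : #S = 10) :
    #{t : Fin 10 → α | univ.image t = S} = Nat.factorial 10 := by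
  have h1 : Fintype.card (Fin 10 ≃ S) = Nat.factorial 10 := by
    rw [Fintype.card_equiv (Fintype.equivFinOfCardEq (by simpa using hS)).symm]
    simp
  rw [← h1, ← Finset.card_univ]
  symm
  refine Finset.card_bij (fun f _ i => (f i : α)) ?_ ?_ ?_
  · intro f _
    simp only [Finset.mem_filter, Finset.mem_univ, true_and]
    ext x
    simp only [Finset.mem_image, Finset.mem_univ, true_and]
    constructor
    · rintro ⟨i, rfl⟩
      exact (f i).2
    · intro hx
      exact ⟨f.symm ⟨x, hx⟩, by simp⟩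
  · intro f _ g _ h
    ext i
    exact congrFun h i
  · intro t ht
    simp only [Finset.mem_filter, Finset.mem_univ, true_and] at ht
    have hm : ∀ i, t i ∈ S := fun i => ht ▸ Finset.mem_image_of_mem t (Finset.mem_univ i)
    have hsurj : Function.Surjective fun i => (⟨t i, hm i⟩ : S) := by
      rintro ⟨x, hx⟩
      rw [← ht] at hx
      obtain ⟨i, -, rfl⟩ := Finset.mem_image.1 hx
      exact ⟨i, rfl⟩
    have hbij : Function.Bijective fun i => (⟨t i, hm i⟩ : S) :=
      (Fintype.bijective_iff_surjective_and_card _).2 ⟨hsurj, by simpa using hS.symm⟩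
    exact ⟨Equiv.ofBijective _ hbij, Finset.mem_univ _, rfl⟩

theorem Rc_eq : Rc F = Nat.factorial 10 * #{S ∈ powersetCard 10 (univ : Finset (F × F)) | iv 3 S = 1} := by
  classical
  have h1 : Rc F = #{t : Fin 10 → F × F | Gen t} := by
    rw [Rc, Nat.card_eq_fintype_card, Fintype.card_subtype]
  rw [h1, Finset.card_eq_sum_card_fiberwise (f := fun t : Fin 10 → F × F => univ.image t)
    (t := {S ∈ powersetCard 10 (univ : Finset (F × F)) | iv 3 S = 1})]
  · rw [mul_comm, ← smul_eq_mul, ← Finset.sum_const]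
    refine Finset.sum_congr rfl fun S hS => ?_
    rw [Finset.mem_filter, Finset.mem_powersetCard] at hS
    rw [← c3_orderings S hS.1.2]
    congr 1
    ext t
    simp only [Finset.mem_filter, Finset.mem_univ, true_and]
    constructor
    · exact fun h => h.2
    · intro h
      exact ⟨(c3_gen_iff t).2 (h ▸ hS.2), h⟩
  · intro t ht
    simp only [Finset.coe_filter, Finset.mem_univ, true_and, Set.mem_ofPred_eq] at ht
    simp only [Finset.coe_filter, Finset.mem_powersetCard, Set.mem_ofPred_eq]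
    refine ⟨⟨Finset.subset_univ _, ?_⟩, (c3_gen_iff t).1 ht⟩
    rw [Finset.card_image_of_injective _ (c3_gen_inj t ht)]
    simp

theorem card_lines : #{l ∈ (van_finite 1 (∅ : Finset (F × F))).toFinset | l.totalDegree = 1} =
    Fintype.card F ^ 3 - Fintype.card F := by
  classical
  have h1 := Finset.card_filter_add_card_filter_not
    (s := (van_finite 1 (∅ : Finset (F × F))).toFinset) (fun l => l.totalDegree = 1)
  have h2 : {l ∈ (van_finite 1 (∅ : Finset (F × F))).toFinset | ¬ l.totalDegree = 1} =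
      (van_finite 0 (∅ : Finset (F × F))).toFinset := by
    ext l
    simp only [Finset.mem_filter, Set.Finite.mem_toFinset, Van, Set.mem_ofPred_eq,
      Finset.notMem_empty, false_imp_iff, implies_true, and_true]
    omega
  rw [h2, c3_card_van, c3_card_van] at h1
  have h3 : (1 + 2).choose 2 = 3 := by decide
  have h4 : (0 + 2).choose 2 = 1 := by decide
  rw [h3, h4, pow_one] at h1
  omega

/-- coefficients of a polynomial of degree one, completed to a coordinate system -/
theorem c3_line (l : MvPolynomial (Fin 2) F) (hl : l.totalDegree = 1) :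
    ∃ a b c b' c' : F, b * c' - c * b' ≠ 0 ∧ ∀ P, evP l P = a + b * P.1 + c * P.2 := by
  obtain ⟨c, rfl⟩ := c3_surj c3_e1 c3_e1_inj c3_e1_deg (by decide) l hl.le
  by_cases h1 : c 1 = 0
  · by_cases h2 : c 2 = 0
    · exfalso
      have : c3_pol c3_e1 c = MvPolynomial.C (c 0) := by
        have h0 : c3_ex (0, 0) = 0 := by simp [c3_ex]
        simp [c3_pol, Fin.sum_univ_three, h1, h2, c3_e1, h0]
      rw [this, MvPolynomial.totalDegree_C] at hl
      exact zero_ne_one hl
    · exact ⟨c 0, c 1, c 2, 1, 0, by simpa using h2, c3_ev1 c⟩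
  · exact ⟨c 0, c 1, c 2, 0, 1, by simpa using h1, c3_ev1 c⟩

omit [DecidableEq F] in
theorem c3_coord (a b c b' c' : F) (h : b * c' - c * b' ≠ 0) :
    Function.Bijective fun P : F × F => (a + b * P.1 + c * P.2, b' * P.1 + c' * P.2) := by
  apply Finite.injective_iff_bijective.1
  intro P Q hPQ
  simp only [Prod.mk.injEq] at hPQ
  obtain ⟨h1, h2⟩ := hPQ
  refine Prod.ext ?_ ?_
  · apply mul_left_cancel₀ h
    linear_combination c' * h1 - c * h2
  · apply mul_left_cancel₀ h
    linear_combination b * h2 - b' * h1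

theorem card_line (l : MvPolynomial (Fin 2) F) (hl : l.totalDegree = 1) :
    #{P : F × F | evP l P = 0} = Fintype.card F := by
  obtain ⟨a, b, c, b', c', h, hev⟩ := c3_line l hl
  have h1 : #{P : F × F | evP l P = 0} = #{Q : F × F | Q.1 = 0} := by
    refine Finset.card_bijective _ (c3_coord a b c b' c' h) fun P => ?_
    simp [hev]
  have h2 : ({Q : F × F | Q.1 = 0} : Finset (F × F)) = {0} ×ˢ univ := by
    ext Q
    simp only [Finset.mem_filter, Finset.mem_univ, true_and, Finset.mem_product,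
      Finset.mem_singleton, and_true]
  rw [h1, h2]
  simp

/-- zeros of `α + β u + γ v` with `u ≠ 0` -/
theorem c3_count (α β γ : F) : #{Q : F × F | Q.1 ≠ 0 ∧ α + β * Q.1 + γ * Q.2 = 0} =
    if γ = 0 then (if β = 0 then (if α = 0 then Fintype.card F ^ 2 - Fintype.card F else 0)
      else (if α = 0 then 0 else Fintype.card F)) else Fintype.card F - 1 := by
  split_ifs with h1 h2 h3 h3
  · have : ({Q : F × F | Q.1 ≠ 0 ∧ α + β * Q.1 + γ * Q.2 = 0} : Finset (F × F)) =
        (univ.erase 0) ×ˢ univ := by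
      ext Q
      simp [h1, h2, h3]
    rw [this, Finset.card_product, Finset.card_erase_of_mem (Finset.mem_univ _),
      Finset.card_univ, Nat.sub_mul, one_mul, pow_two]
  · rw [Finset.card_eq_zero]
    ext Q
    simp [h1, h2, h3]
  · rw [Finset.card_eq_zero]
    ext Q
    simp [h1, h2, h3]
  · have : ({Q : F × F | Q.1 ≠ 0 ∧ α + β * Q.1 + γ * Q.2 = 0} : Finset (F × F)) =
        {-α / β} ×ˢ univ := by
      ext Q
      simp only [h1, zero_mul, add_zero, Finset.mem_filter, Finset.mem_univ, true_and,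
        Finset.mem_product, Finset.mem_singleton, and_true]
      constructor
      · rintro ⟨-, h⟩
        field_simp
        linear_combination h
      · intro h
        rw [h]
        refine ⟨div_ne_zero (neg_ne_zero.2 h3) h2, ?_⟩
        field_simp
        ring
    rw [this]
    simp
  · rw [← Finset.card_univ, ← Finset.card_erase_of_mem (Finset.mem_univ (0 : F))]
    symm
    refine Finset.card_bij (fun u _ => (u, -(α + β * u) / γ)) ?_ ?_ ?_
    · intro u hu
      simp only [Finset.mem_filter, Finset.mem_univ, true_and]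
      refine ⟨Finset.ne_of_mem_erase hu, ?_⟩
      field_simp
      ring
    · intro u _ v _ h
      exact congrArg Prod.fst h
    · intro Q hQ
      simp only [Finset.mem_filter, Finset.mem_univ, true_and] at hQ
      refine ⟨Q.1, Finset.mem_erase.2 ⟨hQ.1, Finset.mem_univ _⟩, Prod.ext rfl ?_⟩
      have := hQ.2
      simp only
      field_simp
      linear_combination -this

theorem c3_sum_ite (A B : ℚ) :
    ∑ x : F, (if x = 0 then A else B) = A + ((Fintype.card F : ℚ) - 1) * B := by
  rw [← Finset.add_sum_erase _ _ (Finset.mem_univ (0 : F)), if_pos rfl,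
    Finset.sum_congr rfl fun x hx => if_neg (Finset.ne_of_mem_erase hx), Finset.sum_const,
    Finset.card_erase_of_mem (Finset.mem_univ _), Finset.card_univ, nsmul_eq_mul,
    Nat.cast_sub Fintype.card_pos, Nat.cast_one]

theorem sum_van1 (l : MvPolynomial (Fin 2) F) (hl : l.totalDegree = 1) (G : ℕ → ℚ) :
    ∑ m ∈ (van_finite 1 (∅ : Finset (F × F))).toFinset, G #{P | evP l P ≠ 0 ∧ evP m P = 0} =
      G (Fintype.card F ^ 2 - Fintype.card F) + linS (Fintype.card F) G := by
  obtain ⟨a, b, c, b', c', h, hev⟩ := c3_line l hl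
  rw [c3_sum c3_e1 c3_e1_inj c3_e1_deg (by decide)]
  simp only [c3_ev1]
  have hbij : Function.Bijective fun w : F × F × F =>
      (![w.2.2 + w.2.1 * a, w.2.1 * b + w.1 * b', w.2.1 * c + w.1 * c'] : Fin 3 → F) := by
    rw [Fintype.bijective_iff_injective_and_card]
    refine ⟨?_, by simp [pow_succ, mul_assoc]⟩
    intro w w' hw
    have h0 := congrFun hw 0
    have h1 := congrFun hw 1
    have h2 := congrFun hw 2
    simp only [Matrix.cons_val_zero, Matrix.cons_val_one, Matrix.cons_val] at h0 h1 h2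
    have e1 : w.1 = w'.1 := by
      apply mul_left_cancel₀ h
      linear_combination b * h2 - c * h1
    have e2 : w.2.1 = w'.2.1 := by
      apply mul_left_cancel₀ h
      linear_combination c' * h1 - b' * h2
    refine Prod.ext e1 (Prod.ext e2 ?_)
    rw [e2] at h0
    exact add_right_cancel h0
  rw [← hbij.sum_comp]
  have hc : ∀ w : F × F × F, #{P : F × F | evP l P ≠ 0 ∧
      (![w.2.2 + w.2.1 * a, w.2.1 * b + w.1 * b', w.2.1 * c + w.1 * c'] : Fin 3 → F) 0 +
      (![w.2.2 + w.2.1 * a, w.2.1 * b + w.1 * b', w.2.1 * c + w.1 * c'] : Fin 3 → F) 1 * P.1 +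
      (![w.2.2 + w.2.1 * a, w.2.1 * b + w.1 * b', w.2.1 * c + w.1 * c'] : Fin 3 → F) 2 * P.2 = 0} =
      #{Q : F × F | Q.1 ≠ 0 ∧ w.2.2 + w.2.1 * Q.1 + w.1 * Q.2 = 0} := by
    intro w
    refine Finset.card_bijective _ (c3_coord a b c b' c' h) fun P => ?_
    simp only [hev, Finset.mem_filter, Finset.mem_univ, true_and, Matrix.cons_val_zero,
      Matrix.cons_val_one, Matrix.cons_val]
    refine and_congr Iff.rfl ?_
    constructor <;> intro hh <;> linear_combination hh
  simp only [hc, c3_count, apply_ite G]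
  rw [Fintype.sum_prod_type]
  simp only [Fintype.sum_prod_type]
  have hγ : ∀ γ : F, (∑ β : F, ∑ α : F, if γ = 0 then (if β = 0 then (if α = 0 then
      G (Fintype.card F ^ 2 - Fintype.card F) else G 0)
      else (if α = 0 then G 0 else G (Fintype.card F))) else G (Fintype.card F - 1)) =
      if γ = 0 then (G (Fintype.card F ^ 2 - Fintype.card F) + ((Fintype.card F : ℚ) - 1) * G 0 +
        ((Fintype.card F : ℚ) - 1) * (G 0 + ((Fintype.card F : ℚ) - 1) * G (Fintype.card F)))
      else (Fintype.card F : ℚ) ^ 2 * G (Fintype.card F - 1) := by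
    intro γ
    split_ifs with h1
    · rw [← c3_sum_ite (F := F) (G (Fintype.card F ^ 2 - Fintype.card F) +
        ((Fintype.card F : ℚ) - 1) * G 0)]
      refine Finset.sum_congr rfl fun β _ => ?_
      split_ifs with h2
      · exact c3_sum_ite _ _
      · exact c3_sum_ite _ _
    · simp only [Finset.sum_const, Finset.card_univ, nsmul_eq_mul]
      ring
  simp only [hγ]
  rw [c3_sum_ite, linS]
  ring

end Pool.Agent.MP_aed30a_nt.H54
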