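import Pool.Agent.MP_aed30a_nt.H54.CaseA
import Pool.Agent.MP_aed30a_nt.H54.CaseB
import Pool.Agent.MP_aed30a_nt.H54.Param

namespace Pool.Agent.MP_aed30a_nt.H54
open Finset

set_option linter.unusedSectionVars false

variable {F : Type} [Field F] [Fintype F] [DecidableEq F]

/-- all polynomials of degree at most `d` -/
noncomputable abbrev c4_V (F : Type) [Field F] [Fintype F] [DecidableEq F] (d : ℕ) :
    Finset (MvPolynomial (Fin 2) F) :=
  (van_finite d (∅ : Finset (F × F))).toFinset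

theorem c4_mem_V (d : ℕ) (G : MvPolynomial (Fin 2) F) : G ∈ c4_V F d ↔ G.totalDegree ≤ d := by
  simp [c4_V, Van]

theorem c4_iv (d : ℕ) (S : Finset (F × F)) :
    iv d S = #{G ∈ c4_V F d | ∀ P ∈ S, evP G P = 0} := by
  unfold iv
  rw [← Nat.card_eq_finsetCard]
  refine Nat.card_congr (Equiv.subtypeEquivRight fun G => ?_)
  rw [mem_filter, c4_mem_V]
  rfl

theorem c4_sep (d : ℕ) (S : Finset (F × F)) (P : F × F) :
    Nat.card {G : MvPolynomial (Fin 2) F // G ∈ Van d (S.erase P) ∧ evP G P ≠ 0} =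
      #{G ∈ c4_V F d | (∀ Q ∈ S.erase P, evP G Q = 0) ∧ evP G P ≠ 0} := by
  rw [← Nat.card_eq_finsetCard]
  refine Nat.card_congr (Equiv.subtypeEquivRight fun G => ?_)
  rw [mem_filter, c4_mem_V]
  simp only [Van, Set.mem_ofPred_eq, and_assoc]

theorem c4_iv_erase (d : ℕ) (S : Finset (F × F)) (P : F × F) (hP : P ∈ S) :
    (iv d (S.erase P) : ℚ) - iv d S =
      #{G ∈ c4_V F d | (∀ Q ∈ S.erase P, evP G Q = 0) ∧ evP G P ≠ 0} := by
  rw [c4_iv, c4_iv, sub_eq_iff_eq_add, ← Nat.cast_add, Nat.cast_inj,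
    ← card_filter_add_card_filter_not (s := {G ∈ c4_V F d | ∀ Q ∈ S.erase P, evP G Q = 0})
      (fun G => evP G P ≠ 0), filter_filter, filter_filter]
  congr 2
  refine filter_congr fun G _ => ?_
  constructor
  · rintro ⟨h1, h2⟩ Q hQ
    by_cases hQP : Q = P
    · rw [hQP]; exact not_not.mp h2
    · exact h1 Q (mem_erase.mpr ⟨hQP, hQ⟩)
  · intro h
    exact ⟨fun Q hQ => h Q (mem_of_mem_erase hQ), not_not.mpr (h P hP)⟩

theorem c4_pc (U : Finset (F × F)) (t : ℕ) (p : F × F → Prop) [DecidablePred p] :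
    #{T ∈ powersetCard t U | ∀ P ∈ T, p P} = (#{P ∈ U | p P}).choose t := by
  rw [← card_powersetCard]
  congr 1
  ext T
  simp only [mem_filter, mem_powersetCard]
  constructor
  · rintro ⟨⟨h1, h2⟩, h3⟩
    exact ⟨fun P hP => mem_filter.mpr ⟨h1 hP, h3 P hP⟩, h2⟩
  · rintro ⟨h1, h2⟩
    exact ⟨⟨fun P hP => (mem_filter.mp (h1 hP)).1, h2⟩, fun P hP => (mem_filter.mp (h1 hP)).2⟩

theorem c4_sum_iv (d t : ℕ) (U : Finset (F × F)) :
    ∑ T ∈ powersetCard t U, (iv d T : ℚ) =
      ∑ G ∈ c4_V F d, ((#{P ∈ U | evP G P = 0}).choose t : ℚ) := by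
  simp only [c4_iv, ← c4_pc]
  simp only [card_filter, Nat.cast_sum]
  exact sum_comm

theorem c4_pc2 (U : Finset (F × F)) (t : ℕ) (p : F × F → Prop) [DecidablePred p] :
    ∑ T ∈ powersetCard (t + 1) U, #{P ∈ T | (∀ Q ∈ T.erase P, p Q) ∧ ¬ p P} =
      (#{P ∈ U | p P}).choose t * #{P ∈ U | ¬ p P} := by
  rw [← card_powersetCard, ← card_product, ← card_sigma]
  refine card_bij' (fun x _ => (x.1.erase x.2, x.2)) (fun y _ => ⟨insert y.2 y.1, y.2⟩) ?_ ?_ ?_ ?_
  · rintro ⟨T, P⟩ h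
    simp only [mem_sigma, mem_powersetCard, mem_filter] at h
    obtain ⟨⟨h1, h2⟩, h3, h4, h5⟩ := h
    simp only [mem_product, mem_powersetCard, mem_filter]
    refine ⟨⟨fun Q hQ => mem_filter.mpr ⟨h1 (mem_of_mem_erase hQ), h4 Q hQ⟩, ?_⟩, h1 h3, h5⟩
    rw [card_erase_of_mem h3, h2]; rfl
  · rintro ⟨T, P⟩ h
    simp only [mem_product, mem_powersetCard, mem_filter] at h
    obtain ⟨⟨h1, h2⟩, h3, h4⟩ := h
    have hP : P ∉ T := fun hP => h4 (mem_filter.mp (h1 hP)).2
    simp only [mem_sigma, mem_powersetCard, mem_filter]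
    refine ⟨⟨?_, ?_⟩, mem_insert_self _ _, ?_, h4⟩
    · intro Q hQ
      rcases mem_insert.mp hQ with rfl | hQ
      · exact h3
      · exact (mem_filter.mp (h1 hQ)).1
    · rw [card_insert_of_notMem hP, h2]
    · rw [erase_insert hP]
      exact fun Q hQ => (mem_filter.mp (h1 hQ)).2
  · rintro ⟨T, P⟩ h
    simp only [mem_sigma, mem_powersetCard, mem_filter] at h
    obtain ⟨⟨h1, h2⟩, h3, h4, h5⟩ := h
    simp only [insert_erase h3]
  · rintro ⟨T, P⟩ h
    simp only [mem_product, mem_powersetCard, mem_filter] at h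
    obtain ⟨⟨h1, h2⟩, h3, h4⟩ := h
    have hP : P ∉ T := fun hP => h4 (mem_filter.mp (h1 hP)).2
    simp only [erase_insert hP]

theorem c4_sum_sep (d t : ℕ) (U : Finset (F × F)) :
    ∑ T ∈ powersetCard (t + 1) U, ∑ P ∈ T,
        (#{G ∈ c4_V F d | (∀ Q ∈ T.erase P, evP G Q = 0) ∧ evP G P ≠ 0} : ℚ) =
      ∑ G ∈ c4_V F d, ((#{P ∈ U | evP G P = 0}).choose t : ℚ) *
        ((#U : ℚ) - #{P ∈ U | evP G P = 0}) := by
  have h1 : ∀ G : MvPolynomial (Fin 2) F, ((#{P ∈ U | evP G P = 0}).choose t : ℚ) *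
        ((#U : ℚ) - #{P ∈ U | evP G P = 0}) =
      ∑ T ∈ powersetCard (t + 1) U,
        (#{P ∈ T | (∀ Q ∈ T.erase P, evP G Q = 0) ∧ ¬ evP G P = 0} : ℚ) := by
    intro G
    rw [← Nat.cast_sum, c4_pc2 U t (fun P => evP G P = 0),
      ← card_filter_add_card_filter_not (s := U) (fun P => evP G P = 0)]
    push_cast
    ring
  simp only [h1]
  rw [sum_comm]
  refine sum_congr rfl fun T _ => ?_
  simp only [card_filter, Nat.cast_sum]
  exact sum_comm

theorem c4_rich_deg (S : Finset (F × F)) (l : MvPolynomial (Fin 2) F) (hl : Rich S l) :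
    l.totalDegree = 1 := by
  obtain ⟨h0, h1, h6⟩ := hl
  by_contra hne
  have hz : l.totalDegree = 0 := by omega
  have hc := MvPolynomial.totalDegree_eq_zero_iff_eq_C.mp hz
  obtain ⟨P, hP⟩ : ({P ∈ S | evP l P = 0} : Finset (F × F)).Nonempty := card_pos.mp (by omega)
  have h2 := (mem_filter.mp hP).2
  rw [hc] at h2
  simp only [evP, MvPolynomial.eval_C] at h2
  rw [h2] at hc
  exact h0 (by simpa using hc)

open Classical in
theorem c4_sumB (h : Finset (F × F) → ℚ) :
    ((Fintype.card F : ℚ) - 1) * ∑ S ∈ powersetCard 10 univ with ∃ l, Rich S l, h S =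
      ∑ l ∈ c4_V F 1 with l.totalDegree = 1, ∑ S ∈ powersetCard 10 univ with Rich S l, h S := by
  simp only [sum_filter]
  have hq : 1 ≤ Fintype.card F := Fintype.card_pos
  have key : ∀ S ∈ powersetCard 10 (univ : Finset (F × F)),
      ((Fintype.card F : ℚ) - 1) * (if ∃ l, Rich S l then h S else 0) =
        ∑ l ∈ c4_V F 1, if l.totalDegree = 1 then (if Rich S l then h S else 0) else 0 := by
    intro S hS
    have hS10 := (mem_powersetCard.mp hS).2
    have e1 : (∑ l ∈ c4_V F 1, if l.totalDegree = 1 then (if Rich S l then h S else 0) else 0) =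
        (#{l ∈ c4_V F 1 | Rich S l} : ℚ) * h S := by
      rw [← nsmul_eq_mul, ← sum_const, sum_filter]
      refine sum_congr rfl fun l _ => ?_
      by_cases hl : Rich S l
      · simp only [hl, c4_rich_deg S l hl, if_true]
      · simp only [hl, if_false, ite_self]
    rw [e1]
    split_ifs with hex
    · obtain ⟨l, hl⟩ := hex
      have e2 : #{l ∈ c4_V F 1 | Rich S l} = Fintype.card F - 1 := by
        rw [← rich_card S hS10 l hl, ← Nat.card_eq_finsetCard]
        refine Nat.card_congr (Equiv.subtypeEquivRight fun G => ?_)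
        rw [mem_filter, c4_mem_V]
        exact ⟨fun h => h.2, fun h => ⟨h.2.1, h⟩⟩
      rw [e2, Nat.cast_sub hq, Nat.cast_one]
    · have e2 : #{l ∈ c4_V F 1 | Rich S l} = 0 := by
        rw [card_eq_zero, filter_eq_empty_iff]
        exact fun l _ hl => hex ⟨l, hl⟩
      rw [e2]; simp
  rw [mul_sum, sum_congr rfl key, sum_comm]
  refine sum_congr rfl fun l _ => ?_
  split_ifs
  · rfl
  · simp

theorem c4_fiber (l : MvPolynomial (Fin 2) F) (hl : l.totalDegree = 1) (T : Finset (F × F))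
    (hT : T ⊆ univ.filter fun P => evP l P ≠ 0) (h10 : #T ≤ 10) :
    #{S ∈ powersetCard 10 (univ : Finset (F × F)) | (S.filter fun P => evP l P ≠ 0) = T} =
      (Fintype.card F).choose (10 - #T) := by
  rw [← card_line l hl, ← card_powersetCard]
  have hT' : ∀ P ∈ T, evP l P ≠ 0 := fun P hP => (mem_filter.mp (hT hP)).2
  refine card_bij' (fun S _ => {P ∈ S | evP l P = 0}) (fun R _ => R ∪ T) ?_ ?_ ?_ ?_
  · intro S hS
    simp only [mem_filter, mem_powersetCard] at hS
    obtain ⟨⟨-, h2⟩, h3⟩ := hS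
    rw [mem_powersetCard]
    refine ⟨fun P hP => mem_filter.mpr ⟨mem_univ _, (mem_filter.mp hP).2⟩, ?_⟩
    have := card_filter_add_card_filter_not (s := S) (fun P => evP l P = 0)
    rw [← h3]
    simp only [ne_eq]
    omega
  · intro R hR
    obtain ⟨h1, h2⟩ := mem_powersetCard.mp hR
    have hR' : ∀ P ∈ R, evP l P = 0 := fun P hP => (mem_filter.mp (h1 hP)).2
    have hd : Disjoint R T := disjoint_left.mpr fun P hP hP' => hT' P hP' (hR' P hP)
    simp only [mem_filter, mem_powersetCard]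
    refine ⟨⟨subset_univ _, ?_⟩, ?_⟩
    · rw [card_union_of_disjoint hd]; omega
    · ext P
      simp only [mem_filter, mem_union]
      constructor
      · rintro ⟨h | h, h'⟩
        · exact absurd (hR' P h) h'
        · exact h
      · exact fun h => ⟨Or.inr h, hT' P h⟩
  · intro S hS
    simp only [mem_filter, mem_powersetCard] at hS
    obtain ⟨-, h3⟩ := hS
    rw [← h3]
    exact filter_union_filter_not_eq _ _
  · intro R hR
    obtain ⟨h1, h2⟩ := mem_powersetCard.mp hR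
    have hR' : ∀ P ∈ R, evP l P = 0 := fun P hP => (mem_filter.mp (h1 hP)).2
    ext P
    simp only [mem_filter, mem_union]
    constructor
    · rintro ⟨h | h, h'⟩
      · exact h
      · exact absurd h' (hT' P h)
    · exact fun h => ⟨Or.inl h, hR' P h⟩

open Classical in
theorem c4_sum_line (l : MvPolynomial (Fin 2) F) (hl : l.totalDegree = 1)
    (φ : Finset (F × F) → ℚ) :
    ∑ S ∈ powersetCard 10 univ with Rich S l, φ {P ∈ S | evP l P ≠ 0} =
      ∑ t ∈ range 5, ((Fintype.card F).choose (10 - t) : ℚ) *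
        ∑ T ∈ powersetCard t {P | evP l P ≠ 0}, φ T := by
  have hl0 : l ≠ 0 := by
    rintro rfl
    simp at hl
  have hrich : ∀ S ∈ powersetCard 10 (univ : Finset (F × F)),
      Rich S l ↔ #{P ∈ S | evP l P ≠ 0} < 5 := by
    intro S hS
    have h10 := (mem_powersetCard.mp hS).2
    have := card_filter_add_card_filter_not (s := S) (fun P => evP l P = 0)
    simp only [Rich, ne_eq, hl0, not_false_eq_true, hl, le_refl, true_and]
    omega
  rw [filter_congr hrich,
    ← sum_fiberwise_of_maps_to (t := range 5) (g := fun S => #{P ∈ S | evP l P ≠ 0})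
      (fun S hS => mem_range.mpr (mem_filter.mp hS).2)]
  refine sum_congr rfl fun t ht => ?_
  have ht5 := mem_range.mp ht
  rw [← sum_fiberwise_of_maps_to (t := powersetCard t {P | evP l P ≠ 0})
    (g := fun S : Finset (F × F) => S.filter fun P => evP l P ≠ 0), mul_sum]
  · refine sum_congr rfl fun T hT => ?_
    obtain ⟨h1, h2⟩ := mem_powersetCard.mp hT
    rw [← h2, ← c4_fiber l hl T h1 (by omega), ← nsmul_eq_mul, ← sum_const]
    refine sum_congr ?_ fun S hS => ?_
    · ext S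
      simp only [mem_filter]
      constructor
      · rintro ⟨⟨⟨a, -⟩, -⟩, b⟩
        exact ⟨a, b⟩
      · rintro ⟨a, b⟩
        refine ⟨⟨⟨a, ?_⟩, ?_⟩, b⟩
        · rw [b]; omega
        · rw [b]
    · rw [(mem_filter.mp hS).2]
  · intro S hS
    exact mem_powersetCard.mpr
      ⟨fun P hP => mem_filter.mpr ⟨mem_univ _, (mem_filter.mp hP).2⟩, (mem_filter.mp hS).2⟩

theorem c4_off (l : MvPolynomial (Fin 2) F) (hl : l.totalDegree = 1) :
    #{P : F × F | evP l P ≠ 0} = Fintype.card F ^ 2 - Fintype.card F := by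
  have h := card_filter_add_card_filter_not (s := (univ : Finset (F × F))) (fun P => evP l P = 0)
  rw [card_line l hl, card_univ, Fintype.card_prod] at h
  simp only [ne_eq]
  rw [pow_two]
  omega

theorem c4_cast_off : ((Fintype.card F ^ 2 - Fintype.card F : ℕ) : ℚ) =
    (Fintype.card F : ℚ) ^ 2 - Fintype.card F := by
  rw [Nat.cast_sub (Nat.le_self_pow two_ne_zero _)]
  push_cast
  rfl

open Classical in
/-- sums over the ten-sets with six collinear points -/
theorem c4_B (h : Finset (F × F) → ℚ) (ψ : ℕ → ℚ)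
    (φ : Finset (F × F) → ℚ)
    (h1 : ∀ S : Finset (F × F), #S = 10 → ∀ l, Rich S l → h S = φ {P ∈ S | evP l P ≠ 0})
    (h2 : ∀ l : MvPolynomial (Fin 2) F, l.totalDegree = 1 → ∀ t < 5,
      ∑ T ∈ powersetCard t {P | evP l P ≠ 0}, φ T = ψ t) :
    ∑ S ∈ powersetCard 10 univ with ∃ l, Rich S l, h S =
      ∑ t ∈ range 5, ((Fintype.card F : ℚ) ^ 2 + Fintype.card F) *
        ((Fintype.card F).choose (10 - t) : ℚ) * ψ t := by
  have hq : (1 : ℚ) < Fintype.card F := by exact_mod_cast Fintype.one_lt_card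
  have hq' : ((Fintype.card F : ℚ) - 1) ≠ 0 := by linarith
  refine mul_left_cancel₀ hq' ?_
  rw [c4_sumB]
  have e : ∀ l ∈ {l ∈ c4_V F 1 | l.totalDegree = 1},
      ∑ S ∈ powersetCard 10 univ with Rich S l, h S =
        ∑ t ∈ range 5, ((Fintype.card F).choose (10 - t) : ℚ) * ψ t := by
    intro l hl
    have hl1 := (mem_filter.mp hl).2
    rw [sum_congr rfl fun S hS => h1 S (mem_powersetCard.mp (mem_filter.mp hS).1).2 l
      (mem_filter.mp hS).2, c4_sum_line l hl1]
    exact sum_congr rfl fun t ht => by rw [h2 l hl1 t (mem_range.mp ht)]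
  rw [sum_congr rfl e, sum_const, card_lines, nsmul_eq_mul,
    Nat.cast_sub (Nat.le_self_pow three_ne_zero _), mul_sum, mul_sum]
  refine sum_congr rfl fun t _ => ?_
  push_cast
  ring

theorem c4_lin_iv (l : MvPolynomial (Fin 2) F) (hl : l.totalDegree = 1) (t : ℕ) :
    ∑ T ∈ powersetCard t {P | evP l P ≠ 0}, ((iv 1 T : ℚ) - 1) =
      linS (Fintype.card F) fun N => (N.choose t : ℚ) := by
  rw [sum_sub_distrib, c4_sum_iv, sum_const, card_powersetCard, c4_off l hl]
  simp only [filter_filter]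
  rw [sum_van1 l hl fun N => (N.choose t : ℚ)]
  simp

theorem c4_lin_sep (l : MvPolynomial (Fin 2) F) (hl : l.totalDegree = 1) (t : ℕ) :
    ∑ T ∈ powersetCard (t + 1) {P | evP l P ≠ 0}, ∑ P ∈ T, ((iv 1 (T.erase P) : ℚ) - iv 1 T) =
      linS (Fintype.card F) fun N =>
        (N.choose t : ℚ) * ((Fintype.card F : ℚ) ^ 2 - Fintype.card F - N) := by
  rw [sum_congr rfl fun T _ => sum_congr rfl fun P hP => c4_iv_erase 1 T P hP, c4_sum_sep,
    c4_off l hl, c4_cast_off]
  simp only [filter_filter]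
  rw [sum_van1 l hl fun N => (N.choose t : ℚ) * ((Fintype.card F : ℚ) ^ 2 - Fintype.card F - N),
    c4_cast_off]
  simp

open Classical in
theorem c4_B1 : ∑ _S ∈ powersetCard 10 (univ : Finset (F × F)) with ∃ l, Rich _S l, (1 : ℚ) =
    B1 (Fintype.card F) := by
  refine c4_B _ (fun t => ((Fintype.card F ^ 2 - Fintype.card F).choose t : ℚ)) (fun _ => 1)
    (fun _ _ _ _ => rfl) fun l hl t _ => ?_
  rw [sum_const, card_powersetCard, c4_off l hl]
  simp

open Classical in
theorem c4_B10 : ∑ S ∈ powersetCard 10 (univ : Finset (F × F)) with ∃ l, Rich S l,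
    ((iv 2 S : ℚ) - 1) = B10 (Fintype.card F) := by
  refine c4_B _ (fun t => linS (Fintype.card F) fun N => (N.choose t : ℚ))
    (fun T => (iv 1 T : ℚ) - 1) (fun S hS l hl => ?_) fun l hl t _ => c4_lin_iv l hl t
  rw [(caseB S hS l hl _ rfl).2.1]

open Classical in
theorem c4_B9 : ∑ S ∈ powersetCard 10 (univ : Finset (F × F)) with ∃ l, Rich S l,
    (c9 S : ℚ) = B9 (Fintype.card F) := by
  rw [c4_B _ (fun t => if t = 0 then 0 else linS (Fintype.card F) fun N =>
      (N.choose (t - 1) : ℚ) * ((Fintype.card F : ℚ) ^ 2 - Fintype.card F - N))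
    (fun T => ∑ P ∈ T, ((iv 1 (T.erase P) : ℚ) - iv 1 T))
    (fun S hS l hl => (caseB S hS l hl _ rfl).2.2.1)]
  · rw [sum_range_succ', B9]
    simp only [if_true, mul_zero, add_zero, Nat.add_eq_zero_iff, one_ne_zero, and_false, if_false,
      Nat.add_sub_cancel]
    refine sum_congr rfl fun t _ => ?_
    rw [show 10 - (t + 1) = 9 - t by omega]
  · intro l hl t _
    rcases t with _ | t
    · simp
    · rw [c4_lin_sep l hl t]
      simp

open Classical in
theorem c4_Bp : ∑ S ∈ powersetCard 10 (univ : Finset (F × F)) with ∃ l, Rich S l,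
    (iv 3 S : ℚ) = Bp (Fintype.card F) := by
  rw [c4_B _ (fun t => (Fintype.card F : ℚ) ^ (6 - t) *
      ((Fintype.card F ^ 2 - Fintype.card F).choose t : ℚ) +
      if t = 4 then (Fintype.card F : ℚ) ^ 2 * linS (Fintype.card F) fun N => (N.choose 4 : ℚ)
      else 0)
    (fun T => (Fintype.card F : ℚ) ^ (6 - #T) +
        if #T = 4 then (Fintype.card F : ℚ) ^ 2 * ((iv 1 T : ℚ) - 1) else 0)
    (fun S hS l hl => (caseB S hS l hl _ rfl).2.2.2)]
  · rw [Bp]
    simp only [sum_range_succ, range_zero, sum_empty]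
    norm_num
    ring
  · intro l hl t _
    rw [sum_congr rfl fun T hT => by rw [(mem_powersetCard.mp hT).2], sum_add_distrib, sum_const,
      card_powersetCard, c4_off l hl, nsmul_eq_mul, mul_comm]
    congr 1
    split_ifs with h4
    · rw [← mul_sum, c4_lin_iv l hl, h4]
    · simp

theorem plane_count :
    ((Fintype.card F : ℚ) - 1) ^ 2 *
        (((Fintype.card F ^ 2).choose 10 : ℚ) - (Rc F : ℚ) / (Nat.factorial 10 : ℚ)) =
      ((Fintype.card F : ℚ) - 1) ^ 2 * B1 (Fintype.card F) +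
        ((Fintype.card F : ℚ) - 1) * (∑ c : Fin 10 → F, ((N3 c).choose 10 : ℚ) -
          ((Fintype.card F ^ 2).choose 10 : ℚ) - Bp (Fintype.card F) + B1 (Fintype.card F)) -
        ((Fintype.card F : ℚ) ^ 3 - Fintype.card F) * (∑ c : Fin 6 → F, ((N2 c).choose 10 : ℚ) -
          ((Fintype.card F ^ 2).choose 10 : ℚ) - B10 (Fintype.card F)) -
        ((Fintype.card F : ℚ) ^ 2 - Fintype.card F) *
          (∑ c : Fin 6 → F, ((N2 c).choose 9 : ℚ) * ((Fintype.card F : ℚ) ^ 2 - N2 c) -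
            B9 (Fintype.card F)) := by
  classical
  have hM : ((Fintype.card F ^ 2).choose 10 : ℚ) =
      ∑ _S ∈ powersetCard 10 (univ : Finset (F × F)), (1 : ℚ) := by
    rw [sum_const, card_powersetCard, card_univ, Fintype.card_prod, pow_two]
    simp
  have h3 : ∑ c : Fin 10 → F, ((N3 c).choose 10 : ℚ) =
      ∑ S ∈ powersetCard 10 (univ : Finset (F × F)), (iv 3 S : ℚ) := by
    rw [c4_sum_iv, sum_van3 fun N => (N.choose 10 : ℚ)]
  have h2 : ∑ c : Fin 6 → F, ((N2 c).choose 10 : ℚ) =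
      ∑ S ∈ powersetCard 10 (univ : Finset (F × F)), (iv 2 S : ℚ) := by
    rw [c4_sum_iv, sum_van2 fun N => (N.choose 10 : ℚ)]
  have h9 : ∑ c : Fin 6 → F, ((N2 c).choose 9 : ℚ) * ((Fintype.card F : ℚ) ^ 2 - N2 c) =
      ∑ S ∈ powersetCard 10 (univ : Finset (F × F)), (c9 S : ℚ) := by
    simp only [c9, c4_sep, Nat.cast_sum]
    rw [c4_sum_sep 2 9, card_univ, Fintype.card_prod, Nat.cast_mul, ← pow_two,
      sum_van2 fun N => (N.choose 9 : ℚ) * ((Fintype.card F : ℚ) ^ 2 - N)]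
  have hbad : ((Fintype.card F ^ 2).choose 10 : ℚ) - (Rc F : ℚ) / (Nat.factorial 10 : ℚ) =
      ∑ S ∈ powersetCard 10 (univ : Finset (F × F)), (if iv 3 S = 1 then 0 else 1 : ℚ) := by
    have hf : (Nat.factorial 10 : ℚ) ≠ 0 := by exact_mod_cast Nat.factorial_ne_zero 10
    rw [hM, Rc_eq, Nat.cast_mul, mul_div_cancel_left₀ _ hf, card_filter, Nat.cast_sum,
      ← sum_sub_distrib]
    refine sum_congr rfl fun S _ => ?_
    split_ifs <;> simp
  have hB : ∑ S ∈ powersetCard 10 (univ : Finset (F × F)) with ∃ l, Rich S l,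
      (if iv 3 S = 1 then 0 else 1 : ℚ) = B1 (Fintype.card F) := by
    rw [← c4_B1]
    refine sum_congr rfl fun S hS => ?_
    obtain ⟨hS1, l, hl⟩ := mem_filter.mp hS
    rw [if_neg (caseB S (mem_powersetCard.mp hS1).2 l hl _ rfl).1]
  have hA := sum_congr (s₁ := {S ∈ powersetCard 10 (univ : Finset (F × F)) | ¬ ∃ l, Rich S l}) rfl
    fun S hS => caseA S (mem_powersetCard.mp (mem_filter.mp hS).1).2
      fun l hl => (mem_filter.mp hS).2 ⟨l, hl⟩
  rw [← mul_sum, sum_add_distrib, ← mul_sum, ← mul_sum, sum_sub_distrib, sum_sub_distrib,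
    ← mul_sum, sum_sub_distrib] at hA
  have hB10 := c4_B10 (F := F)
  rw [sum_sub_distrib] at hB10
  rw [hbad, h3, h2, h9, hM]
  simp only [← sum_filter_add_sum_filter_not (powersetCard 10 (univ : Finset (F × F)))
    (fun S => ∃ l, Rich S l)]
  rw [hB, c4_Bp, c4_B9, ← hB10, c4_B1]
  linear_combination -hA

end Pool.Agent.MP_aed30a_nt.H54
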