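import Pool.Agent.MP_aed30a_nt.H54.Normal

namespace Pool.Agent.MP_aed30a_nt.H54
open Finset

variable {F : Type} [Field F] [Fintype F] [DecidableEq F]

/-- indicator of zero -/
def d3_z (v : F) : ℕ := if v = 0 then 1 else 0

theorem d3_rc_zero (u v : F) :
    rc 0 u v = if u = 0 then Fintype.card F * d3_z v else 1 := by
  unfold rc d3_z
  by_cases hu : u = 0
  · by_cases hv : v = 0 <;> simp [hu, hv]
  · rw [if_neg hu, Finset.card_eq_one]
    refine ⟨-v / u, ?_⟩
    ext y
    simp only [zero_mul, zero_add, mem_filter, mem_univ, true_and, mem_singleton]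
    constructor
    · intro h; field_simp; linear_combination h
    · rintro rfl; field_simp; ring

theorem d3_sum_z (f : ℕ → ℚ) :
    ∑ v : F, f (d3_z v) = f 1 + ((Fintype.card F : ℚ) - 1) * f 0 := by
  rw [← Finset.add_sum_erase univ _ (mem_univ (0 : F))]
  have : ∑ v ∈ univ.erase (0 : F), f (d3_z v) = ∑ v ∈ univ.erase (0 : F), f 0 := by
    refine Finset.sum_congr rfl fun v hv => ?_
    simp [d3_z, (mem_erase.1 hv).1]
  rw [this, Finset.sum_const, Finset.card_erase_of_mem (mem_univ _), card_univ, nsmul_eq_mul,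
    Nat.cast_sub Fintype.card_pos]
  simp [d3_z]

theorem d3_split (g : F → ℚ) (a : ℚ) (h : ∀ v, v ≠ 0 → g v = a) :
    ∑ v : F, g v = g 0 + ((Fintype.card F : ℚ) - 1) * a := by
  rw [← Finset.add_sum_erase univ _ (mem_univ (0 : F))]
  have : ∑ v ∈ univ.erase (0 : F), g v = ∑ v ∈ univ.erase (0 : F), a :=
    Finset.sum_congr rfl fun v hv => h v (mem_erase.1 hv).1
  rw [this, Finset.sum_const, Finset.card_erase_of_mem (mem_univ _), card_univ, nsmul_eq_mul,
    Nat.cast_sub Fintype.card_pos]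
  simp

omit [DecidableEq F] in
theorem d3_affine (g : F → ℚ) (a b : F) (ha : a ≠ 0) :
    ∑ x : F, g (a * x + b) = ∑ v : F, g v := by
  refine Fintype.sum_bijective (fun x => a * x + b) ?_ _ _ fun _ => rfl
  refine Finite.injective_iff_bijective.1 fun x y h => ?_
  exact mul_left_cancel₀ ha (add_right_cancel h)

omit [DecidableEq F] in
theorem d3_shift (g : F → ℚ) (b : F) : ∑ x : F, g (b + x) = ∑ v : F, g v := by
  have := d3_affine g 1 b one_ne_zero
  simpa [add_comm] using this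

omit [DecidableEq F] in
theorem d3_two (h : F → F → ℚ) (A₁ A₂ x₁ x₂ : F) (hx : x₁ ≠ x₂) :
    ∑ s : F, ∑ t : F, h (A₁ + s * x₁ + t) (A₂ + s * x₂ + t) = ∑ u : F, ∑ v : F, h u v := by
  have h1 : ∀ s : F, ∑ t : F, h (A₁ + s * x₁ + t) (A₂ + s * x₂ + t) =
      ∑ u : F, h u ((x₂ - x₁) * s + (A₂ - A₁ + u)) := by
    intro s
    rw [← d3_shift (fun u => h u ((x₂ - x₁) * s + (A₂ - A₁ + u))) (A₁ + s * x₁)]
    refine Finset.sum_congr rfl fun t _ => ?_
    congr 1; ring
  simp only [h1]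
  rw [Finset.sum_comm]
  exact Finset.sum_congr rfl fun u _ =>
    d3_affine (fun v => h u v) _ _ (sub_ne_zero.2 hx.symm)

theorem d3_sum_sqc : ∑ v : F, sqc v = Fintype.card F := by
  unfold sqc
  rw [← card_univ, Finset.card_eq_sum_card_fiberwise (f := fun w : F => w ^ 2) (t := univ)
    (fun _ _ => mem_univ _)]

theorem d3_sum_phi (h2 : (2 : F) ≠ 0) (φ : ℕ → ℚ) :
    ∑ v : F, φ (sqc v) =
      ((Fintype.card F : ℚ) - 1) / 2 * φ 0 + φ 1 + ((Fintype.card F : ℚ) - 1) / 2 * φ 2 := by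
  have h : ∀ v : F, φ (sqc v) = φ 0 + (φ 2 - φ 0) / 2 * (sqc v : ℚ) +
      (φ 1 - φ 0 - (φ 2 - φ 0) / 2) * (d3_z v : ℚ) := by
    intro v
    rcases sqc_cases h2 v with ⟨h0, h1⟩ | ⟨h0, h1⟩ | ⟨h0, h1⟩
    · rw [h1]; simp [d3_z, h0]
    · rw [h1]; simp [d3_z, h0]
    · rw [h1]; simp [d3_z, h0]
  simp only [h]
  rw [Finset.sum_add_distrib, Finset.sum_add_distrib, ← Finset.mul_sum, ← Finset.mul_sum,
    d3_sum_z (fun n => (n : ℚ)), ← Nat.cast_sum, d3_sum_sqc]
  simp only [sum_const, card_univ, nsmul_eq_mul, Nat.cast_one, Nat.cast_zero]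
  ring

/-- the number of affine points, for the set `R` of roots of `m` -/
theorem d3_count (m c : F → F) (R : Finset F) (hR : ∀ x, x ∈ R ↔ m x = 0) :
    ∑ x : F, rc 0 (m x) (c x) + #R = Fintype.card F + Fintype.card F * ∑ x ∈ R, d3_z (c x) := by
  have h1 : ∀ x, rc 0 (m x) (c x) + (if x ∈ R then 1 else 0) =
      1 + Fintype.card F * (if x ∈ R then d3_z (c x) else 0) := by
    intro x
    rw [d3_rc_zero]
    by_cases hx : m x = 0
    · simp [hx, (hR x).2 hx, add_comm]
    · simp [hx, mt (hR x).1 hx]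
  have h2 := Finset.sum_congr (rfl : (univ : Finset F) = univ) fun x _ => h1 x
  rw [Finset.sum_add_distrib, Finset.sum_add_distrib, ← Finset.mul_sum, Finset.sum_ite_mem,
    Finset.sum_ite_mem] at h2
  simpa using h2

theorem d3_vertW (m : F × F × F) (c : F × F × F × F) (R : Finset F)
    (hR : ∀ x, x ∈ R ↔ m.1 * x ^ 2 + m.2.1 * x + m.2.2 = 0) (n K : ℕ) (hK : rc 0 m.1 c.1 = K)
    (hn : n + #R = 1 + K + Fintype.card F + Fintype.card F *
      ∑ x ∈ R, d3_z (c.1 * x ^ 3 + c.2.1 * x ^ 2 + c.2.2.1 * x + c.2.2.2)) :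
    vertW (0 : F × F) m c = Psi (Fintype.card F) n K := by
  subst hK
  unfold vertW
  have := d3_count (fun x => m.1 * x ^ 2 + m.2.1 * x + m.2.2)
    (fun x => c.1 * x ^ 3 + c.2.1 * x ^ 2 + c.2.2.1 * x + c.2.2.2) R hR
  simp only [Prod.fst_zero, Prod.snd_zero, zero_mul, add_zero]
  congr 1
  omega

/-- value of the inner sum when the leading coefficient of `m` is nonzero -/
def d3_phi (q j : ℕ) : ℚ :=
  if j = 0 then (q : ℚ) ^ 4 * Psi q (2 + q) 1
  else if j = 1 then (q : ℚ) ^ 3 * (Psi q (1 + 2 * q) 1 + ((q : ℚ) - 1) * Psi q (1 + q) 1)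
  else (q : ℚ) ^ 2 * (Psi q (3 * q) 1 + 2 * ((q : ℚ) - 1) * Psi q (2 * q) 1 +
        ((q : ℚ) - 1) ^ 2 * Psi q q 1)

theorem d3_caseA (h2 : (2 : F) ≠ 0) (m : F × F × F) (hm : m.1 ≠ 0) :
    ∑ c : F × F × F × F, vertW (0 : F × F) m c =
      d3_phi (Fintype.card F) (sqc (m.2.1 ^ 2 - 4 * m.1 * m.2.2)) := by
  have hrc := rc_eq_sqc h2 m.1 m.2.1 m.2.2 hm
  have hK : ∀ v : F, rc 0 m.1 v = 1 := fun v => by rw [d3_rc_zero, if_neg hm]
  set R : Finset F := {y : F | m.1 * y ^ 2 + m.2.1 * y + m.2.2 = 0} with hRdef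
  have hR : ∀ x, x ∈ R ↔ m.1 * x ^ 2 + m.2.1 * x + m.2.2 = 0 := fun x => by simp [hRdef]
  have hcard : #R = sqc (m.2.1 ^ 2 - 4 * m.1 * m.2.2) := hrc
  rcases sqc_cases h2 (m.2.1 ^ 2 - 4 * m.1 * m.2.2) with ⟨-, h1⟩ | ⟨-, h1⟩ | ⟨-, h1⟩
  · rw [h1] at hcard ⊢
    obtain ⟨x₁, hx⟩ := Finset.card_eq_one.1 hcard
    have hv : ∀ c : F × F × F × F, vertW (0 : F × F) m c = Psi (Fintype.card F)
        (1 + Fintype.card F + Fintype.card F *
          d3_z (c.1 * x₁ ^ 3 + c.2.1 * x₁ ^ 2 + c.2.2.1 * x₁ + c.2.2.2)) 1 := by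
      intro c
      refine d3_vertW m c R hR _ _ (hK _) ?_
      rw [hcard, hx, Finset.sum_singleton]; omega
    simp only [hv, Fintype.sum_prod_type]
    simp only [d3_shift (fun v : F => Psi (Fintype.card F)
      (1 + Fintype.card F + Fintype.card F * d3_z v) 1)]
    rw [d3_sum_z (fun n => Psi (Fintype.card F) (1 + Fintype.card F + Fintype.card F * n) 1)]
    simp only [sum_const, card_univ, nsmul_eq_mul, d3_phi, mul_one, mul_zero, add_zero]
    rw [show 1 + Fintype.card F + Fintype.card F = 1 + 2 * Fintype.card F by ring]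
    simp only [one_ne_zero, if_false, if_true]
    ring
  · rw [h1] at hcard ⊢
    have hx := Finset.card_eq_zero.1 hcard
    have hv : ∀ c : F × F × F × F, vertW (0 : F × F) m c = Psi (Fintype.card F)
        (2 + Fintype.card F) 1 := by
      intro c
      refine d3_vertW m c R hR _ _ (hK _) ?_
      rw [hcard, hx, Finset.sum_empty]; omega
    simp only [hv, sum_const, card_univ, nsmul_eq_mul, d3_phi, Fintype.card_prod, if_true]
    push_cast
    ring
  · rw [h1] at hcard ⊢
    obtain ⟨x₁, x₂, hne, hx⟩ := Finset.card_eq_two.1 hcard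
    have hv : ∀ c : F × F × F × F, vertW (0 : F × F) m c = Psi (Fintype.card F)
        (Fintype.card F + Fintype.card F *
          (d3_z (c.1 * x₁ ^ 3 + c.2.1 * x₁ ^ 2 + c.2.2.1 * x₁ + c.2.2.2) +
           d3_z (c.1 * x₂ ^ 3 + c.2.1 * x₂ ^ 2 + c.2.2.1 * x₂ + c.2.2.2))) 1 := by
      intro c
      refine d3_vertW m c R hR _ _ (hK _) ?_
      rw [hcard, hx, Finset.sum_pair hne]; omega
    simp only [hv, Fintype.sum_prod_type]
    simp only [d3_two (fun u v : F => Psi (Fintype.card F)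
      (Fintype.card F + Fintype.card F * (d3_z u + d3_z v)) 1) _ _ x₁ x₂ hne]
    have h3 : ∀ u : F, ∑ v : F, Psi (Fintype.card F)
        (Fintype.card F + Fintype.card F * (d3_z u + d3_z v)) 1 = _ := fun u =>
      d3_sum_z (fun n => Psi (Fintype.card F) (Fintype.card F + Fintype.card F * (d3_z u + n)) 1)
    simp only [h3]
    rw [d3_sum_z (fun k => Psi (Fintype.card F) (Fintype.card F + Fintype.card F * (k + 1)) 1 +
      ((Fintype.card F : ℚ) - 1) *
        Psi (Fintype.card F) (Fintype.card F + Fintype.card F * (k + 0)) 1)]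
    simp only [sum_const, card_univ, nsmul_eq_mul, d3_phi, mul_one, mul_zero, add_zero, zero_add]
    rw [show Fintype.card F + Fintype.card F * (1 + 1) = 3 * Fintype.card F by ring,
      show Fintype.card F + Fintype.card F = 2 * Fintype.card F by ring]
    simp only [OfNat.ofNat_ne_zero, OfNat.ofNat_ne_one, if_false]
    ring

theorem d3_caseB (m₁ m₂ : F) (hm : m₁ ≠ 0) :
    ∑ c : F × F × F × F, vertW (0 : F × F) ((0 : F), m₁, m₂) c =
      (Fintype.card F : ℚ) ^ 2 * (Psi (Fintype.card F) (3 * Fintype.card F) (Fintype.card F) +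
        ((Fintype.card F : ℚ) - 1) * Psi (Fintype.card F) (2 * Fintype.card F) (Fintype.card F) +
        ((Fintype.card F : ℚ) - 1) * Psi (Fintype.card F) (2 * Fintype.card F) 0 +
        ((Fintype.card F : ℚ) - 1) ^ 2 * Psi (Fintype.card F) (Fintype.card F) 0) := by
  have hK : ∀ v : F, rc 0 (0 : F) v = Fintype.card F * d3_z v := fun v => by
    rw [d3_rc_zero, if_pos rfl]
  set x₁ : F := -m₂ / m₁ with hx₁
  have hv : ∀ c : F × F × F × F, vertW (0 : F × F) ((0 : F), m₁, m₂) c = Psi (Fintype.card F)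
      (Fintype.card F + Fintype.card F * d3_z c.1 + Fintype.card F *
        d3_z (c.1 * x₁ ^ 3 + c.2.1 * x₁ ^ 2 + c.2.2.1 * x₁ + c.2.2.2))
      (Fintype.card F * d3_z c.1) := by
    intro c
    refine d3_vertW ((0 : F), m₁, m₂) c {x₁} ?_ _ _ (hK _)
      (by rw [Finset.sum_singleton, Finset.card_singleton]; omega)
    intro x
    simp only [mem_singleton, zero_mul, zero_add, hx₁]
    constructor
    · rintro rfl; field_simp; ring
    · intro h; field_simp; linear_combination h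
  simp only [hv, Fintype.sum_prod_type]
  have h1 : ∀ u A : F, ∑ t : F, Psi (Fintype.card F)
      (Fintype.card F + Fintype.card F * d3_z u + Fintype.card F * d3_z (A + t))
      (Fintype.card F * d3_z u) = _ := fun u A =>
    (d3_shift (fun v : F => Psi (Fintype.card F)
      (Fintype.card F + Fintype.card F * d3_z u + Fintype.card F * d3_z v)
      (Fintype.card F * d3_z u)) A).trans
    (d3_sum_z (fun n => Psi (Fintype.card F)
      (Fintype.card F + Fintype.card F * d3_z u + Fintype.card F * n) (Fintype.card F * d3_z u)))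
  simp only [h1, sum_const, card_univ, nsmul_eq_mul]
  rw [d3_sum_z (fun k => (Fintype.card F : ℚ) * ((Fintype.card F : ℚ) *
    (Psi (Fintype.card F) (Fintype.card F + Fintype.card F * k + Fintype.card F * 1)
      (Fintype.card F * k) + ((Fintype.card F : ℚ) - 1) *
      Psi (Fintype.card F) (Fintype.card F + Fintype.card F * k + Fintype.card F * 0)
      (Fintype.card F * k))))]
  simp only [mul_one, mul_zero, add_zero]
  rw [show Fintype.card F + Fintype.card F + Fintype.card F = 3 * Fintype.card F by ring,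
    show Fintype.card F + Fintype.card F = 2 * Fintype.card F by ring]
  ring

theorem d3_caseC (m₂ : F) (hm : m₂ ≠ 0) :
    ∑ c : F × F × F × F, vertW (0 : F × F) ((0 : F), (0 : F), m₂) c =
      (Fintype.card F : ℚ) ^ 3 * (Psi (Fintype.card F) (1 + 2 * Fintype.card F) (Fintype.card F) +
        ((Fintype.card F : ℚ) - 1) * Psi (Fintype.card F) (1 + Fintype.card F) 0) := by
  have hK : ∀ v : F, rc 0 (0 : F) v = Fintype.card F * d3_z v := fun v => by
    rw [d3_rc_zero, if_pos rfl]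
  have hv : ∀ c : F × F × F × F, vertW (0 : F × F) ((0 : F), (0 : F), m₂) c =
      Psi (Fintype.card F) (1 + Fintype.card F + Fintype.card F * d3_z c.1)
      (Fintype.card F * d3_z c.1) := by
    intro c
    refine d3_vertW ((0 : F), (0 : F), m₂) c ∅ (by simp [hm]) _ _ (hK _) ?_
    rw [Finset.sum_empty, Finset.card_empty]; omega
  simp only [hv]
  rw [Fintype.sum_prod_type]
  simp only [sum_const, card_univ, nsmul_eq_mul, Fintype.card_prod]
  rw [d3_sum_z (fun k => ((Fintype.card F * (Fintype.card F * Fintype.card F) : ℕ) : ℚ) *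
    Psi (Fintype.card F) (1 + Fintype.card F + Fintype.card F * k) (Fintype.card F * k))]
  simp only [mul_one, mul_zero, add_zero]
  rw [show 1 + Fintype.card F + Fintype.card F = 1 + 2 * Fintype.card F by ring]
  push_cast
  ring

theorem d3_prof (h2 : (2 : F) ≠ 0) (g : F → F) : ∑ x : F, d3_z (g x) = (prof g).1 := by
  unfold prof
  rw [Finset.card_filter]
  refine Finset.sum_congr rfl fun x _ => ?_
  rcases sqc_cases h2 (g x) with ⟨h0, h1⟩ | ⟨h0, h1⟩ | ⟨h0, h1⟩
  · rw [h1]; simp [d3_z, h0]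
  · rw [h1]; simp [d3_z, h0]
  · rw [h1]; simp [d3_z, h0]

theorem d3_caseD (h2 : (2 : F) ≠ 0) (h3 : (3 : F) ≠ 0) :
    ∑ c : F × F × F × F, vertW (0 : F × F) ((0 : F), (0 : F), (0 : F)) c =
      ((Fintype.card F : ℚ) - 1) * Fintype.card F *
          H3 F (fun s => Psi (Fintype.card F) (1 + Fintype.card F * s.1) 0) +
        H2 F (fun s => Psi (Fintype.card F) (1 + Fintype.card F + Fintype.card F * s.1)
          (Fintype.card F)) := by
  have hK : ∀ v : F, rc 0 (0 : F) v = Fintype.card F * d3_z v := fun v => by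
    rw [d3_rc_zero, if_pos rfl]
  have hv : ∀ c : F × F × F × F, vertW (0 : F × F) ((0 : F), (0 : F), (0 : F)) c =
      Psi (Fintype.card F) (1 + Fintype.card F * d3_z c.1 + Fintype.card F *
        (prof fun x : F => c.1 * x ^ 3 + c.2.1 * x ^ 2 + c.2.2.1 * x + c.2.2.2).1)
      (Fintype.card F * d3_z c.1) := by
    intro c
    refine d3_vertW ((0 : F), (0 : F), (0 : F)) c univ (by simp) _ _ (hK _) ?_
    rw [d3_prof h2, card_univ]; omega
  simp only [hv]
  rw [Fintype.sum_prod_type, d3_split _ (Fintype.card F *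
    H3 F (fun s => Psi (Fintype.card F) (1 + Fintype.card F * s.1) 0))]
  · rw [← sum_quadratic h2]
    simp only [d3_z, if_true, mul_one, zero_mul, zero_add]
    ring
  · intro a ha
    rw [← sum_cubic h3 _ a ha]
    simp only [d3_z, if_neg ha, mul_zero, add_zero]

theorem vert_singular (h2 : (2 : F) ≠ 0) (h3 : (3 : F) ≠ 0) :
    ∑ m : F × F × F, ∑ c : F × F × F × F, vertW (0 : F × F) m c =
      W0c (Fintype.card F) +
        ((Fintype.card F : ℚ) - 1) * Fintype.card F *
          H3 F (fun s => Psi (Fintype.card F) (1 + Fintype.card F * s.1) 0) +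
        H2 F (fun s => Psi (Fintype.card F) (1 + Fintype.card F + Fintype.card F * s.1)
          (Fintype.card F)) := by
  have h4 : (4 : F) ≠ 0 := by
    rw [show (4 : F) = 2 * 2 by norm_num]; exact mul_ne_zero h2 h2
  rw [Fintype.sum_prod_type, d3_split _ (Fintype.card F *
    (((Fintype.card F : ℚ) - 1) / 2 * d3_phi (Fintype.card F) 0 + d3_phi (Fintype.card F) 1 +
      ((Fintype.card F : ℚ) - 1) / 2 * d3_phi (Fintype.card F) 2))]
  · rw [Fintype.sum_prod_type, d3_split _ _ (fun m₁ hm₁ => by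
      rw [Finset.sum_congr rfl fun m₂ _ => d3_caseB m₁ m₂ hm₁]), d3_split _ _ d3_caseC,
      d3_caseD h2 h3]
    simp only [sum_const, card_univ, nsmul_eq_mul, W0c, d3_phi, if_true, one_ne_zero, if_false,
      OfNat.ofNat_ne_zero, OfNat.ofNat_ne_one]
    ring
  · intro m₀ hm₀
    rw [Fintype.sum_prod_type]
    have h5 : ∀ m₁ : F, ∑ m₂ : F, ∑ c : F × F × F × F, vertW (0 : F × F) (m₀, m₁, m₂) c =
        ∑ v : F, d3_phi (Fintype.card F) (sqc v) := by
      intro m₁
      rw [← d3_affine (fun v => d3_phi (Fintype.card F) (sqc v)) (-(4 * m₀)) (m₁ ^ 2)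
        (neg_ne_zero.2 (mul_ne_zero h4 hm₀))]
      refine Finset.sum_congr rfl fun m₂ _ => ?_
      rw [d3_caseA h2 (m₀, m₁, m₂) hm₀]
      congr 2
      ring
    simp only [h5, d3_sum_phi h2, sum_const, card_univ, nsmul_eq_mul]

end Pool.Agent.MP_aed30a_nt.H54
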