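import Pool.Agent.MP_aed30a_nt.H54.Normal

namespace Pool.Agent.MP_aed30a_nt.H54
open Finset

variable {F : Type} [Field F] [Fintype F] [DecidableEq F]

/-- number of roots over the point `(x, z)` -/
def d2_R (l : F × F) (m : F × F × F) (c : F × F × F × F) (v : F × F) : ℕ :=
  rc (l.1 * v.1 + l.2 * v.2) (m.1 * v.1 ^ 2 + m.2.1 * (v.1 * v.2) + m.2.2 * v.2 ^ 2)
    (c.1 * v.1 ^ 3 + c.2.1 * (v.1 ^ 2 * v.2) + c.2.2.1 * (v.1 * v.2 ^ 2) + c.2.2.2 * v.2 ^ 3)

/-- sum over the projective line -/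
def d2_T (l : F × F) (m : F × F × F) (c : F × F × F × F) : ℕ :=
  d2_R l m c (1, 0) + ∑ x : F, d2_R l m c (x, 1)

theorem d2_rc_scale (t a b c : F) (ht : t ≠ 0) :
    rc (t * a) (t ^ 2 * b) (t ^ 3 * c) = rc a b c := by
  unfold rc
  symm
  refine Finset.card_bij (fun y _ => t * y) ?_ ?_ ?_
  · intro y hy
    simp only [mem_filter, mem_univ, true_and] at hy ⊢
    linear_combination t ^ 3 * hy
  · intro y _ z _ h
    exact mul_left_cancel₀ ht h
  · intro y hy
    refine ⟨y / t, ?_, by field_simp⟩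
    simp only [mem_filter, mem_univ, true_and] at hy ⊢
    have h3 : t ^ 3 ≠ 0 := pow_ne_zero _ ht
    apply mul_left_cancel₀ h3
    have : y = t * (y / t) := by field_simp
    rw [mul_zero, ← hy]
    generalize y / t = w at this
    subst this
    ring

theorem d2_R_scale (l : F × F) (m : F × F × F) (c : F × F × F × F) (t x z : F) (ht : t ≠ 0) :
    d2_R l m c (t * x, t * z) = d2_R l m c (x, z) := by
  unfold d2_R
  rw [← d2_rc_scale t (l.1 * (x, z).1 + l.2 * (x, z).2) _ _ ht]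
  congr 1 <;> ring

theorem d2_sum_R (l : F × F) (m : F × F × F) (c : F × F × F × F) :
    ∑ v : F × F, d2_R l m c v = d2_R l m c (0, 0) + (Fintype.card F - 1) * d2_T l m c := by
  rw [Fintype.sum_prod_type_right, ← Finset.add_sum_erase _ _ (mem_univ (0 : F)),
    ← Finset.add_sum_erase _ _ (mem_univ (0 : F))]
  have h1 : ∑ x ∈ univ.erase (0 : F), d2_R l m c (x, 0) =
      (Fintype.card F - 1) * d2_R l m c (1, 0) := by
    rw [Finset.sum_congr rfl (g := fun _ => d2_R l m c (1, 0))]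
    · simp [card_erase_of_mem]
    · intro x hx
      have := d2_R_scale l m c x 1 0 (ne_of_mem_erase hx)
      simpa using this
  have h2 : ∑ z ∈ univ.erase (0 : F), ∑ x : F, d2_R l m c (x, z) =
      (Fintype.card F - 1) * ∑ x : F, d2_R l m c (x, 1) := by
    rw [Finset.sum_congr rfl (g := fun _ => ∑ x : F, d2_R l m c (x, 1))]
    · simp [card_erase_of_mem]
    · intro z hz
      have hz0 := ne_of_mem_erase hz
      symm
      refine Fintype.sum_equiv (Equiv.mulLeft₀ z hz0) _ _ ?_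
      intro x
      have := d2_R_scale l m c z x 1 hz0
      simpa using this.symm
  rw [h1, h2, d2_T]
  ring

/-- substitution in a binary linear form -/
def d2_al (a b e d : F) (l : F × F) : F × F := (l.1 * a + l.2 * e, l.1 * b + l.2 * d)

/-- substitution in a binary quadratic form -/
def d2_am (a b e d : F) (m : F × F × F) : F × F × F :=
  (m.1 * a ^ 2 + m.2.1 * (a * e) + m.2.2 * e ^ 2,
    m.1 * (2 * a * b) + m.2.1 * (a * d + b * e) + m.2.2 * (2 * e * d),
    m.1 * b ^ 2 + m.2.1 * (b * d) + m.2.2 * d ^ 2)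

/-- substitution in a binary cubic form -/
def d2_ac (a b e d : F) (c : F × F × F × F) : F × F × F × F :=
  (c.1 * a ^ 3 + c.2.1 * (a ^ 2 * e) + c.2.2.1 * (a * e ^ 2) + c.2.2.2 * e ^ 3,
    c.1 * (3 * a ^ 2 * b) + c.2.1 * (a ^ 2 * d + 2 * a * b * e) +
      c.2.2.1 * (2 * a * e * d + b * e ^ 2) + c.2.2.2 * (3 * e ^ 2 * d),
    c.1 * (3 * a * b ^ 2) + c.2.1 * (2 * a * b * d + b ^ 2 * e) +
      c.2.2.1 * (a * d ^ 2 + 2 * b * e * d) + c.2.2.2 * (3 * e * d ^ 2),
    c.1 * b ^ 3 + c.2.1 * (b ^ 2 * d) + c.2.2.1 * (b * d ^ 2) + c.2.2.2 * d ^ 3)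

theorem d2_R_act (a b e d : F) (l : F × F) (m : F × F × F) (c : F × F × F × F) (v : F × F) :
    d2_R (d2_al a b e d l) (d2_am a b e d m) (d2_ac a b e d c) v =
      d2_R l m c (a * v.1 + b * v.2, e * v.1 + d * v.2) := by
  unfold d2_R d2_al d2_am d2_ac
  congr 1 <;> ring

omit [Fintype F] [DecidableEq F] in
theorem d2_am_comp (a b e d a' b' e' d' : F) (m : F × F × F) :
    d2_am a' b' e' d' (d2_am a b e d m) =
      d2_am (a * a' + b * e') (a * b' + b * d') (e * a' + d * e') (e * b' + d * d') m := by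
  unfold d2_am
  refine Prod.ext ?_ (Prod.ext ?_ ?_) <;> simp only [] <;> ring

omit [Fintype F] [DecidableEq F] in
theorem d2_ac_comp (a b e d a' b' e' d' : F) (c : F × F × F × F) :
    d2_ac a' b' e' d' (d2_ac a b e d c) =
      d2_ac (a * a' + b * e') (a * b' + b * d') (e * a' + d * e') (e * b' + d * d') c := by
  unfold d2_ac
  refine Prod.ext ?_ (Prod.ext ?_ (Prod.ext ?_ ?_)) <;> simp only [] <;> ring

omit [DecidableEq F] in
theorem d2_am_bij (a b e d : F) (h : a * d - b * e ≠ 0) : Function.Bijective (d2_am a b e d) := by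
  apply Finite.injective_iff_bijective.mp
  apply Function.LeftInverse.injective
    (g := d2_am (d / (a * d - b * e)) (-b / (a * d - b * e)) (-e / (a * d - b * e))
      (a / (a * d - b * e)))
  intro m
  rw [d2_am_comp]
  have h1 : a * (d / (a * d - b * e)) + b * (-e / (a * d - b * e)) = 1 := by field_simp; ring
  have h2 : a * (-b / (a * d - b * e)) + b * (a / (a * d - b * e)) = 0 := by field_simp; ring
  have h3 : e * (d / (a * d - b * e)) + d * (-e / (a * d - b * e)) = 0 := by field_simp; ring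
  have h4 : e * (-b / (a * d - b * e)) + d * (a / (a * d - b * e)) = 1 := by
    rw [← h1]; ring
  rw [h1, h2, h3, h4]
  simp [d2_am]

omit [DecidableEq F] in
theorem d2_ac_bij (a b e d : F) (h : a * d - b * e ≠ 0) : Function.Bijective (d2_ac a b e d) := by
  apply Finite.injective_iff_bijective.mp
  apply Function.LeftInverse.injective
    (g := d2_ac (d / (a * d - b * e)) (-b / (a * d - b * e)) (-e / (a * d - b * e))
      (a / (a * d - b * e)))
  intro m
  rw [d2_ac_comp]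
  have h1 : a * (d / (a * d - b * e)) + b * (-e / (a * d - b * e)) = 1 := by field_simp; ring
  have h2 : a * (-b / (a * d - b * e)) + b * (a / (a * d - b * e)) = 0 := by field_simp; ring
  have h3 : e * (d / (a * d - b * e)) + d * (-e / (a * d - b * e)) = 0 := by field_simp; ring
  have h4 : e * (-b / (a * d - b * e)) + d * (a / (a * d - b * e)) = 1 := by
    rw [← h1]; ring
  rw [h1, h2, h3, h4]
  simp [d2_ac]

omit [DecidableEq F] in
theorem d2_lin_bij (a b e d : F) (h : a * d - b * e ≠ 0) :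
    Function.Bijective fun v : F × F => (a * v.1 + b * v.2, e * v.1 + d * v.2) := by
  apply Finite.injective_iff_bijective.mp
  intro v w hvw
  simp only [Prod.mk.injEq] at hvw
  obtain ⟨h1, h2⟩ := hvw
  refine Prod.ext ?_ ?_
  · apply mul_left_cancel₀ h
    linear_combination d * h1 - b * h2
  · apply mul_left_cancel₀ h
    linear_combination a * h2 - e * h1

theorem d2_T_act (a b e d : F) (h : a * d - b * e ≠ 0) (l : F × F) (m : F × F × F)
    (c : F × F × F × F) :
    d2_T (d2_al a b e d l) (d2_am a b e d m) (d2_ac a b e d c) = d2_T l m c := by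
  have h1 := d2_sum_R (d2_al a b e d l) (d2_am a b e d m) (d2_ac a b e d c)
  have h2 := d2_sum_R l m c
  have h3 : ∑ v : F × F, d2_R (d2_al a b e d l) (d2_am a b e d m) (d2_ac a b e d c) v =
      ∑ v : F × F, d2_R l m c v :=
    Fintype.sum_bijective _ (d2_lin_bij a b e d h) _ _ fun v => d2_R_act a b e d l m c v
  have h4 : d2_R (d2_al a b e d l) (d2_am a b e d m) (d2_ac a b e d c) (0, 0) =
      d2_R l m c (0, 0) := by
    rw [d2_R_act]; simp
  have hq : 0 < Fintype.card F - 1 := by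
    have := Fintype.one_lt_card (α := F)
    omega
  rw [h3, h2, h4] at h1
  exact (Nat.eq_of_mul_eq_mul_left hq (Nat.add_left_cancel h1)).symm

theorem d2_vertW_eq (l : F × F) (m : F × F × F) (c : F × F × F × F) :
    vertW l m c = Psi (Fintype.card F) (1 + d2_T l m c) (d2_R l m c (1, 0)) := by
  unfold vertW d2_T d2_R
  simp [add_assoc]

theorem d2_change (a b e d : F) (h : a * d - b * e ≠ 0) (l : F × F) (v : F × F) (t : F)
    (ht : t ≠ 0) (h1 : a * v.1 + b * v.2 = t) (h2 : e * v.1 + d * v.2 = 0) :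
    ∑ m : F × F × F, ∑ c : F × F × F × F, vertW l m c =
      ∑ m : F × F × F, ∑ c : F × F × F × F,
        Psi (Fintype.card F) (1 + d2_T (d2_al a b e d l) m c) (d2_R (d2_al a b e d l) m c v) := by
  refine Fintype.sum_bijective _ (d2_am_bij a b e d h) _ _ fun m => ?_
  refine Fintype.sum_bijective _ (d2_ac_bij a b e d h) _ _ fun c => ?_
  rw [d2_vertW_eq, d2_T_act a b e d h, d2_R_act, h1, h2]
  have := d2_R_scale l m c t 1 0 ht
  simp only [mul_one, mul_zero] at this
  rw [this]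

theorem d2_step1 :
    ∑ l ∈ univ.erase (0 : F × F), ∑ m : F × F × F, ∑ c : F × F × F × F, vertW l m c =
      ((Fintype.card F : ℚ) - 1) * ∑ m : F × F × F, ∑ c : F × F × F × F,
        (Psi (Fintype.card F) (1 + d2_T (0, 1) m c) (d2_R (0, 1) m c (1, 0)) +
          ∑ b : F, Psi (Fintype.card F) (1 + d2_T (0, 1) m c) (d2_R (0, 1) m c (b, 1))) := by
  set f : F × F → ℚ := fun l => ∑ m : F × F × F, ∑ c : F × F × F × F, vertW l m c with hf
  have hq : ((#(univ.erase (0 : F)) : ℕ) : ℚ) = (Fintype.card F : ℚ) - 1 := by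
    rw [card_erase_of_mem (mem_univ _), card_univ, Nat.cast_sub Fintype.card_pos]
    simp
  have e1 : ∑ l ∈ univ.erase (0 : F × F), f l =
      ∑ y ∈ univ.erase (0 : F), f (0, y) + ∑ x ∈ univ.erase (0 : F), ∑ y : F, f (x, y) := by
    have a1 := Finset.add_sum_erase univ f (mem_univ (0 : F × F))
    rw [Fintype.sum_prod_type, ← Finset.add_sum_erase _ _ (mem_univ (0 : F)),
      ← Finset.add_sum_erase _ _ (mem_univ (0 : F))] at a1
    have a2 : f 0 = f (0, 0) := rfl
    linear_combination a1 - a2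
  have e2 : ∀ y ∈ univ.erase (0 : F), f (0, y) = ∑ m : F × F × F, ∑ c : F × F × F × F,
      Psi (Fintype.card F) (1 + d2_T (0, 1) m c) (d2_R (0, 1) m c (1, 0)) := by
    intro y hy
    have hy0 := ne_of_mem_erase hy
    have := d2_change 1 0 0 y⁻¹ (by simpa using hy0) (0, y) (1, 0) 1 one_ne_zero (by simp)
      (by simp)
    have h3 : d2_al 1 0 0 y⁻¹ ((0 : F), y) = (0, 1) := by simp [d2_al, hy0]
    rw [h3] at this
    exact this
  have e3 : ∀ x ∈ univ.erase (0 : F), ∑ y : F, f (x, y) = ∑ y : F, ∑ m : F × F × F,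
      ∑ c : F × F × F × F,
        Psi (Fintype.card F) (1 + d2_T (0, 1) m c) (d2_R (0, 1) m c (y, 1)) := by
    intro x hx
    have hx0 := ne_of_mem_erase hx
    refine Finset.sum_congr rfl fun y _ => ?_
    have := d2_change (-y) (x⁻¹ + y * y) x (-(x * y)) (by field_simp; simp) (x, y) (y, 1) x⁻¹
      (inv_ne_zero hx0) (by simp only []; ring) (by simp only []; ring)
    have h3 : d2_al (-y) (x⁻¹ + y * y) x (-(x * y)) (x, y) = (0, 1) := by
      unfold d2_al
      refine Prod.ext ?_ ?_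
      · simp only []; ring
      · simp only []; field_simp; ring
    rw [h3] at this
    exact this
  rw [e1, Finset.sum_congr rfl e2, Finset.sum_congr rfl e3, sum_const, sum_const, nsmul_eq_mul,
    nsmul_eq_mul, hq, ← mul_add]
  congr 1
  rw [Finset.sum_comm (s := (univ : Finset F)), ← sum_add_distrib]
  refine Finset.sum_congr rfl fun m _ => ?_
  rw [Finset.sum_comm (s := (univ : Finset F)), ← sum_add_distrib]

theorem d2_sum_sqc (h2 : (2 : F) ≠ 0) (g : F → F) (φ : ℕ → ℚ) :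
    ∑ x : F, φ (sqc (g x)) =
      ((Fintype.card F : ℚ) - (prof g).1 - (prof g).2) * φ 0 + (prof g).1 * φ 1 +
        (prof g).2 * φ 2 := by
  have h : ∀ x : F, φ (sqc (g x)) = φ 0 + (if sqc (g x) = 1 then (1 : ℚ) else 0) * (φ 1 - φ 0) +
      (if sqc (g x) = 2 then (1 : ℚ) else 0) * (φ 2 - φ 0) := by
    intro x
    rcases sqc_cases h2 (g x) with ⟨-, h⟩ | ⟨-, h⟩ | ⟨-, h⟩ <;> simp [h]
  rw [Finset.sum_congr rfl fun x _ => h x, sum_add_distrib, sum_add_distrib, ← sum_mul, ← sum_mul,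
    sum_boole, sum_boole]
  simp only [prof, sum_const, card_univ, nsmul_eq_mul]
  ring

theorem d2_step2 (h2 : (2 : F) ≠ 0) (m : F × F × F) (c : F × F × F × F) :
    Psi (Fintype.card F) (1 + d2_T (0, 1) m c) (d2_R (0, 1) m c (1, 0)) +
        ∑ b : F, Psi (Fintype.card F) (1 + d2_T (0, 1) m c) (d2_R (0, 1) m c (b, 1)) =
      tauT (Fintype.card F) (rc 0 m.1 c.1) (prof fun x : F =>
        (m.1 * x ^ 2 + m.2.1 * x + m.2.2) ^ 2 -
          4 * (c.1 * x ^ 3 + c.2.1 * x ^ 2 + c.2.2.1 * x + c.2.2.2)) := by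
  set g : F → F := fun x : F => (m.1 * x ^ 2 + m.2.1 * x + m.2.2) ^ 2 -
    4 * (c.1 * x ^ 3 + c.2.1 * x ^ 2 + c.2.2.1 * x + c.2.2.2) with hg
  have a1 : d2_R (0, 1) m c (1, 0) = rc 0 m.1 c.1 := by simp [d2_R]
  have a2 : ∀ b : F, d2_R (0, 1) m c (b, 1) = sqc (g b) := by
    intro b
    unfold d2_R
    rw [rc_eq_sqc h2 _ _ _ (by simp)]
    congr 1
    simp only [hg]
    ring
  have a3 : ∑ x : F, sqc (g x) = (prof g).1 + 2 * (prof g).2 := by
    have := d2_sum_sqc h2 g (fun k => (k : ℚ))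
    have h' : ((∑ x : F, sqc (g x) : ℕ) : ℚ) = (((prof g).1 + 2 * (prof g).2 : ℕ) : ℚ) := by
      push_cast
      rw [this]
      push_cast
      ring
    exact_mod_cast h'
  have a4 : 1 + d2_T (0, 1) m c = 1 + rc 0 m.1 c.1 + (prof g).1 + 2 * (prof g).2 := by
    unfold d2_T
    rw [a1, Finset.sum_congr rfl fun b _ => a2 b, a3]
    ring
  rw [a4, a1, Finset.sum_congr rfl fun b _ => by rw [a2 b],
    d2_sum_sqc h2 g (fun k => Psi (Fintype.card F) (1 + rc 0 m.1 c.1 + (prof g).1 +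
      2 * (prof g).2) k)]
  unfold tauT
  ring

theorem d2_sqc_mul (u v : F) (hu : u ≠ 0) : sqc (u ^ 2 * v) = sqc v := by
  unfold sqc
  symm
  refine Finset.card_bij (fun y _ => u * y) ?_ ?_ ?_
  · intro y hy
    simp only [mem_filter, mem_univ, true_and] at hy ⊢
    rw [← hy]; ring
  · intro y _ z _ h
    exact mul_left_cancel₀ hu h
  · intro y hy
    refine ⟨y / u, ?_, by field_simp⟩
    simp only [mem_filter, mem_univ, true_and] at hy ⊢
    rw [div_pow, hy]
    field_simp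

theorem d2_rc_one (u v : F) (hu : u ≠ 0) : rc 0 u v = 1 := by
  unfold rc
  rw [Finset.card_eq_one]
  refine ⟨-v / u, ?_⟩
  ext y
  simp only [zero_mul, zero_add, mem_filter, mem_univ, true_and, mem_singleton]
  constructor
  · intro h
    field_simp
    linear_combination h
  · rintro rfl
    field_simp
    ring

theorem d2_rc_zero (v : F) (hv : v ≠ 0) : rc 0 0 v = 0 := by
  simp [rc, hv]

theorem d2_rc_all : rc (0 : F) 0 0 = Fintype.card F := by
  simp [rc]

theorem d2_quartic (h2 : (2 : F) ≠ 0) (τ : ℕ × ℕ → ℚ) (m : F × F × F) (hm : m.1 ≠ 0) :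
    ∑ c : F × F × F × F, τ (prof fun x : F => (m.1 * x ^ 2 + m.2.1 * x + m.2.2) ^ 2 -
        4 * (c.1 * x ^ 3 + c.2.1 * x ^ 2 + c.2.2.1 * x + c.2.2.2)) =
      Fintype.card F * H4 F τ := by
  have h4 : (4 : F) ≠ 0 := by
    have : (4 : F) = 2 * 2 := by norm_num
    rw [this]; exact mul_ne_zero h2 h2
  rw [← sum_quartic h2 τ]
  refine Fintype.sum_bijective (fun c : F × F × F × F =>
    ((2 * m.1 * m.2.1 - 4 * c.1) / m.1 ^ 2, (m.2.1 ^ 2 + 2 * m.1 * m.2.2 - 4 * c.2.1) / m.1 ^ 2,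
      (2 * m.2.1 * m.2.2 - 4 * c.2.2.1) / m.1 ^ 2, (m.2.2 ^ 2 - 4 * c.2.2.2) / m.1 ^ 2))
    ?_ _ _ ?_
  · apply Finite.injective_iff_bijective.mp
    intro c c' h
    simp only [Prod.mk.injEq, div_left_inj' (pow_ne_zero 2 hm), sub_right_inj,
      mul_right_inj' h4] at h
    exact Prod.ext h.1 (Prod.ext h.2.1 (Prod.ext h.2.2.1 h.2.2.2))
  · intro c
    congr 1
    unfold prof
    have key : ∀ x : F, sqc ((m.1 * x ^ 2 + m.2.1 * x + m.2.2) ^ 2 -
        4 * (c.1 * x ^ 3 + c.2.1 * x ^ 2 + c.2.2.1 * x + c.2.2.2)) =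
        sqc (x ^ 4 + (2 * m.1 * m.2.1 - 4 * c.1) / m.1 ^ 2 * x ^ 3 +
          (m.2.1 ^ 2 + 2 * m.1 * m.2.2 - 4 * c.2.1) / m.1 ^ 2 * x ^ 2 +
          (2 * m.2.1 * m.2.2 - 4 * c.2.2.1) / m.1 ^ 2 * x + (m.2.2 ^ 2 - 4 * c.2.2.2) / m.1 ^ 2) := by
      intro x
      rw [← d2_sqc_mul m.1 (x ^ 4 + _ + _ + _ + _) hm]
      congr 1
      field_simp
      ring
    simp only [key]

theorem d2_low (h2 : (2 : F) ≠ 0) (τ : ℕ × ℕ → ℚ) (m1 m2 c0 : F) :
    ∑ c : F × F × F, τ (prof fun x : F => (0 * x ^ 2 + m1 * x + m2) ^ 2 -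
        4 * (c0 * x ^ 3 + c.1 * x ^ 2 + c.2.1 * x + c.2.2)) =
      ∑ g : F × F × F, τ (prof fun x : F => -4 * c0 * x ^ 3 + g.1 * x ^ 2 + g.2.1 * x + g.2.2) := by
  have h4 : (4 : F) ≠ 0 := by
    have : (4 : F) = 2 * 2 := by norm_num
    rw [this]; exact mul_ne_zero h2 h2
  refine Fintype.sum_bijective (fun c : F × F × F =>
    (m1 ^ 2 - 4 * c.1, 2 * m1 * m2 - 4 * c.2.1, m2 ^ 2 - 4 * c.2.2)) ?_ _ _ ?_
  · apply Finite.injective_iff_bijective.mp
    intro c c' h
    simp only [Prod.mk.injEq, sub_right_inj, mul_right_inj' h4] at h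
    exact Prod.ext h.1 (Prod.ext h.2.1 h.2.2)
  · intro c
    congr 2
    funext x
    simp only []
    ring

theorem vert_smooth (h2 : (2 : F) ≠ 0) (h3 : (3 : F) ≠ 0) :
    ∑ l ∈ univ.erase (0 : F × F), ∑ m : F × F × F, ∑ c : F × F × F × F, vertW l m c =
      ((Fintype.card F : ℚ) - 1) * (Fintype.card F : ℚ) ^ 2 *
        (((Fintype.card F : ℚ) - 1) * Fintype.card F * H4 F (tauT (Fintype.card F) 1) +
          ((Fintype.card F : ℚ) - 1) * Fintype.card F * H3 F (tauT (Fintype.card F) 0) +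
          H2 F (tauT (Fintype.card F) (Fintype.card F))) := by
  have h4 : (4 : F) ≠ 0 := by
    have : (4 : F) = 2 * 2 := by norm_num
    rw [this]; exact mul_ne_zero h2 h2
  have hq : ((#(univ.erase (0 : F)) : ℕ) : ℚ) = (Fintype.card F : ℚ) - 1 := by
    rw [card_erase_of_mem (mem_univ _), card_univ, Nat.cast_sub Fintype.card_pos]
    simp
  rw [d2_step1, Finset.sum_congr rfl fun m _ => Finset.sum_congr rfl fun c _ => d2_step2 h2 m c,
    Fintype.sum_prod_type, ← Finset.add_sum_erase _ _ (mem_univ (0 : F))]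
  have e1 : ∀ m0 ∈ univ.erase (0 : F), ∑ m' : F × F, ∑ c : F × F × F × F,
      tauT (Fintype.card F) (rc 0 (m0, m').1 c.1) (prof fun x : F =>
        ((m0, m').1 * x ^ 2 + (m0, m').2.1 * x + (m0, m').2.2) ^ 2 -
          4 * (c.1 * x ^ 3 + c.2.1 * x ^ 2 + c.2.2.1 * x + c.2.2.2)) =
      (Fintype.card F : ℚ) ^ 2 * (Fintype.card F * H4 F (tauT (Fintype.card F) 1)) := by
    intro m0 hm0
    have hm := ne_of_mem_erase hm0
    rw [Finset.sum_congr rfl (g := fun _ => Fintype.card F * H4 F (tauT (Fintype.card F) 1))]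
    · simp [pow_two]
    · intro m' _
      rw [← d2_quartic h2 (tauT (Fintype.card F) 1) (m0, m') hm]
      refine Finset.sum_congr rfl fun c _ => ?_
      rw [d2_rc_one _ _ hm]
  have e2 : ∀ m' : F × F, ∑ c : F × F × F × F,
      tauT (Fintype.card F) (rc 0 ((0 : F), m').1 c.1) (prof fun x : F =>
        (((0 : F), m').1 * x ^ 2 + ((0 : F), m').2.1 * x + ((0 : F), m').2.2) ^ 2 -
          4 * (c.1 * x ^ 3 + c.2.1 * x ^ 2 + c.2.2.1 * x + c.2.2.2)) =
      H2 F (tauT (Fintype.card F) (Fintype.card F)) +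
        ((Fintype.card F : ℚ) - 1) * (Fintype.card F * H3 F (tauT (Fintype.card F) 0)) := by
    intro m'
    rw [Fintype.sum_prod_type, ← Finset.add_sum_erase _ _ (mem_univ (0 : F))]
    congr 1
    · simp only [d2_rc_all]
      rw [d2_low h2 _ m'.1 m'.2 0, ← sum_quadratic h2]
      refine Finset.sum_congr rfl fun g _ => ?_
      congr 2
      funext x
      ring
    · rw [Finset.sum_congr rfl (g := fun _ => Fintype.card F * H3 F (tauT (Fintype.card F) 0))]
      · rw [sum_const, nsmul_eq_mul, hq]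
      · intro c0 hc0
        have hc := ne_of_mem_erase hc0
        simp only [d2_rc_zero c0 hc]
        rw [d2_low h2 _ m'.1 m'.2 c0, sum_cubic h3 _ _ (mul_ne_zero (neg_ne_zero.mpr h4) hc)]
  rw [Finset.sum_congr rfl e1, Finset.sum_congr rfl fun m' _ => e2 m', sum_const, sum_const,
    nsmul_eq_mul, nsmul_eq_mul, hq, card_univ, Fintype.card_prod]
  push_cast
  ring

end Pool.Agent.MP_aed30a_nt.H54
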