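import Pool.Agent.MP_aed30a_nt.H54.Defs

namespace Pool.Agent.MP_aed30a_nt.H54
open Finset

variable {F : Type} [Field F] [Fintype F] [DecidableEq F]

/-- the homogenized cubic -/
def d1_evH (c : Fin 10 → F) (x y z : F) : F :=
  c 0 * z ^ 3 + c 1 * (x * z ^ 2) + c 2 * (y * z ^ 2) + c 3 * (x ^ 2 * z) + c 4 * (x * y * z) +
    c 5 * (y ^ 2 * z) + c 6 * x ^ 3 + c 7 * (x ^ 2 * y) + c 8 * (x * y ^ 2) + c 9 * y ^ 3

/-- points at infinity other than the vertical one -/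
def d1_K (c : Fin 10 → F) : ℕ := #{y : F | d1_evH c 1 y 0 = 0}

/-- points at infinity -/
def d1_I (c : Fin 10 → F) : ℕ := (if c 9 = 0 then 1 else 0) + d1_K c

/-- zeros of the homogenized cubic -/
def d1_nu (c : Fin 10 → F) : ℕ := #{v : F × F × F | d1_evH c v.1 v.2.1 v.2.2 = 0}

/-- substitution `(x + a y, z + b y, y)` -/
def d1_A1 (a b : F) (c : Fin 10 → F) : Fin 10 → F :=
  ![c 9,
    c 8,
    c 5 + a * c 8 + 3 * b * c 9,
    c 7,
    c 4 + 2 * a * c 7 + 2 * b * c 8,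
    c 2 + a * c 4 + 2 * b * c 5 + a ^ 2 * c 7 + 2 * a * b * c 8 + 3 * b ^ 2 * c 9,
    c 6,
    c 3 + 3 * a * c 6 + b * c 7,
    c 1 + 2 * a * c 3 + b * c 4 + 3 * a ^ 2 * c 6 + 2 * a * b * c 7 + b ^ 2 * c 8,
    c 0 + a * c 1 + b * c 2 + a ^ 2 * c 3 + a * b * c 4 + b ^ 2 * c 5 + a ^ 3 * c 6 +
      a ^ 2 * b * c 7 + a * b ^ 2 * c 8 + b ^ 3 * c 9]

/-- substitution `(x - a z, z, y - b z)` -/
def d1_B1 (a b : F) (c : Fin 10 → F) : Fin 10 → F :=
  ![-(b ^ 3 * c 0) - a * b ^ 2 * c 1 + b ^ 2 * c 2 - a ^ 2 * b * c 3 + a * b * c 4 - b * c 5 -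
      a ^ 3 * c 6 + a ^ 2 * c 7 - a * c 8 + c 9,
    b ^ 2 * c 1 + 2 * a * b * c 3 - b * c 4 + 3 * a ^ 2 * c 6 - 2 * a * c 7 + c 8,
    3 * b ^ 2 * c 0 + 2 * a * b * c 1 - 2 * b * c 2 + a ^ 2 * c 3 - a * c 4 + c 5,
    -(b * c 3) - 3 * a * c 6 + c 7,
    -(2 * b * c 1) - 2 * a * c 3 + c 4,
    -(3 * b * c 0) - a * c 1 + c 2,
    c 6,
    c 3,
    c 1,
    c 0]

/-- substitution `(y, x + b y, z)` -/
def d1_A2 (b : F) (c : Fin 10 → F) : Fin 10 → F :=
  ![c 0,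
    c 2,
    c 1 + b * c 2,
    c 5,
    c 4 + 2 * b * c 5,
    c 3 + b * c 4 + b ^ 2 * c 5,
    c 9,
    c 8 + 3 * b * c 9,
    c 7 + 2 * b * c 8 + 3 * b ^ 2 * c 9,
    c 6 + b * c 7 + b ^ 2 * c 8 + b ^ 3 * c 9]

/-- substitution `(y - b x, x, z)` -/
def d1_B2 (b : F) (c : Fin 10 → F) : Fin 10 → F :=
  ![c 0,
    -(b * c 1) + c 2,
    c 1,
    b ^ 2 * c 3 - b * c 4 + c 5,
    -(2 * b * c 3) + c 4,
    c 3,
    -(b ^ 3 * c 6) + b ^ 2 * c 7 - b * c 8 + c 9,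
    3 * b ^ 2 * c 6 - 2 * b * c 7 + c 8,
    -(3 * b * c 6) + c 7,
    c 6]

omit [Fintype F] [DecidableEq F] in
theorem d1_B1_A1 (a b : F) (c : Fin 10 → F) : d1_B1 a b (d1_A1 a b c) = c := by
  funext i
  fin_cases i <;> simp [d1_A1, d1_B1] <;> ring

omit [Fintype F] [DecidableEq F] in
theorem d1_B2_A2 (b : F) (c : Fin 10 → F) : d1_B2 b (d1_A2 b c) = c := by
  funext i
  fin_cases i <;> simp [d1_A2, d1_B2] <;> ring

omit [DecidableEq F] in
theorem d1_A1_bij (a b : F) : Function.Bijective (d1_A1 a b : (Fin 10 → F) → (Fin 10 → F)) :=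
  Finite.injective_iff_bijective.mp (Function.LeftInverse.injective (d1_B1_A1 a b))

omit [DecidableEq F] in
theorem d1_A2_bij (b : F) : Function.Bijective (d1_A2 b : (Fin 10 → F) → (Fin 10 → F)) :=
  Finite.injective_iff_bijective.mp (Function.LeftInverse.injective (d1_B2_A2 b))

omit [Fintype F] [DecidableEq F] in
theorem d1_evH_A1 (a b : F) (c : Fin 10 → F) (x y z : F) :
    d1_evH (d1_A1 a b c) x y z = d1_evH c (x + a * y) (z + b * y) y := by
  simp [d1_evH, d1_A1]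
  ring

omit [Fintype F] [DecidableEq F] in
theorem d1_evH_A2 (b : F) (c : Fin 10 → F) (x y z : F) :
    d1_evH (d1_A2 b c) x y z = d1_evH c y (x + b * y) z := by
  simp [d1_evH, d1_A2]
  ring

omit [Fintype F] [DecidableEq F] in
theorem d1_ev3 (c : Fin 10 → F) (P : F × F) : ev3 c P = d1_evH c P.1 P.2 1 := by
  simp [d1_evH, ev3]

omit [Fintype F] [DecidableEq F] in
theorem d1_A1_nine (a b : F) (c : Fin 10 → F) : d1_A1 a b c 9 = ev3 c (a, b) := by
  simp [d1_A1, ev3]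
  ring

omit [Fintype F] [DecidableEq F] in
theorem d1_A2_nine (b : F) (c : Fin 10 → F) : d1_A2 b c 9 = d1_evH c 1 b 0 := by
  simp [d1_A2, d1_evH]
  ring

theorem d1_nu_A1 (a b : F) (c : Fin 10 → F) : d1_nu (d1_A1 a b c) = d1_nu c := by
  unfold d1_nu
  refine card_nbij' (fun v => (v.1 + a * v.2.1, v.2.2 + b * v.2.1, v.2.1))
    (fun v => (v.1 - a * v.2.2, v.2.2, v.2.1 - b * v.2.2)) ?_ ?_ ?_ ?_
  · intro v hv
    simpa [d1_evH_A1] using hv
  · intro v hv
    simpa [d1_evH_A1] using hv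
  · intro v _
    simp
  · intro v _
    simp

theorem d1_nu_A2 (b : F) (c : Fin 10 → F) : d1_nu (d1_A2 b c) = d1_nu c := by
  unfold d1_nu
  refine card_nbij' (fun v => (v.2.1, v.1 + b * v.2.1, v.2.2))
    (fun v => (v.2.1 - b * v.1, v.1, v.2.2)) ?_ ?_ ?_ ?_
  · intro v hv
    simpa [d1_evH_A2] using hv
  · intro v hv
    simpa [d1_evH_A2] using hv
  · intro v _
    simp
  · intro v _
    simp

theorem d1_N3_A2 (b : F) (c : Fin 10 → F) : N3 (d1_A2 b c) = N3 c := by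
  unfold N3
  refine card_nbij' (fun v => (v.2, v.1 + b * v.2)) (fun v => (v.2 - b * v.1, v.1)) ?_ ?_ ?_ ?_
  · intro v hv
    simpa [d1_ev3, d1_evH_A2] using hv
  · intro v hv
    simpa [d1_ev3, d1_evH_A2] using hv
  · intro v _
    simp
  · intro v _
    simp

theorem d1_slice (c : Fin 10 → F) (z : F) (hz : z ≠ 0) :
    #{P : F × F | d1_evH c P.1 P.2 z = 0} = N3 c := by
  unfold N3
  symm
  have key : ∀ x y : F, d1_evH c (z * x) (z * y) z = z ^ 3 * ev3 c (x, y) := by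
    intro x y
    simp only [d1_evH, ev3]
    ring
  refine card_nbij' (fun v => (z * v.1, z * v.2)) (fun v => (z⁻¹ * v.1, z⁻¹ * v.2)) ?_ ?_ ?_ ?_
  · intro v hv
    have hv' : ev3 c (v.1, v.2) = 0 := by simpa using hv
    simp [key, hv']
  · intro v hv
    have hv' : d1_evH c v.1 v.2 z = 0 := by simpa using hv
    have h := key (z⁻¹ * v.1) (z⁻¹ * v.2)
    rw [mul_inv_cancel_left₀ hz, mul_inv_cancel_left₀ hz, hv'] at h
    have h3 : z ^ 3 ≠ 0 := pow_ne_zero _ hz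
    simpa [h3] using h.symm
  · intro v _
    simp [inv_mul_cancel_left₀ hz]
  · intro v _
    simp [mul_inv_cancel_left₀ hz]

theorem d1_slice0 (c : Fin 10 → F) (x : F) (hx : x ≠ 0) :
    #{y : F | d1_evH c x y 0 = 0} = d1_K c := by
  unfold d1_K
  symm
  have key : ∀ y : F, d1_evH c x (x * y) 0 = x ^ 3 * d1_evH c 1 y 0 := by
    intro y
    simp only [d1_evH]
    ring
  refine card_nbij' (fun v => x * v) (fun v => x⁻¹ * v) ?_ ?_ ?_ ?_
  · intro v hv
    have hv' : d1_evH c 1 v 0 = 0 := by simpa using hv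
    simp [key, hv']
  · intro v hv
    have hv' : d1_evH c x v 0 = 0 := by simpa using hv
    have h := key (x⁻¹ * v)
    rw [mul_inv_cancel_left₀ hx, hv'] at h
    have h3 : x ^ 3 ≠ 0 := pow_ne_zero _ hx
    simpa [h3] using h.symm
  · intro v _
    simp [inv_mul_cancel_left₀ hx]
  · intro v _
    simp [mul_inv_cancel_left₀ hx]

theorem d1_slice00 (c : Fin 10 → F) :
    #{y : F | d1_evH c 0 y 0 = 0} =
      1 + (Fintype.card F - 1) * (if c 9 = 0 then 1 else 0) := by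
  have hq : 1 ≤ Fintype.card F := Fintype.card_pos
  by_cases h : c 9 = 0
  · simp only [d1_evH, h, if_true]
    simp
    omega
  · have : ({y : F | d1_evH c 0 y 0 = 0} : Finset F) = {0} := by
      ext y
      simp [d1_evH, h]
    rw [this]
    simp [h]

theorem d1_sum_split (f : F → ℕ) (k : ℕ) (hf : ∀ z, z ≠ 0 → f z = k) :
    ∑ z, f z = f 0 + (Fintype.card F - 1) * k := by
  rw [← add_sum_erase univ f (mem_univ 0), sum_congr rfl (fun z hz => hf z (ne_of_mem_erase hz))]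
  simp [card_erase_of_mem]

theorem d1_nu_eq (c : Fin 10 → F) :
    d1_nu c = 1 + (Fintype.card F - 1) * (N3 c + d1_I c) := by
  have h1 : d1_nu c = ∑ z : F, #{P : F × F | d1_evH c P.1 P.2 z = 0} := by
    simp only [d1_nu, card_filter, Fintype.sum_prod_type]
    exact (sum_congr rfl fun x _ => sum_comm).trans sum_comm
  have h2 : #{P : F × F | d1_evH c P.1 P.2 0 = 0} = ∑ x : F, #{y : F | d1_evH c x y 0 = 0} := by
    simp only [card_filter, Fintype.sum_prod_type]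
  rw [h1, d1_sum_split _ _ (d1_slice c), h2, d1_sum_split _ _ (d1_slice0 c), d1_slice00, d1_I]
  ring

theorem d1_n_of_nu {c c' : Fin 10 → F} (h : d1_nu c = d1_nu c') :
    N3 c + d1_I c = N3 c' + d1_I c' := by
  rw [d1_nu_eq, d1_nu_eq] at h
  have hq : 1 < Fintype.card F := Fintype.one_lt_card
  exact Nat.eq_of_mul_eq_mul_left (by omega) (Nat.add_left_cancel h)

theorem d1_I1 (w : ℕ → ℚ) :
    ∑ c : Fin 10 → F, (N3 c : ℚ) * w (N3 c + d1_I c) =
      (Fintype.card F : ℚ) ^ 2 * ∑ c : Fin 10 → F, if c 9 = 0 then w (N3 c + d1_I c) else 0 := by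
  have h1 : ∀ c : Fin 10 → F, (N3 c : ℚ) * w (N3 c + d1_I c) =
      ∑ P : F × F, if ev3 c P = 0 then w (N3 c + d1_I c) else 0 := by
    intro c
    rw [← sum_filter, sum_const, nsmul_eq_mul]
    rfl
  rw [sum_congr rfl fun c _ => h1 c, sum_comm]
  have h2 : ∀ P : F × F, (∑ c : Fin 10 → F, if ev3 c P = 0 then w (N3 c + d1_I c) else 0) =
      ∑ c : Fin 10 → F, if c 9 = 0 then w (N3 c + d1_I c) else 0 := by
    intro P
    rw [← (d1_A1_bij P.1 P.2).sum_comp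
      (fun c : Fin 10 → F => if c 9 = 0 then w (N3 c + d1_I c) else 0)]
    refine sum_congr rfl fun c _ => ?_
    rw [d1_A1_nine, d1_n_of_nu (d1_nu_A1 P.1 P.2 c)]
  rw [sum_congr rfl fun P _ => h2 P, sum_const, nsmul_eq_mul]
  simp only [card_univ, Fintype.card_prod, Nat.cast_mul]
  ring

theorem d1_I2 (u : ℕ → ℕ → ℚ) :
    ∑ c : Fin 10 → F, (d1_I c : ℚ) * u (N3 c) (d1_I c) =
      ((Fintype.card F : ℚ) + 1) *
        ∑ c : Fin 10 → F, if c 9 = 0 then u (N3 c) (d1_I c) else 0 := by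
  have h1 : ∀ c : Fin 10 → F, (d1_I c : ℚ) * u (N3 c) (d1_I c) =
      (if c 9 = 0 then u (N3 c) (d1_I c) else 0) +
        ∑ b : F, if d1_evH c 1 b 0 = 0 then u (N3 c) (d1_I c) else 0 := by
    intro c
    rw [← sum_filter, sum_const, nsmul_eq_mul]
    generalize u (N3 c) (d1_I c) = t
    unfold d1_I d1_K
    split_ifs <;> push_cast <;> ring
  rw [sum_congr rfl fun c _ => h1 c, sum_add_distrib, sum_comm]
  have h2 : ∀ b : F,
      (∑ c : Fin 10 → F, if d1_evH c 1 b 0 = 0 then u (N3 c) (d1_I c) else 0) =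
      ∑ c : Fin 10 → F, if c 9 = 0 then u (N3 c) (d1_I c) else 0 := by
    intro b
    rw [← (d1_A2_bij b).sum_comp
      (fun c : Fin 10 → F => if c 9 = 0 then u (N3 c) (d1_I c) else 0)]
    refine sum_congr rfl fun c _ => ?_
    have h3 := d1_n_of_nu (d1_nu_A2 b c)
    rw [d1_N3_A2] at h3
    rw [d1_A2_nine, d1_N3_A2, Nat.add_left_cancel h3]
  rw [sum_congr rfl fun b _ => h2 b, sum_const, nsmul_eq_mul]
  simp only [card_univ]
  ring

/-- the first weight -/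
def d1_w (n : ℕ) : ℚ := ((n - 1).choose 9 : ℚ) / 10

/-- the second weight -/
def d1_u (N I : ℕ) : ℚ := ((N.choose 10 : ℚ) - N * d1_w (N + I)) / I

theorem d1_choose (N I : ℕ) : (N.choose 10 : ℚ) = N * d1_w (N + I) + I * d1_u N I := by
  rcases Nat.eq_zero_or_pos I with rfl | hI
  · rcases N with _ | N
    · simp
    · have h := Nat.add_one_mul_choose_eq N 9
      have h' : ((N : ℚ) + 1) * (N.choose 9 : ℚ) = ((N + 1).choose 10 : ℚ) * 10 := by
        exact_mod_cast h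
      simp only [d1_w, Nat.add_sub_cancel, Nat.cast_zero, zero_mul, add_zero]
      push_cast
      linarith
  · have : (I : ℚ) ≠ 0 := by exact_mod_cast hI.ne'
    unfold d1_u
    field_simp
    ring

theorem d1_Psi (q N K : ℕ) :
    Psi q (1 + K + N) K = (q : ℚ) ^ 2 * d1_w (N + (1 + K)) + ((q : ℚ) + 1) * d1_u N (1 + K) := by
  have h1 : 1 + K + N - 1 - K = N := by omega
  have h2 : N + (1 + K) = 1 + K + N := by omega
  unfold Psi d1_u
  rw [h1, h2]
  unfold d1_w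
  push_cast
  ring

/-- the coefficient vector of `y ^ 2 l(x) + y m(x) + c(x)` -/
def d1_vec (l : F × F) (m : F × F × F) (c : F × F × F × F) : Fin 10 → F :=
  ![c.2.2.2, c.2.2.1, m.2.2, c.2.1, m.2.1, l.2, c.1, m.1, l.1, 0]

theorem d1_vertW (l : F × F) (m : F × F × F) (c : F × F × F × F) :
    vertW l m c = (Fintype.card F : ℚ) ^ 2 * d1_w (N3 (d1_vec l m c) + d1_I (d1_vec l m c)) +
      ((Fintype.card F : ℚ) + 1) * d1_u (N3 (d1_vec l m c)) (d1_I (d1_vec l m c)) := by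
  have hK : d1_K (d1_vec l m c) = rc l.1 m.1 c.1 := by
    unfold d1_K rc
    congr 1
    ext y
    simp only [mem_filter, mem_univ, true_and]
    have : d1_evH (d1_vec l m c) 1 y 0 = l.1 * y ^ 2 + m.1 * y + c.1 := by
      simp [d1_evH, d1_vec]
      ring
    rw [this]
  have hI : d1_I (d1_vec l m c) = 1 + rc l.1 m.1 c.1 := by
    unfold d1_I
    rw [hK, if_pos (by simp [d1_vec])]
  have hN : N3 (d1_vec l m c) = ∑ x : F, rc (l.1 * x + l.2)
      (m.1 * x ^ 2 + m.2.1 * x + m.2.2) (c.1 * x ^ 3 + c.2.1 * x ^ 2 + c.2.2.1 * x + c.2.2.2) := by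
    simp only [N3, rc, card_filter, Fintype.sum_prod_type]
    refine sum_congr rfl fun x _ => sum_congr rfl fun y _ => ?_
    have : ev3 (d1_vec l m c) (x, y) = (l.1 * x + l.2) * y ^ 2 +
        (m.1 * x ^ 2 + m.2.1 * x + m.2.2) * y +
        (c.1 * x ^ 3 + c.2.1 * x ^ 2 + c.2.2.1 * x + c.2.2.2) := by
      simp [ev3, d1_vec]
      ring
    rw [this]
  rw [hI, vertW, ← hN, d1_Psi]

theorem d1_sum_vec (G : (Fin 10 → F) → ℚ) :
    (∑ c : Fin 10 → F, if c 9 = 0 then G c else 0) =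
      ∑ l : F × F, ∑ m : F × F × F, ∑ c : F × F × F × F, G (d1_vec l m c) := by
  rw [← sum_filter, ← Fintype.sum_prod_type', ← Fintype.sum_prod_type']
  symm
  refine sum_nbij' (fun t : ((F × F) × (F × F × F)) × (F × F × F × F) => d1_vec t.1.1 t.1.2 t.2)
    (fun c => (((c 8, c 5), (c 7, c 4, c 2)), (c 6, c 3, c 1, c 0))) ?_ ?_ ?_ ?_ ?_
  · intro t _
    simp [d1_vec]
  · intro c _
    simp
  · intro t _
    simp [d1_vec]
  · intro c hc
    have h9 : c 9 = 0 := by simpa using hc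
    funext i
    fin_cases i <;> simp [d1_vec, h9]
  · intro t _
    rfl

theorem cubic_sum_vert :
    ∑ c : Fin 10 → F, ((N3 c).choose 10 : ℚ) =
      ∑ l : F × F, ∑ m : F × F × F, ∑ c : F × F × F × F, vertW l m c := by
  rw [sum_congr rfl fun c _ => d1_choose (N3 c) (d1_I c), sum_add_distrib, d1_I1, d1_I2,
    d1_sum_vec, d1_sum_vec]
  simp only [d1_vertW, sum_add_distrib, mul_sum]

end Pool.Agent.MP_aed30a_nt.H54
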