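import Pool.Agent.MP_aed30a_nt.H54.Hist
import Pool.Agent.MP_aed30a_nt.H54.PlaneCount
import Pool.Agent.MP_aed30a_nt.H54.Vert
import Pool.Agent.MP_aed30a_nt.H54.Smooth
import Pool.Agent.MP_aed30a_nt.H54.Singular

/-! A computable formula for the number of ten-tuples on no cubic. -/

namespace Pool.Agent.MP_aed30a_nt.H54
open Finset

/-- fast binomial coefficient -/
def ch (n k : ℕ) : ℕ := n.descFactorial k / k.factorial

theorem choose_eq_ch : Nat.choose = ch := by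
  funext n k; exact Nat.choose_eq_descFactorial_div_factorial n k

/-- computable copy of `Psi` -/
def PsiC (q n K : ℕ) : ℚ :=
  (q : ℚ) ^ 2 * ((ch (n - 1) 9 : ℚ) / 10) +
    ((q : ℚ) + 1) * ((ch (n - 1 - K) 10 : ℚ) -
      ((n - 1 - K : ℕ) : ℚ) * ((ch (n - 1) 9 : ℚ) / 10)) / (1 + K)

theorem Psi_eq : Psi = PsiC := by
  funext q n K; simp only [Psi, PsiC, choose_eq_ch]

/-- computable copy of `tauT` -/
def tauC (q Ki : ℕ) (s : ℕ × ℕ) : ℚ :=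
  PsiC q (1 + Ki + s.1 + 2 * s.2) Ki + ((q : ℚ) - s.1 - s.2) * PsiC q (1 + Ki + s.1 + 2 * s.2) 0 +
    s.1 * PsiC q (1 + Ki + s.1 + 2 * s.2) 1 + s.2 * PsiC q (1 + Ki + s.1 + 2 * s.2) 2

theorem tau_eq : tauT = tauC := by
  funext q n K; simp only [tauT, tauC, Psi_eq]

/-- computable copy of `W0c` -/
def W0C (q : ℕ) : ℚ :=
  ((q : ℚ) - 1) * q * (((q : ℚ) - 1) / 2 * q ^ 4 * PsiC q (2 + q) 1 +
      (q : ℚ) ^ 3 * (PsiC q (1 + 2 * q) 1 + ((q : ℚ) - 1) * PsiC q (1 + q) 1) +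
      ((q : ℚ) - 1) / 2 * q ^ 2 * (PsiC q (3 * q) 1 + 2 * ((q : ℚ) - 1) * PsiC q (2 * q) 1 +
        ((q : ℚ) - 1) ^ 2 * PsiC q q 1)) +
    ((q : ℚ) - 1) * q ^ 3 * (PsiC q (3 * q) q + ((q : ℚ) - 1) * PsiC q (2 * q) q +
      ((q : ℚ) - 1) * PsiC q (2 * q) 0 + ((q : ℚ) - 1) ^ 2 * PsiC q q 0) +
    ((q : ℚ) - 1) * q ^ 3 * (PsiC q (1 + 2 * q) q + ((q : ℚ) - 1) * PsiC q (1 + q) 0)

theorem W0_eq : W0c = W0C := by
  funext q; simp only [W0c, W0C, Psi_eq]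

/-- computable copy of `B1` -/
def B1C (q : ℕ) : ℚ :=
  ∑ t ∈ range 5, ((q : ℚ) ^ 2 + q) * (ch q (10 - t) : ℚ) * (ch (q ^ 2 - q) t : ℚ)

/-- computable copy of `B10` -/
def B10C (q : ℕ) : ℚ :=
  ∑ t ∈ range 5, ((q : ℚ) ^ 2 + q) * (ch q (10 - t) : ℚ) * linS q fun N => (ch N t : ℚ)

/-- computable copy of `B9` -/
def B9C (q : ℕ) : ℚ :=
  ∑ t ∈ range 4, ((q : ℚ) ^ 2 + q) * (ch q (9 - t) : ℚ) *
    linS q fun N => (ch N t : ℚ) * ((q : ℚ) ^ 2 - q - N)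

/-- computable copy of `Bp` -/
def BpC (q : ℕ) : ℚ :=
  ∑ t ∈ range 5, ((q : ℚ) ^ 2 + q) * (ch q (10 - t) : ℚ) * (q : ℚ) ^ (6 - t) *
      (ch (q ^ 2 - q) t : ℚ) +
    ((q : ℚ) ^ 2 + q) * (ch q 6 : ℚ) * (q : ℚ) ^ 2 * linS q fun N => (ch N 4 : ℚ)

/-- evaluation of a histogram of profiles -/
def evP' (q h : ℕ) (τ : ℕ × ℕ → ℚ) : ℚ := evH ((q + 1) ^ 2) h fun i => τ (dec q i)

/-- sum over conics -/
def conC (q h2 : ℕ) (G : ℕ → ℚ) : ℚ :=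
  ((q : ℚ) - 1) * (q : ℚ) ^ 2 * evP' q h2 (fun s => G (s.1 + 2 * s.2)) +
    ((q : ℚ) - 1) * q * ((q : ℚ) ^ 2 * G (2 * q - 1) + ((q : ℚ) ^ 3 - (q : ℚ) ^ 2) * G (q - 1)) +
    ((q : ℚ) - 1) * (q : ℚ) ^ 3 * G q + evP' q h2 (fun s => G (q * s.1))

/-- sum over cubics -/
def cubC (q h4 h3 h2 : ℕ) : ℚ :=
  W0C q + ((q : ℚ) - 1) * q * evP' q h3 (fun s => PsiC q (1 + q * s.1) 0) +
      evP' q h2 (fun s => PsiC q (1 + q + q * s.1) q) +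
    ((q : ℚ) - 1) * (q : ℚ) ^ 2 * (((q : ℚ) - 1) * q * evP' q h4 (tauC q 1) +
      ((q : ℚ) - 1) * q * evP' q h3 (tauC q 0) + evP' q h2 (tauC q q))

/-- the formula in terms of three histograms -/
def RF (q h4 h3 h2 : ℕ) : ℚ :=
  3628800 * ((ch (q ^ 2) 10 : ℚ) - (((q : ℚ) - 1) ^ 2 * B1C q +
    ((q : ℚ) - 1) * (cubC q h4 h3 h2 - (ch (q ^ 2) 10 : ℚ) - BpC q + B1C q) -
    ((q : ℚ) ^ 3 - q) * (conC q h2 (fun N => (ch N 10 : ℚ)) - (ch (q ^ 2) 10 : ℚ) - B10C q) -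
    ((q : ℚ) ^ 2 - q) * (conC q h2 (fun N => (ch N 9 : ℚ) * ((q : ℚ) ^ 2 - N)) - B9C q)) /
      ((q : ℚ) - 1) ^ 2)

/-- the formula in terms of the table -/
def RT (q T : ℕ) : ℚ := RF q (h4N q T) (h3N q T) (h2N q T)

theorem Rc_formula (p : ℕ) [Fact p.Prime] (h5 : 5 ≤ p) (hp : p < 255) :
    (Rc (ZMod p) : ℚ) = RT p (tbl p) := by
  have h2 : (2 : ZMod p) ≠ 0 := by
    intro h
    have := Nat.le_of_dvd (by norm_num) ((ZMod.natCast_eq_zero_iff 2 p).mp h)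
    omega
  have h3 : (3 : ZMod p) ≠ 0 := by
    intro h
    have := Nat.le_of_dvd (by norm_num) ((ZMod.natCast_eq_zero_iff 3 p).mp h)
    omega
  have h := plane_count (F := ZMod p)
  rw [cubic_sum_vert, ← add_sum_erase univ _ (mem_univ (0 : ZMod p × ZMod p)), vert_smooth h2 h3,
    vert_singular h2 h3, conic_sum h2 (fun N => (N.choose 10 : ℚ)),
    conic_sum h2 (fun N => (N.choose 9 : ℚ) * ((Fintype.card (ZMod p) : ℚ) ^ 2 - N))] at h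
  simp only [ZMod.card, H4_eq hp, H3_eq hp, H2_eq hp, tau_eq, W0_eq, Psi_eq, B1, B10, B9, Bp,
    choose_eq_ch] at h
  have hq : ((p : ℚ) - 1) ^ 2 ≠ 0 := by
    have : (5 : ℚ) ≤ p := by exact_mod_cast h5
    exact pow_ne_zero _ (by linarith)
  unfold RT RF cubC conC evP' B1C B10C B9C BpC
  rw [← h, mul_div_cancel_left₀ _ hq]
  norm_num [Nat.factorial]
  ring

theorem Rc_small (p : ℕ) [Fact p.Prime] (hp : p ≤ 3) : Rc (ZMod p) = 0 := by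
  rw [Rc_eq, powersetCard_eq_empty.mpr]
  · simp
  · simp only [card_univ, Fintype.card_prod, ZMod.card]
    nlinarith

end Pool.Agent.MP_aed30a_nt.H54
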