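import Pool.Agent.MP_aed30a_nt.H54.Eval

/-! Values of the formula at seventeen primes. -/

namespace Pool.Agent.MP_aed30a_nt.H54

theorem val5 : RT 5 (tbl 5) = 8484860160000 := by decide +kernel

theorem val7 : RT 7 (tbl 7) = 22626819442483200 := by decide +kernel

theorem val11 : RT 11 (tbl 11) = 391420284417195264000 := by decide +kernel

theorem val13 : RT 13 (tbl 13) = 12762534205446459033600 := by decide +kernel

theorem val17 : RT 17 (tbl 17) = 3182266883434121389670400 := by decide +kernel

theorem val19 : RT 19 (tbl 19) = 30759887125267472451686400 := by decide +kernel

theorem val23 : RT 23 (tbl 23) = 1487044492092219899459174400 := by decide +kernel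

theorem val29 : RT 29 (tbl 29) = 160734641636357002314838886400 := by decide +kernel

theorem val31 : RT 31 (tbl 31) = 616319047068597289343453184000 := by decide +kernel

theorem val37 : RT 37 (tbl 37) = 21679116504959314515045835008000 := by decide +kernel

theorem val41 : RT 41 (tbl 41) = 170581056799809187026416259072000 := by decide +kernel

theorem val43 : RT 43 (tbl 43) = 443961579895618225383454517913600 := by decide +kernel

theorem val47 : RT 47 (tbl 47) = 2647215202032092519672445696614400 := by decide +kernel

theorem val53 : RT 53 (tbl 53) = 29482883860305327745240965798144000 := by decide +kernel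

theorem val59 : RT 59 (tbl 59) = 253197592770952151609881021621401600 := by decide +kernel

theorem val61 : RT 61 (tbl 61) = 493933895858721166591997579721984000 := by decide +kernel

theorem val67 : RT 67 (tbl 67) = 3237595624525360934941544421977702400 := by decide +kernel

end Pool.Agent.MP_aed30a_nt.H54
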