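import Pool.Agent.MP_aed30a_nt.H54.Isolate
import Pool.Agent.MP_aed30a_nt.H54.Values

/-! The number of ten-tuples on no cubic is not a polynomial. -/

namespace Pool.Agent.MP_aed30a_nt.H54
open Finset Polynomial

theorem node {P : ℚ[X]}
    (h : ∀ p : Nat.Primes, RcP p = P.eval (pX p) * ((pX p ^ 2 - 1) * (pX p - 1)))
    (p : ℕ) (hp : p.Prime) (h5 : 5 ≤ p) (h255 : p < 255) (v : ℚ) (hv : RT p (tbl p) = v) :
    v = P.eval (p : ℚ) * (((p : ℚ) ^ 2 - 1) * (p - 1)) := by
  have : Fact p.Prime := ⟨hp⟩
  rw [← hv, ← Rc_formula p h5 h255]
  exact h ⟨p, hp⟩

theorem node0 {P : ℚ[X]}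
    (h : ∀ p : Nat.Primes, RcP p = P.eval (pX p) * ((pX p ^ 2 - 1) * (pX p - 1)))
    (p : ℕ) (hp : p.Prime) (h3 : p ≤ 3) :
    0 = P.eval (p : ℚ) * (((p : ℚ) ^ 2 - 1) * (p - 1)) := by
  have : Fact p.Prime := ⟨hp⟩
  have e : (0 : ℚ) = (Rc (ZMod p) : ℚ) := by rw [Rc_small p h3]; simp
  rw [e]
  exact h ⟨p, hp⟩

/-- the nodes -/
def nodes : Fin 19 → ℚ := ![2, 3, 5, 7, 11, 13, 17, 19, 23, 29, 31, 37, 41, 43, 47, 53, 59, 61, 67]

/-- the values -/
def vals : Fin 19 → ℚ := ![0,
    0,
    88383960000,
    78565345286400,
    326183570347662720,
    6330622125717489600,
    690596111856363148800,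
    4746896161306708711680,
    128016915641547856358400,
    6833955851885926969168320,
    21399966912104072546647680,
    440202982962949043921496000,
    2538408583330493854559765760,
    5719975003808727908980809600,
    26063476705577470459913020800,
    201915432968341330711983384000,
    1254447050985692388079077594240,
    2212965483237998058207874461120,
    10930142415212826577747881292800]

theorem not_poly : ¬ ∃ P : ℚ[X], P.degree ≤ (17 : ℕ) ∧ ∀ p : Nat.Primes,
    RcP p = P.eval (pX p) * ((pX p ^ 2 - 1) * (pX p - 1)) := by
  rintro ⟨P, hP, h⟩
  have e2 : P.eval 2 = 0 := by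
    have := node0 h 2 (by norm_num) (by norm_num)
    norm_num at this; exact this
  have e3 : P.eval 3 = 0 := by
    have := node0 h 3 (by norm_num) (by norm_num)
    norm_num at this; exact this
  have e5 : P.eval 5 = 88383960000 := by
    have := node h 5 (by norm_num) (by norm_num) (by norm_num) _ val5
    norm_num at this; linarith
  have e7 : P.eval 7 = 78565345286400 := by
    have := node h 7 (by norm_num) (by norm_num) (by norm_num) _ val7
    norm_num at this; linarith
  have e11 : P.eval 11 = 326183570347662720 := by
    have := node h 11 (by norm_num) (by norm_num) (by norm_num) _ val11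
    norm_num at this; linarith
  have e13 : P.eval 13 = 6330622125717489600 := by
    have := node h 13 (by norm_num) (by norm_num) (by norm_num) _ val13
    norm_num at this; linarith
  have e17 : P.eval 17 = 690596111856363148800 := by
    have := node h 17 (by norm_num) (by norm_num) (by norm_num) _ val17
    norm_num at this; linarith
  have e19 : P.eval 19 = 4746896161306708711680 := by
    have := node h 19 (by norm_num) (by norm_num) (by norm_num) _ val19
    norm_num at this; linarith
  have e23 : P.eval 23 = 128016915641547856358400 := by
    have := node h 23 (by norm_num) (by norm_num) (by norm_num) _ val23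
    norm_num at this; linarith
  have e29 : P.eval 29 = 6833955851885926969168320 := by
    have := node h 29 (by norm_num) (by norm_num) (by norm_num) _ val29
    norm_num at this; linarith
  have e31 : P.eval 31 = 21399966912104072546647680 := by
    have := node h 31 (by norm_num) (by norm_num) (by norm_num) _ val31
    norm_num at this; linarith
  have e37 : P.eval 37 = 440202982962949043921496000 := by
    have := node h 37 (by norm_num) (by norm_num) (by norm_num) _ val37
    norm_num at this; linarith
  have e41 : P.eval 41 = 2538408583330493854559765760 := by
    have := node h 41 (by norm_num) (by norm_num) (by norm_num) _ val41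
    norm_num at this; linarith
  have e43 : P.eval 43 = 5719975003808727908980809600 := by
    have := node h 43 (by norm_num) (by norm_num) (by norm_num) _ val43
    norm_num at this; linarith
  have e47 : P.eval 47 = 26063476705577470459913020800 := by
    have := node h 47 (by norm_num) (by norm_num) (by norm_num) _ val47
    norm_num at this; linarith
  have e53 : P.eval 53 = 201915432968341330711983384000 := by
    have := node h 53 (by norm_num) (by norm_num) (by norm_num) _ val53
    norm_num at this; linarith
  have e59 : P.eval 59 = 1254447050985692388079077594240 := by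
    have := node h 59 (by norm_num) (by norm_num) (by norm_num) _ val59
    norm_num at this; linarith
  have e61 : P.eval 61 = 2212965483237998058207874461120 := by
    have := node h 61 (by norm_num) (by norm_num) (by norm_num) _ val61
    norm_num at this; linarith
  have e67 : P.eval 67 = 10930142415212826577747881292800 := by
    have := node h 67 (by norm_num) (by norm_num) (by norm_num) _ val67
    norm_num at this; linarith
  have hv : ∀ i, P.eval (nodes i) = vals i := by
    intro i
    fin_cases i
    exacts [e2, e3, e5, e7, e11, e13, e17, e19, e23, e29, e31, e37, e41, e43, e47, e53, e59, e61, e67]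
  have hinj : Set.InjOn nodes (univ : Finset (Fin 19)) := by
    have : Function.Injective nodes := by decide +kernel
    exact this.injOn
  have h1 := Lagrange.coeff_eq_sum hinj (P := P) (hP.trans_lt (by simp; norm_num))
  rw [coeff_eq_zero_of_degree_lt (hP.trans_lt (by simp; norm_num))] at h1
  simp only [hv] at h1
  revert h1
  decide +kernel

end Pool.Agent.MP_aed30a_nt.H54
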