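import Mathlib

/-! Functions on the primes given by rational functions, and an extraction lemma. -/

namespace Pool.Agent.MP_aed30a_nt.H54
open Polynomial Filter

/-- rational valued functions on the primes -/
abbrev PF := Nat.Primes → ℚ

/-- the function `p` -/
def pX : PF := fun p => ((p : ℕ) : ℚ)

/-- functions given by a rational function without poles at the primes -/
def RK : Subring PF where
  carrier := {φ | ∃ A D : ℚ[X], (∀ p : Nat.Primes, D.eval (pX p) ≠ 0) ∧
    ∀ p : Nat.Primes, φ p * D.eval (pX p) = A.eval (pX p)}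
  zero_mem' := ⟨0, 1, by simp, by simp⟩
  one_mem' := ⟨1, 1, by simp, by simp⟩
  add_mem' := by
    rintro φ ψ ⟨A, D, hD, h⟩ ⟨A', D', hD', h'⟩
    refine ⟨A * D' + A' * D, D * D', fun p => by simp [hD p, hD' p], fun p => ?_⟩
    simp only [eval_mul, eval_add, Pi.add_apply, ← h p, ← h' p]; ring
  mul_mem' := by
    rintro φ ψ ⟨A, D, hD, h⟩ ⟨A', D', hD', h'⟩
    refine ⟨A * A', D * D', fun p => by simp [hD p, hD' p], fun p => ?_⟩
    simp only [eval_mul, Pi.mul_apply, ← h p, ← h' p]; ring
  neg_mem' := by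
    rintro φ ⟨A, D, hD, h⟩
    refine ⟨-A, D, hD, fun p => ?_⟩
    simp only [eval_neg, Pi.neg_apply, ← h p]; ring

theorem poly_mem_RK (P : ℚ[X]) : (fun p => P.eval (pX p)) ∈ RK :=
  ⟨P, 1, by simp, by simp⟩

theorem pX_mem : pX ∈ RK := by
  have := poly_mem_RK X
  simpa using this

theorem inv_mem_RK {φ : PF} (h : φ ∈ RK) (h0 : ∀ p, φ p ≠ 0) : φ⁻¹ ∈ RK := by
  obtain ⟨A, D, hD, h⟩ := h
  refine ⟨D, A, fun p => ?_, fun p => ?_⟩
  · rw [← h p]; exact mul_ne_zero (h0 p) (hD p)
  · rw [← h p, Pi.inv_apply, ← mul_assoc, inv_mul_cancel₀ (h0 p), one_mul]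

theorem mem_RK_of_mul {φ ψ : PF} (hψ : ψ ∈ RK) (h0 : ∀ p, ψ p ≠ 0) (h : φ * ψ ∈ RK) : φ ∈ RK := by
  have := RK.mul_mem h (inv_mem_RK hψ h0)
  convert this using 1
  ext p
  simp [h0 p]

theorem pX_ge (p : Nat.Primes) : 2 ≤ pX p := by
  unfold pX; exact_mod_cast p.2.two_le

theorem pX_pow_ne {i j : ℕ} (h : i ≠ j) (p : Nat.Primes) : (pX ^ i) p ≠ (pX ^ j) p := by
  intro e
  have h2 := pX_ge p
  exact h (pow_right_injective₀ (by linarith) (by linarith) e)

theorem exists_prime_ge (x : ℚ) : ∃ p : Nat.Primes, x ≤ pX p := by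
  obtain ⟨p, hp, hp'⟩ := Nat.exists_infinite_primes ⌈x⌉₊
  refine ⟨⟨p, hp'⟩, (Nat.le_ceil x).trans ?_⟩
  unfold pX; exact_mod_cast hp

theorem eq_zero_of_primes (R : ℚ[X]) (x : ℚ) (h : ∀ p : Nat.Primes, x ≤ pX p → R.eval (pX p) = 0) :
    R = 0 := by
  apply eq_zero_of_infinite_isRoot
  apply Set.infinite_of_forall_exists_gt
  intro a
  obtain ⟨p, hp⟩ := exists_prime_ge (max x (a + 1))
  exact ⟨pX p, h p ((le_max_left _ _).trans hp), by linarith [le_max_right x (a + 1)]⟩

/-- an integer valued rational function is a polynomial -/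
theorem poly_of_int {φ : PF} (h : φ ∈ RK) (hz : ∀ p, ∃ z : ℤ, φ p = z) :
    ∃ P : ℚ[X], ∀ p, φ p = P.eval (pX p) := by
  obtain ⟨A, D, hD, h⟩ := h
  have hD0 : D ≠ 0 := by
    rintro rfl
    exact hD ⟨2, Nat.prime_two⟩ (by simp)
  have hdiv := EuclideanDomain.div_add_mod A D
  have hdeg : (A % D).degree < D.degree := degree_mod_lt A hD0
  obtain ⟨N, hN, hQ⟩ := IsLocalization.integerNormalization_spec (nonZeroDivisors ℤ) (A / D)
  have hN0 : N ≠ 0 := nonZeroDivisors.ne_zero hN
  have hint : ∀ p : Nat.Primes, ∃ z : ℤ, (N : ℚ) * (A / D).eval (pX p) = z := by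
    intro p
    refine ⟨(IsLocalization.integerNormalization (nonZeroDivisors ℤ) (A / D)).eval ((p : ℕ) : ℤ), ?_⟩
    have h1 := congrArg (fun P : ℚ[X] => P.eval (pX p)) hQ
    simp only [zsmul_eq_mul] at h1
    rw [eval_mul, eval_intCast] at h1
    rw [← h1]
    have : pX p = algebraMap ℤ ℚ ((p : ℕ) : ℤ) := by simp [pX]
    rw [this, eval_map_algebraMap, aeval_algebraMap_apply]
    simp
  have hlim := div_tendsto_atTop_zero_of_degree_lt (A % D) D hdeg
  have hpos : (0 : ℚ) < 1 / |(N : ℚ)| := by positivity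
  have hev := (hlim.abs.eventually (gt_mem_nhds (by simpa using hpos : |(0 : ℚ)| < 1 / |(N : ℚ)|)))
  obtain ⟨x, hx⟩ := eventually_atTop.mp hev
  have hval : ∀ p : Nat.Primes,
      φ p - (A / D).eval (pX p) = (A % D).eval (pX p) / D.eval (pX p) := by
    intro p
    rw [eq_div_iff (hD p), sub_mul, h p]
    have := congrArg (fun P : ℚ[X] => P.eval (pX p)) hdiv
    simp only [eval_add, eval_mul] at this
    linarith
  have hR : A % D = 0 := by
    apply eq_zero_of_primes _ x
    intro p hp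
    obtain ⟨z, hz⟩ := hz p
    obtain ⟨w, hw⟩ := hint p
    have h1 := hx _ hp
    rw [← hval p, lt_div_iff₀ (by positivity), ← abs_mul] at h1
    have h2 : (φ p - (A / D).eval (pX p)) * N = ((z * N - w : ℤ) : ℚ) := by
      push_cast; rw [← hw, hz]; ring
    rw [h2] at h1
    have h3 : z * N - w = 0 := by
      have : |z * N - w| < 1 := by exact_mod_cast h1
      exact Int.abs_lt_one_iff.mp this
    rw [h3, hval p] at h2
    simpa [hD p, hN0] using h2
  refine ⟨A / D, fun p => ?_⟩
  have := hval p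
  rw [hR] at this
  simp only [eval_zero, zero_div] at this
  linarith

theorem degree_le_of_bound (P : ℚ[X]) (d : ℕ) (C : ℚ)
    (h : ∀ p : Nat.Primes, |P.eval (pX p)| ≤ C * pX p ^ d) : P.degree ≤ d := by
  by_contra hlt
  push Not at hlt
  have hlim := abs_div_tendsto_atTop_atTop_of_degree_gt P (X ^ d) (by simpa using hlt)
    (by simp)
  obtain ⟨x, hx⟩ := eventually_atTop.mp (hlim.eventually (eventually_gt_atTop C))
  obtain ⟨p, hp⟩ := exists_prime_ge x
  have h1 := hx _ hp
  have h2 := pX_ge p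
  have h3 : 0 < pX p ^ d := by positivity
  rw [eval_pow, eval_X, abs_div, abs_of_pos h3, lt_div_iff₀ h3] at h1
  linarith [h p]

section extraction

/-- difference along the antidiagonal -/
def opD (u : ℕ → ℕ → PF) : ℕ → ℕ → PF := fun a b => u (a + 1) b - u a (b + 1)

/-- twisted difference in the first variable -/
def opE (l : PF) (u : ℕ → ℕ → PF) : ℕ → ℕ → PF := fun a b => u (a + 1) b - l * u a b

/-- twisted difference in the second variable -/
def opF (l : PF) (u : ℕ → ℕ → PF) : ℕ → ℕ → PF := fun a b => u a (b + 1) - l * u a b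

theorem opF_opF (l m : PF) (u) : opF l (opF m u) = opF m (opF l u) := by
  funext a b; simp only [opF]; ring

theorem opF_opD (l : PF) (u) : opF l (opD u) = opD (opF l u) := by
  funext a b; simp only [opF, opD]; ring

theorem opF_opE (l m : PF) (u) : opF l (opE m u) = opE m (opF l u) := by
  funext a b; simp only [opF, opE]; ring

theorem opD_opE (m : PF) (u) : opD (opE m u) = opE m (opD u) := by
  funext a b; simp only [opD, opE]; ring

theorem opE_opE (l m : PF) (u) : opE l (opE m u) = opE m (opE l u) := by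
  funext a b; simp only [opE]; ring

theorem foldr_comm (Λ : List PF) (T : (ℕ → ℕ → PF) → ℕ → ℕ → PF)
    (hT : ∀ l u, opF l (T u) = T (opF l u)) (u) : Λ.foldr opF (T u) = T (Λ.foldr opF u) := by
  induction Λ with
  | nil => rfl
  | cons l Λ ih => simp only [List.foldr_cons, ih, hT]

theorem iter_comm (S T : (ℕ → ℕ → PF) → ℕ → ℕ → PF) (h : ∀ u, S (T u) = T (S u)) (m : ℕ) (u) :
    S (T^[m] u) = T^[m] (S u) :=
  (Function.Commute.iterate_right (f := S) (g := T) h m) u

theorem iter_zero (T : (ℕ → ℕ → PF) → ℕ → ℕ → PF) (h : T 0 = 0) (m : ℕ) : T^[m] 0 = 0 :=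
  Function.iterate_fixed h m

theorem opE_iter_eq (l : PF) (m : ℕ) : ∀ u, opF l u = 0 → (opE l)^[m] u = opD^[m] u := by
  induction m with
  | zero => intro u _; rfl
  | succ m ih =>
    intro u hu
    have h1 : opE l u = opD u := by
      funext a b
      have := congrFun (congrFun hu a) b
      simp only [opF, Pi.zero_apply] at this
      simp only [opE, opD]
      linear_combination this
    rw [Function.iterate_succ_apply, Function.iterate_succ_apply, h1]
    apply ih
    rw [opF_opD, hu]; funext a b; simp [opD]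

/-- all entries are rational functions -/
def AllK (u : ℕ → ℕ → PF) : Prop := ∀ a b, u a b ∈ RK

theorem AllK.opE {u} (h : AllK u) {l : PF} (hl : l ∈ RK) : AllK (opE l u) :=
  fun a b => RK.sub_mem (h _ _) (RK.mul_mem hl (h a b))

theorem AllK.iter {u} (h : AllK u) {l : PF} (hl : l ∈ RK) (m : ℕ) : AllK ((H54.opE l)^[m] u) := by
  induction m with
  | zero => exact h
  | succ m ih => rw [Function.iterate_succ_apply']; exact ih.opE hl

theorem opE_iter_zero {l : PF} (hl : l ∈ RK) (m : ℕ) (u : ℕ → ℕ → PF) (h0 : ∀ a, u a 0 ∈ RK) :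
    ∀ a, (opE l)^[m] u a 0 ∈ RK := by
  induction m with
  | zero => exact h0
  | succ m ih =>
    intro a
    rw [Function.iterate_succ_apply']
    exact RK.sub_mem (ih _) (RK.mul_mem hl (ih _))

theorem allK_one {l m : PF} (hl : l ∈ RK) (hm : m ∈ RK) (hlm : ∀ p, l p ≠ m p) (k : ℕ) :
    ∀ u, AllK (opE l u) → AllK ((opE m)^[k] u) → AllK u := by
  induction k with
  | zero => intro u _ h; exact h
  | succ k ih =>
    intro u h1 h2
    have h3 : AllK (opE m u) := ih _ (by rw [opE_opE]; exact h1.opE hm) h2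
    intro a b
    apply mem_RK_of_mul (RK.sub_mem hl hm) (fun p => sub_ne_zero.mpr (hlm p))
    convert RK.sub_mem (h3 a b) (h1 a b) using 1
    simp only [opE]; ring

theorem allK_two {l m : PF} (hl : l ∈ RK) (hm : m ∈ RK) (hlm : ∀ p, l p ≠ m p) (k j : ℕ) :
    ∀ u, AllK ((opE l)^[j] u) → AllK ((opE m)^[k] u) → AllK u := by
  induction j with
  | zero => intro u h _; exact h
  | succ j ih =>
    intro u h1 h2
    have h3 : AllK (opE l u) :=
      ih _ h1 (by rw [← iter_comm (opE l) (opE m) (opE_opE l m)]; exact h2.opE hl)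
    exact allK_one hl hm hlm k u h3 h2

theorem extraction (m : ℕ) (n : ℕ) : ∀ Λ : List PF, Λ.length = n →
    Λ.Pairwise (fun l l' => ∀ p, l p ≠ l' p) → (∀ l ∈ Λ, l ∈ RK) → ∀ u : ℕ → ℕ → PF,
    Λ.foldr opF u = 0 → opD^[m] u = 0 → (∀ a, u a 0 ∈ RK) → AllK u := by
  induction n with
  | zero =>
    intro Λ hΛ _ _ u hu _ _
    rw [List.length_eq_zero_iff.mp hΛ] at hu
    intro a b
    rw [show u = 0 from hu]; exact RK.zero_mem
  | succ n ih =>
    have step : ∀ (l : PF) (Λ : List PF), Λ.length = n →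
        Λ.Pairwise (fun l l' => ∀ p, l p ≠ l' p) → l ∈ RK → (∀ l ∈ Λ, l ∈ RK) →
        ∀ u : ℕ → ℕ → PF, opF l (Λ.foldr opF u) = 0 → opD^[m] u = 0 → (∀ a, u a 0 ∈ RK) →
        AllK ((opE l)^[m] u) := by
      intro l Λ hΛ hp hl hK u hu hD h0
      apply ih Λ hΛ hp hK
      · rw [foldr_comm Λ _ (fun l' => iter_comm _ _ (opF_opE l' l) m), opE_iter_eq l m _ hu,
          ← foldr_comm Λ _ (fun l' => iter_comm _ _ (opF_opD l') m), hD]
        clear hu hΛ hp hK
        induction Λ with
        | nil => rfl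
        | cons l' Λ ih' => rw [List.foldr_cons, ih']; funext a b; simp [opF]
      · rw [iter_comm (opD^[m]) (opE l) (fun u => (iter_comm (opE l) opD
          (fun u => (opD_opE l u).symm) m u).symm), hD]
        exact iter_zero _ (by funext a b; simp [opE]) m
      · exact opE_iter_zero hl m u h0
    intro Λ hΛ hp hK u hu hD h0
    match Λ, hΛ, hp, hK, hu with
    | [l], _, _, hK, hu =>
      intro a b
      induction b with
      | zero => exact h0 a
      | succ b ihb =>
        have := congrFun (congrFun hu a) b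
        simp only [List.foldr_cons, List.foldr_nil, opF, Pi.zero_apply, sub_eq_zero] at this
        rw [this]
        exact RK.mul_mem (hK l (by simp)) ihb
    | l :: l' :: Λ, hΛ, hp, hK, hu =>
      simp only [List.pairwise_cons, List.mem_cons, forall_eq_or_imp] at hp hK
      have h1 := step l (l' :: Λ) (by simpa using hΛ) (List.pairwise_cons.mpr ⟨hp.2.1, hp.2.2⟩)
        hK.1 (by simpa using hK.2) u hu hD h0
      have h2 := step l' (l :: Λ) (by simpa using hΛ) (List.pairwise_cons.mpr ⟨hp.1.2, hp.2.2⟩)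
        hK.2.1 (by simpa using ⟨hK.1, hK.2.2⟩) u (by rw [List.foldr_cons, opF_opF]; exact hu) hD h0
      exact allK_two hK.1 hK.2.1 hp.1.1 m m u h1 h2

end extraction

end Pool.Agent.MP_aed30a_nt.H54
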