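import Pool.Agent.MP_aed30a_nt.H54.Lattice
import Pool.Agent.MP_aed30a_nt.H54.RatK

/-! Free coordinates: the weighted counts are rational functions. -/

namespace Pool.Agent.MP_aed30a_nt.H54
open Finset

/-- the ring with `a + 1` ordinary and `b` free coordinates -/
abbrev AR (p K a b : ℕ) : Type := (Fin (a + 1) → ZMod (p ^ K)) × (Fin b → ZMod p)

section fixed
variable {p : ℕ} [Fact p.Prime] {K : ℕ}

instance neZero_pow : NeZero (p ^ K) := ⟨pow_ne_zero _ (Fact.out : p.Prime).ne_zero⟩

/-- splitting off one free coordinate -/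
def arEquiv (p K a b : ℕ) : AR p K a (b + 1) ≃+* AR p K a b × ZMod p where
  toFun z := ((z.1, fun i => z.2 i.succ), z.2 0)
  invFun z := (z.1.1, Fin.cons z.2 z.1.2)
  left_inv z := by
    ext i
    · rfl
    · refine Fin.cases rfl (fun _ => rfl) i
  right_inv z := rfl
  map_mul' _ _ := rfl
  map_add' _ _ := rfl

theorem card_AR (a b : ℕ) : (Nat.card (AR p K a b) : ℚ) = (p : ℚ) ^ (K * (a + 1)) * p ^ b := by
  simp [pow_mul]

theorem cw_AR_succ (hK : K ≠ 0) (a b j f : ℕ) :
    cw p (AR p K a (b + 1)) j (f + 1) = cw p (AR p K a b) j (f + 1) +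
      (p : ℚ) ^ (K * (a + 1)) / p ^ (f + 1) * p ^ b * cw p (AR p K a b) (j + 1) f := by
  rw [cw_congr (arEquiv p K a b), cw_free ((ZMod.castHom (dvd_pow_self p hK) (ZMod p)).comp
    ((Pi.evalRingHom _ 0).comp (RingHom.fst _ _))), card_AR]
  ring

theorem cw_AR_zero (a b j : ℕ) : cw p (AR p K a (b + 1)) j 0 = cw p (AR p K a b) j 0 := by
  rw [cw_congr (arEquiv p K a b), cw_free_zero]

variable {ι : Type} [Fintype ι] [DecidableEq ι]

/-- the coordinate `i` is free -/
def IsFree (L : AddSubgroup (ι → ZMod (p ^ K))) (i : ι) : Prop :=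
  Pi.single i ((p : ℕ) : ZMod (p ^ K)) ∈ L

/-- vectors supported on `U` -/
def supp (R : Type) [AddCommGroup R] (U : Finset ι) : AddSubgroup (ι → R) where
  carrier := {z | ∀ j ∉ U, z j = 0}
  zero_mem' := fun _ _ => rfl
  add_mem' := fun hx hy j hj => by simp [hx j hj, hy j hj]
  neg_mem' := fun hx j hj => by simp [hx j hj]

omit [Fintype ι] in
theorem exists_gen {f : ℕ} (L : AddSubgroup (ι → ZMod (p ^ K))) (hL : L.index = p ^ f)
    (I : Finset ι) : ∃ U ⊆ I, #U ≤ f ∧ ∀ i ∈ I, Pi.single i 1 ∈ L ⊔ supp (ZMod (p ^ K)) U := by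
  classical
  have hp : p.Prime := Fact.out
  obtain ⟨U, hU, hmax⟩ := exists_max_image
    (I.powerset.filter fun U => (L ⊔ supp (ZMod (p ^ K)) U).index * p ^ #U ∣ p ^ f) card
    ⟨∅, by
      simp only [mem_filter, mem_powerset, empty_subset, card_empty, pow_zero, mul_one, true_and]
      rw [← hL]; exact AddSubgroup.index_dvd_of_le le_sup_left⟩
  simp only [mem_filter, mem_powerset] at hU hmax
  refine ⟨U, hU.1, (Nat.pow_dvd_pow_iff_le_right hp.one_lt).mp ((dvd_mul_left _ _).trans hU.2),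
    fun i hi => ?_⟩
  by_contra hni
  have hiU : i ∉ U := by
    intro h
    apply hni
    apply AddSubgroup.mem_sup_right
    intro j hj
    exact Pi.single_eq_of_ne (fun e : j = i => hj (e ▸ h)) _
  have hle : L ⊔ supp (ZMod (p ^ K)) U ≤ L ⊔ supp (ZMod (p ^ K)) (insert i U) :=
    sup_le_sup_left (fun z hz j hj => hz j fun h => hj (mem_insert_of_mem h)) _
  have hmem : Pi.single i 1 ∈ L ⊔ supp (ZMod (p ^ K)) (insert i U) := by
    apply AddSubgroup.mem_sup_right
    intro j hj
    exact Pi.single_eq_of_ne (fun e : j = i => hj (e ▸ mem_insert_self _ _)) _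
  have h1 := AddSubgroup.relIndex_mul_index hle
  set r := (L ⊔ supp (ZMod (p ^ K)) U).relIndex (L ⊔ supp (ZMod (p ^ K)) (insert i U)) with hr
  have hr1 : r ≠ 1 := fun h => hni (AddSubgroup.relIndex_eq_one.mp h hmem)
  have hrd : r ∣ p ^ f := (Dvd.intro _ h1).trans ((dvd_mul_right _ _).trans hU.2)
  obtain ⟨k, _, hk⟩ := (Nat.dvd_prime_pow hp).mp hrd
  have hpr : p ∣ r := by
    rw [hk]; exact dvd_pow_self p (fun h => hr1 (by rw [hk, h, pow_zero]))
  have h2 := hmax (insert i U) ⟨insert_subset hi hU.1, by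
    refine dvd_trans ?_ hU.2
    rw [card_insert_of_notMem hiU, ← h1, pow_succ]
    obtain ⟨s, hs⟩ := hpr
    rw [hs]
    exact Dvd.intro s (by ring)⟩
  rw [card_insert_of_notMem hiU] at h2
  omega

theorem nonfree_le {f : ℕ} (L : AddSubgroup (ι → ZMod (p ^ K))) (hL : Adm p f L) (V : Finset ι)
    (hV : ∀ u ∈ V, ¬ IsFree L u) : #V ≤ 2 * f := by
  obtain ⟨U, _, hU, hg⟩ := exists_gen L hL.2.2 univ
  obtain ⟨U', hU'U, hU', hg'⟩ := exists_gen L hL.2.2 Uᶜ
  have hsub : V ⊆ U ∪ U' := by
    intro i hi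
    by_contra hn
    simp only [mem_union, not_or] at hn
    apply hV i hi
    obtain ⟨x, hx, z, hz, e⟩ := AddSubgroup.mem_sup.mp (hg i (mem_univ _))
    obtain ⟨y, hy, w, hw, e'⟩ := AddSubgroup.mem_sup.mp (hg' i (mem_compl.mpr hn.1))
    have h := hL.2.1 x hx y hy
    rw [eq_sub_of_add_eq e, eq_sub_of_add_eq e'] at h
    unfold IsFree
    convert h using 1
    ext j
    by_cases hji : j = i
    · subst hji
      simp [hz j hn.1, hw j hn.2]
    · by_cases hj : j ∈ U
      · have : j ∉ U' := fun h' => mem_compl.mp (hU'U h') hj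
        simp [hji, hw j this]
      · simp [hji, hz j hj]
  have := (card_le_card hsub).trans (card_union_le _ _)
  omega

open Classical in
/-- number of lattices with prescribed free and non-free coordinates -/
noncomputable def cnt (p K f : ℕ) [Fact p.Prime] (T U : Finset ι) : ℕ :=
  #{L ∈ admSet p f (ι → ZMod (p ^ K)) | (∀ t ∈ T, IsFree L t) ∧ ∀ u ∈ U, ¬ IsFree L u}

theorem cnt_split (f : ℕ) (T U : Finset ι) (i : ι) :
    cnt p K f T U = cnt p K f (insert i T) U + cnt p K f T (insert i U) := by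
  classical
  unfold cnt
  rw [← card_filter_add_card_filter_not (fun L => IsFree L i), filter_filter, filter_filter]
  congr 2
  · ext L; simp only [mem_filter, forall_mem_insert]; tauto
  · ext L; simp only [mem_filter, forall_mem_insert]; tauto

theorem cnt_eq_zero (f : ℕ) (T U : Finset ι) (h : 2 * f < #U) : cnt p K f T U = 0 := by
  classical
  unfold cnt
  rw [card_eq_zero, filter_eq_empty_iff]
  intro L hL h'
  have := nonfree_le L (mem_admSet.mp hL) U h'.2
  omega

theorem ker_cast (hK : K ≠ 0) (x : ZMod (p ^ K))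
    (hx : ZMod.castHom (dvd_pow_self p hK) (ZMod p) x = 0) : ∃ n : ℕ, x = n • (p : ZMod (p ^ K)) := by
  rw [← ZMod.natCast_zmod_val x, map_natCast, ZMod.natCast_eq_zero_iff] at hx
  obtain ⟨n, hn⟩ := hx
  refine ⟨n, ?_⟩
  rw [← ZMod.natCast_zmod_val x, hn]
  simp [mul_comm]

theorem cnt_base (hK : K ≠ 0) (f a b : ℕ) (T : Finset ι) (hT : #T = b)
    (h : Fintype.card ι = a + 1 + b) : (cnt p K f T ∅ : ℚ) = cw p (AR p K a b) 0 f := by
  classical
  have e1 : Fin (a + 1) ≃ {i // i ∉ T} := Fintype.equivOfCardEq (by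
    rw [Fintype.card_subtype_compl, Fintype.card_fin, h, Fintype.card_coe, hT]; omega)
  have e2 : Fin b ≃ {i // i ∈ T} := Fintype.equivOfCardEq (by simp [hT])
  let c := ZMod.castHom (dvd_pow_self p hK) (ZMod p)
  let π : (ι → ZMod (p ^ K)) →+* AR p K a b :=
    (RingHom.pi fun i => Pi.evalRingHom _ (e1 i).1).prod
      (RingHom.pi fun j => c.comp (Pi.evalRingHom _ (e2 j).1))
  have hπ : Function.Surjective π := by
    rintro ⟨y, z⟩
    refine ⟨fun i => if hi : i ∈ T then ((z (e2.symm ⟨i, hi⟩)).val : ZMod (p ^ K))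
      else y (e1.symm ⟨i, hi⟩), ?_⟩
    ext i
    · simp [π, (e1 i).2]
    · simp [π, (e2 i).2, c]
  have hker : ∀ L : AddSubgroup (ι → ZMod (p ^ K)),
      π.toAddMonoidHom.ker ≤ L ↔ ∀ t ∈ T, IsFree L t := by
    intro L
    constructor
    · intro hL t ht
      apply hL
      change π _ = 0
      ext i
      · have : (e1 i).1 ≠ t := fun e => (e1 i).2 (e ▸ ht)
        simp [π, this]
      · by_cases hi : (e2 i).1 = t <;> simp [π, hi]
    · intro hL x hx
      change π x = 0 at hx
      rw [← Finset.univ_sum_single x]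
      refine L.sum_mem fun i _ => ?_
      by_cases hi : i ∈ T
      · have h1 : c (x i) = 0 := by
          have := congrFun (congrArg Prod.snd hx) (e2.symm ⟨i, hi⟩)
          simpa [π] using this
        obtain ⟨n, hn⟩ := ker_cast hK _ h1
        rw [hn, Pi.single_smul]
        exact L.nsmul_mem (hL i hi) n
      · have h1 : x i = 0 := by
          have := congrFun (congrArg Prod.fst hx) (e1.symm ⟨i, hi⟩)
          simpa [π] using this
        rw [h1, Pi.single_zero]; exact L.zero_mem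
  have h1 := sum_ker (p := p) π hπ f (fun _ => 1)
  unfold cw cnt
  simp only [pow_zero]
  rw [← h1, sum_const, nsmul_eq_mul, mul_one]
  congr 2
  ext L
  simp only [mem_filter, hker, notMem_empty, IsEmpty.forall_iff, implies_true, and_true]

end fixed

/-- the weighted counts as functions of the prime -/
noncomputable def BB (K j f : ℕ) : ℕ → ℕ → PF := fun a b p =>
  haveI : Fact (p : ℕ).Prime := ⟨p.2⟩
  cw p (AR p K a b) j f

theorem opD_BB {K : ℕ} (hK : K ≠ 0) (f : ℕ) (p : Nat.Primes) {ι : Type} [Fintype ι]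
    [DecidableEq ι] (U : Finset ι) : ∀ (T : Finset ι) (a : ℕ), Disjoint T U →
      Fintype.card ι = a + 1 + #T + #U →
      opD^[#U] (BB K 0 f) a (#T) p = @cnt ι _ _ p K f ⟨p.2⟩ T U := by
  have : Fact (p : ℕ).Prime := ⟨p.2⟩
  induction U using Finset.induction_on with
  | empty =>
    intro T a _ h
    exact (cnt_base hK f a _ T rfl (by simpa using h)).symm
  | insert u U hu ih =>
    intro T a hd h
    rw [disjoint_insert_right] at hd
    rw [card_insert_of_notMem hu] at h ⊢
    have h1 := ih T (a + 1) hd.2 (by omega)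
    have h2 := ih (insert u T) a (disjoint_insert_left.mpr ⟨hu, hd.2⟩)
      (by rw [card_insert_of_notMem hd.1]; omega)
    rw [card_insert_of_notMem hd.1] at h2
    rw [Function.iterate_succ_apply', opD, Pi.sub_apply, h1, h2, cnt_split f T U u]
    push_cast; ring

theorem opD_BB_zero {K : ℕ} (hK : K ≠ 0) (f : ℕ) : opD^[2 * f + 1] (BB K 0 f) = 0 := by
  funext a b p
  have : Fact (p : ℕ).Prime := ⟨p.2⟩
  obtain ⟨T, -, hT⟩ := exists_subset_card_eq (s := (univ : Finset (Fin (a + 1 + b + (2 * f + 1)))))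
    (n := b) (by simp only [card_univ, Fintype.card_fin]; omega)
  obtain ⟨U, hUT, hU⟩ := exists_subset_card_eq (s := Tᶜ) (n := 2 * f + 1)
    (by rw [card_compl, Fintype.card_fin, hT]; omega)
  have h := opD_BB hK f p U T a (disjoint_left.mpr fun x hx hx' => mem_compl.mp (hUT hx') hx)
    (by rw [Fintype.card_fin, hT, hU])
  rw [hT, hU, cnt_eq_zero f T U (by omega)] at h
  simpa using h

theorem BB_succ {K : ℕ} (hK : K ≠ 0) (j f a b : ℕ) :
    BB K j (f + 1) a (b + 1) = BB K j (f + 1) a b +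
      pX ^ (K * (a + 1)) * (pX ^ (f + 1))⁻¹ * pX ^ b * BB K (j + 1) f a b := by
  funext p
  have : Fact (p : ℕ).Prime := ⟨p.2⟩
  exact cw_AR_succ hK a b j f

theorem foldr_twist (Λ : List PF) (κ : ℕ → PF) (u : ℕ → ℕ → PF) :
    (Λ.map (pX * ·)).foldr opF (fun a b => κ a * pX ^ b * u a b) =
      fun a b => pX ^ Λ.length * κ a * pX ^ b * Λ.foldr opF u a b := by
  induction Λ with
  | nil => simp
  | cons l Λ ih =>
    simp only [List.map_cons, List.foldr_cons, ih, List.length_cons]
    funext a b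
    simp only [opF]; ring

theorem foldr_BB {K : ℕ} (hK : K ≠ 0) (f : ℕ) : ∀ j,
    ((List.range (f + 1)).reverse.map (pX ^ ·)).foldr opF (BB K j f) = 0 := by
  induction f with
  | zero =>
    intro j
    funext a b p
    have : Fact (p : ℕ).Prime := ⟨p.2⟩
    have h := cw_AR_zero (p := p) (K := K) a b j
    simp only [zero_add, List.range_one, List.reverse_cons, List.reverse_nil, List.nil_append,
      List.map_cons, pow_zero, List.map_nil, List.foldr_cons, List.foldr_nil, opF, one_mul,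
      Pi.sub_apply, Pi.zero_apply]
    exact sub_eq_zero.mpr h
  | succ f ih =>
    intro j
    have h1 : (List.range (f + 1 + 1)).reverse.map (pX ^ ·) =
        ((List.range (f + 1)).reverse.map (pX ^ ·)).map (pX * ·) ++ [1] := by
      rw [List.range_succ_eq_map]
      simp [pow_succ']
    have h2 : opF 1 (BB K j (f + 1)) = fun a b =>
        (pX ^ (K * (a + 1)) * (pX ^ (f + 1))⁻¹) * pX ^ b * BB K (j + 1) f a b := by
      funext a b
      simp only [opF, BB_succ hK]; ring
    rw [h1, List.foldr_append, List.foldr_cons, List.foldr_nil, h2, foldr_twist, ih]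
    funext a b; simp

theorem pX_pow_ne_zero (k : ℕ) (p : Nat.Primes) : (pX ^ k) p ≠ 0 := by
  have := pX_ge p
  exact pow_ne_zero _ (by linarith)

theorem BB_mem {K : ℕ} (hK : K ≠ 0) (M : ℕ) (h : ∀ f ≤ M, ∀ a, BB K 0 f a 0 ∈ RK) (j : ℕ) :
    ∀ f, j + f ≤ M → AllK (BB K j f) := by
  induction j with
  | zero =>
    intro f hf
    refine extraction (2 * f + 1) _ _ rfl ?_ ?_ _ (foldr_BB hK f 0) (opD_BB_zero hK f)
      (h f (by omega))
    · rw [List.pairwise_map]
      exact (List.nodup_reverse.mpr List.nodup_range).imp fun hij => pX_pow_ne hij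
    · intro l hl
      obtain ⟨i, _, rfl⟩ := List.mem_map.mp hl
      exact RK.pow_mem pX_mem i
  | succ j ih =>
    intro f hf a b
    have h1 := ih (f + 1) (by omega)
    have h2 := RK.sub_mem (h1 a (b + 1)) (h1 a b)
    rw [BB_succ hK, add_sub_cancel_left, mul_comm] at h2
    refine mem_RK_of_mul ?_ (fun p => ?_) h2
    · exact RK.mul_mem (RK.mul_mem (RK.pow_mem pX_mem _)
        (inv_mem_RK (RK.pow_mem pX_mem _) (pX_pow_ne_zero _))) (RK.pow_mem pX_mem _)
    · exact mul_ne_zero (mul_ne_zero (pX_pow_ne_zero _ p) (inv_ne_zero (pX_pow_ne_zero _ p)))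
        (pX_pow_ne_zero _ p)

end Pool.Agent.MP_aed30a_nt.H54
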