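import Pool.Agent.MP_aed30a_nt.H54.Defs

/-! Histograms of profiles as packed natural numbers. -/

namespace Pool.Agent.MP_aed30a_nt.H54
open Finset

/-- sum of `f i` over `i < n` -/
def sumTo (f : ℕ → ℕ) (n : ℕ) : ℕ := Nat.rec 0 (fun i acc => Nat.add acc (f i)) n

theorem sumTo_eq (f : ℕ → ℕ) (n : ℕ) : sumTo f n = ∑ i ∈ range n, f i := by
  induction n with
  | zero => rfl
  | succ n ih => rw [sum_range_succ, ← ih]; rfl

theorem digits_lt (B : ℕ) (a : ℕ → ℕ) (h : ∀ j, a j < B) (s : ℕ) :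
    ∑ j ∈ range s, a j * B ^ j < B ^ s := by
  induction s with
  | zero => simp
  | succ s ih =>
    rw [sum_range_succ, pow_succ]
    have := Nat.mul_le_mul_right (B ^ s) (Nat.succ_le_of_lt (h s))
    rw [Nat.succ_mul, mul_comm B] at this
    omega

theorem digits_shift (B M : ℕ) (a : ℕ → ℕ) (h : ∀ j, a j < B) (h0 : ∀ j, M ≤ j → a j = 0)
    (s : ℕ) : (∑ j ∈ range M, a j * B ^ j) / B ^ s = ∑ j ∈ range M, a (s + j) * B ^ j := by
  have hB : 0 < B ^ s := pow_pos (by have := h 0; omega) s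
  have e1 : ∑ j ∈ range M, a j * B ^ j = ∑ j ∈ range (s + M), a j * B ^ j := by
    rw [add_comm s M, sum_range_add, sum_eq_zero (s := range s), add_zero]
    intro j _
    rw [h0 _ (Nat.le_add_right _ _), zero_mul]
  have e2 : ∑ j ∈ range M, a (s + j) * B ^ (s + j) = B ^ s * ∑ j ∈ range M, a (s + j) * B ^ j := by
    rw [mul_sum]
    exact sum_congr rfl fun j _ => by ring
  rw [e1, sum_range_add, e2, Nat.add_mul_div_left _ _ hB, Nat.div_eq_of_lt (digits_lt B a h s),
    zero_add]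

theorem digits_get (B M : ℕ) (a : ℕ → ℕ) (h : ∀ j, a j < B) (h0 : ∀ j, M ≤ j → a j = 0)
    (s : ℕ) : (∑ j ∈ range M, a j * B ^ j) / B ^ s % B = a s := by
  rw [digits_shift B M a h h0]
  cases M with
  | zero => simp [h0]
  | succ M =>
    rw [sum_range_succ', pow_zero, mul_one, add_zero]
    have : ∑ j ∈ range M, a (s + (j + 1)) * B ^ (j + 1) =
        B * ∑ j ∈ range M, a (s + (j + 1)) * B ^ j := by
      rw [mul_sum]
      exact sum_congr rfl fun j _ => by ring
    rw [this, Nat.mul_add_mod, Nat.mod_eq_of_lt (h s)]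

/-- `n` is the packed histogram of the functional `V` -/
def Rep (M n tot : ℕ) (V : (ℕ → ℚ) → ℚ) : Prop :=
  ∃ μ : ℕ → ℕ, n = ∑ i ∈ range M, μ i * (2 ^ 32) ^ i ∧ (∀ i, μ i ≤ tot) ∧
    (∀ i, M ≤ i → μ i = 0) ∧ ∀ τ, V τ = ∑ i ∈ range M, μ i * τ i

theorem Rep.single {M i : ℕ} (h : i < M) : Rep M ((2 ^ 32) ^ i) 1 fun τ => τ i := by
  refine ⟨fun j => if j = i then 1 else 0, by simp [h], fun j => by beta_reduce; split_ifs <;> simp,
    fun j hj => if_neg (by omega), fun τ => by simp [h]⟩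

theorem Rep.add {M n n' t t' V V'} (h : Rep M n t V) (h' : Rep M n' t' V') :
    Rep M (n + n') (t + t') fun τ => V τ + V' τ := by
  obtain ⟨μ, h1, h2, h3, h4⟩ := h
  obtain ⟨μ', h1', h2', h3', h4'⟩ := h'
  refine ⟨fun i => μ i + μ' i, ?_, fun i => Nat.add_le_add (h2 i) (h2' i),
    fun i hi => by simp [h3 i hi, h3' i hi], fun τ => ?_⟩
  · simp only [h1, h1', add_mul, sum_add_distrib]
  · simp only [h4, h4', Nat.cast_add, add_mul, sum_add_distrib]

theorem Rep.smul {M n t V} (c : ℕ) (h : Rep M n t V) :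
    Rep M (c * n) (c * t) fun τ => c * V τ := by
  obtain ⟨μ, h1, h2, h3, h4⟩ := h
  refine ⟨fun i => c * μ i, ?_, fun i => Nat.mul_le_mul_left c (h2 i),
    fun i hi => by simp [h3 i hi], fun τ => ?_⟩
  · simp only [h1, mul_sum, mul_assoc]
  · simp only [h4, Nat.cast_mul, mul_sum, mul_assoc]

theorem Rep.sum {M t : ℕ} {f : ℕ → ℕ} {V : ℕ → (ℕ → ℚ) → ℚ} (k : ℕ)
    (h : ∀ i < k, Rep M (f i) t (V i)) :
    Rep M (sumTo f k) (k * t) fun τ => ∑ i ∈ range k, V i τ := by
  induction k with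
  | zero => exact ⟨fun _ => 0, by simp [sumTo], by simp, by simp, by simp⟩
  | succ k ih =>
    have := (ih fun i hi => h i (by omega)).add (h k (by omega))
    simp only [sum_range_succ, add_mul, one_mul]
    exact this

/-- evaluation of a packed histogram -/
def evH (M n : ℕ) (τ : ℕ → ℚ) : ℚ :=
  Nat.rec 0 (fun i acc => if Nat.mod (Nat.shiftRight n (Nat.mul 32 i)) 4294967296 = 0 then acc else
    acc + (Nat.mod (Nat.shiftRight n (Nat.mul 32 i)) 4294967296 : ℕ) * τ i) M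

theorem evH_eq (M n : ℕ) (τ : ℕ → ℚ) :
    evH M n τ = ∑ i ∈ range M, ((n / (2 ^ 32) ^ i % 2 ^ 32 : ℕ) : ℚ) * τ i := by
  induction M with
  | zero => rfl
  | succ M ih =>
    have e : Nat.mod (Nat.shiftRight n (Nat.mul 32 M)) 4294967296 = n / (2 ^ 32) ^ M % 2 ^ 32 := by
      change (n >>> (32 * M)) % 4294967296 = _
      rw [Nat.shiftRight_eq_div_pow, pow_mul]
      rfl
    rw [sum_range_succ, ← ih, ← e]
    change (if _ then _ else _) = _
    split_ifs with h
    · rw [h]; simp; rfl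
    · rfl

theorem Rep.eval {M n t V} (h : Rep M n t V) (ht : t < 2 ^ 32) (τ : ℕ → ℚ) :
    V τ = evH M n τ := by
  obtain ⟨μ, h1, h2, h3, h4⟩ := h
  rw [h4, evH_eq]
  refine sum_congr rfl fun i _ => ?_
  rw [h1, digits_get _ M μ (fun j => (h2 j).trans_lt ht) h3]

/-- code of a residue -/
def code (p v : ℕ) : ℕ :=
  (fun k => if k = 1 then 1 else if k = 2 then p + 1 else 0)
    (sumTo (fun w => if w * w % p = v % p then 1 else 0) p)

/-- packed table of codes -/
def tbl (p : ℕ) : ℕ := sumTo (fun v => code p v * (2 ^ 16) ^ v) (2 * p)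

/-- packed codes of the profiles of one row -/
def acc (p T e4 e3 e2 e1 : ℕ) : ℕ :=
  sumTo (fun x => Nat.shiftRight T (Nat.mul 16 (Nat.mod
    (Nat.mul (Nat.add (Nat.mul (Nat.add (Nat.mul (Nat.add (Nat.mul e4 x) e3) x) e2) x) e1) x) p))) p

/-- unpacking a row into a histogram -/
def unpack (p A : ℕ) : ℕ :=
  sumTo (fun c => Nat.shiftLeft 1 (Nat.mul 32 (Nat.mod (Nat.shiftRight A (Nat.mul 16 c)) 65536))) p

/-- histogram of a row -/
def rowH (p T e4 e3 e2 e1 : ℕ) : ℕ := unpack p (acc p T e4 e3 e2 e1)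

/-- histogram of the quartics -/
def h4N (p T : ℕ) : ℕ :=
  (p - 1) * sumTo (fun a => rowH p T 1 0 (a + 1) (a + 1)) (p - 1) +
    sumTo (fun b => rowH p T 1 0 0 b) p + sumTo (fun a => rowH p T 1 0 (a + 1) 0) (p - 1)

/-- histogram of the cubics -/
def h3N (p T : ℕ) : ℕ := sumTo (fun a => rowH p T 0 1 0 a) p

/-- histogram of the polynomials of degree at most two -/
def h2N (p T : ℕ) : ℕ :=
  p * sumTo (fun a => rowH p T 0 0 (a + 1) 0) (p - 1) + (p - 1) * rowH p T 0 0 0 1 +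
    rowH p T 0 0 0 0

/-- decoding of a profile -/
def dec (p i : ℕ) : ℕ × ℕ := (i % (p + 1), i / (p + 1))

variable {p : ℕ} [Fact p.Prime]

theorem sum_zmod {M : Type*} [AddCommMonoid M] (f : ZMod p → M) :
    ∑ a : ZMod p, f a = ∑ i ∈ range p, f i := by
  refine sum_nbij' (fun a => a.val) (fun i => (i : ZMod p)) ?_ ?_ ?_ ?_ ?_
  · intro a _; exact mem_range.mpr (ZMod.val_lt a)
  · intro i _; exact mem_univ _
  · intro a _; exact ZMod.natCast_zmod_val a
  · intro i hi; exact ZMod.val_cast_of_lt (mem_range.mp hi)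
  · intro a _; rw [ZMod.natCast_zmod_val]

theorem sum_zmod_erase (f : ZMod p → ℚ) :
    ∑ a ∈ univ.erase (0 : ZMod p), f a = ∑ i ∈ range (p - 1), f ((i + 1 : ℕ) : ZMod p) := by
  have h1 := add_sum_erase univ f (mem_univ (0 : ZMod p))
  have h2 := sum_range_succ' (fun i : ℕ => f i) (p - 1)
  rw [Nat.sub_add_cancel (Fact.out : p.Prime).pos, ← sum_zmod, Nat.cast_zero] at h2
  linarith

theorem code_eq (v : ℕ) : code p v =
    (if sqc (v : ZMod p) = 1 then 1 else 0) + (p + 1) * if sqc (v : ZMod p) = 2 then 1 else 0 := by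
  have : sumTo (fun w => if w * w % p = v % p then 1 else 0) p = sqc (v : ZMod p) := by
    rw [sumTo_eq, sqc, card_filter, sum_zmod]
    refine sum_congr rfl fun w _ => ?_
    congr 1
    rw [← ZMod.natCast_eq_natCast_iff', Nat.cast_mul, pow_two]
  unfold code
  rw [this]
  beta_reduce
  split_ifs <;> omega

omit [Fact p.Prime] in
theorem code_le (v : ℕ) : code p v ≤ p + 1 := by
  unfold code
  beta_reduce
  split_ifs <;> omega

theorem rep_row (hp : p < 255) (e4 e3 e2 e1 : ℕ) :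
    Rep ((p + 1) ^ 2) (rowH p (tbl p) e4 e3 e2 e1) p fun τ =>
      ∑ c : ZMod p, (fun s : ℕ × ℕ => τ (s.1 + (p + 1) * s.2)) (prof fun x : ZMod p =>
        (e4 : ZMod p) * x ^ 4 + e3 * x ^ 3 + e2 * x ^ 2 + e1 * x + c) := by
  have hp0 : 0 < p := (Fact.out : p.Prime).pos
  set a : ℕ → ℕ := fun j => if j < 2 * p then code p j else 0 with ha
  have ha1 : ∀ j, a j ≤ p + 1 := fun j => by
    simp only [ha]; split_ifs; exacts [code_le j, Nat.zero_le _]
  have ha0 : ∀ j, 2 * p ≤ j → a j = 0 := fun j hj => if_neg (by omega)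
  have hT : tbl p = ∑ j ∈ range (2 * p), a j * (2 ^ 16) ^ j := by
    rw [tbl, sumTo_eq]
    exact sum_congr rfl fun j hj => by simp only [ha, if_pos (mem_range.mp hj)]
  set h : ℕ → ℕ := fun x => (((e4 * x + e3) * x + e2) * x + e1) * x % p with hh
  have hA : acc p (tbl p) e4 e3 e2 e1 =
      ∑ j ∈ range (2 * p), (∑ x ∈ range p, a (h x + j)) * (2 ^ 16) ^ j := by
    simp only [sum_mul]
    rw [sum_comm, acc, sumTo_eq]
    refine sum_congr rfl fun x _ => ?_
    rw [← digits_shift _ _ a (fun j => by have := ha1 j; omega) ha0, ← hT, ← pow_mul,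
      ← Nat.shiftRight_eq_div_pow]
    rfl
  have hb : ∀ j, ∑ x ∈ range p, a (h x + j) ≤ p * (p + 1) := fun j => by
    simpa using sum_le_card_nsmul (range p) _ (p + 1) fun x _ => ha1 (h x + j)
  have hdig : ∀ c < p, Nat.mod (Nat.shiftRight (acc p (tbl p) e4 e3 e2 e1) (Nat.mul 16 c)) 65536 =
      (fun s : ℕ × ℕ => s.1 + (p + 1) * s.2) (prof fun x : ZMod p =>
        (e4 : ZMod p) * x ^ 4 + e3 * x ^ 3 + e2 * x ^ 2 + e1 * x + (c : ℕ)) := by
    intro c hc
    change (_ >>> (16 * c)) % 2 ^ 16 = _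
    rw [Nat.shiftRight_eq_div_pow, pow_mul, hA, digits_get _ _ _
      (fun j => by have := hb j; nlinarith)
      (fun j hj => sum_eq_zero fun x _ => ha0 _ (by omega))]
    simp only [prof, card_filter, mul_sum, ← sum_add_distrib]
    rw [sum_zmod]
    refine sum_congr rfl fun x _ => ?_
    have h1 : h x < p := Nat.mod_lt _ hp0
    have h2 : ((h x + c : ℕ) : ZMod p) = (e4 : ZMod p) * (x : ZMod p) ^ 4 + e3 * (x : ZMod p) ^ 3 +
        e2 * (x : ZMod p) ^ 2 + e1 * (x : ZMod p) + (c : ℕ) := by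
      simp only [hh]
      rw [Nat.cast_add, ZMod.natCast_mod]
      push_cast
      ring
    simp only [ha]
    rw [if_pos (by omega), code_eq, h2]
  have hlt : ∀ c < p, Nat.mod (Nat.shiftRight (acc p (tbl p) e4 e3 e2 e1) (Nat.mul 16 c)) 65536 <
      (p + 1) ^ 2 := by
    intro c hc
    change (_ >>> (16 * c)) % 2 ^ 16 < _
    rw [Nat.shiftRight_eq_div_pow, pow_mul, hA, digits_get _ _ _
      (fun j => by have := hb j; nlinarith)
      (fun j hj => sum_eq_zero fun x _ => ha0 _ (by omega))]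
    have := hb c
    nlinarith
  have := Rep.sum (M := (p + 1) ^ 2) (t := 1) (f := fun c => Nat.shiftLeft 1 (Nat.mul 32 (Nat.mod
    (Nat.shiftRight (acc p (tbl p) e4 e3 e2 e1) (Nat.mul 16 c)) 65536))) p (fun c hc => by
      have := Rep.single (hlt c hc)
      rwa [← pow_mul, ← Nat.one_shiftLeft] at this)
  rw [mul_one] at this
  convert this using 2 with τ
  · rfl
  rw [sum_zmod]
  exact sum_congr rfl fun c hc => by rw [hdig c (mem_range.mp hc)]

theorem dec_prof (g : ZMod p → ZMod p) :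
    dec p ((prof g).1 + (p + 1) * (prof g).2) = prof g := by
  have : (prof g).1 < p + 1 := by
    have := card_le_univ {x : ZMod p | sqc (g x) = 1}
    rw [ZMod.card] at this
    exact Nat.lt_succ_of_le this
  unfold dec
  rw [Nat.add_mul_mod_self_left, Nat.mod_eq_of_lt this, Nat.add_mul_div_left _ _ (by omega),
    Nat.div_eq_of_lt this, zero_add]

theorem H4_eq (hp : p < 255) (τ : ℕ × ℕ → ℚ) :
    H4 (ZMod p) τ = evH ((p + 1) ^ 2) (h4N p (tbl p)) fun i => τ (dec p i) := by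
  have hp0 : 1 ≤ p := (Fact.out : p.Prime).pos
  have h := ((Rep.smul (p - 1) (Rep.sum (p - 1) fun a _ => rep_row hp 1 0 (a + 1) (a + 1))).add
    (Rep.sum p fun b _ => rep_row hp 1 0 0 b)).add
    (Rep.sum (p - 1) fun a _ => rep_row hp 1 0 (a + 1) 0)
  refine Eq.trans ?_ (h.eval ?_ _)
  · simp only [H4, row, dec_prof, sum_zmod_erase, ZMod.card, Nat.cast_one, Nat.cast_zero,
      Nat.cast_sub hp0]
    rw [sum_zmod]
  · have h1 : p - 1 ≤ 255 := by omega
    calc _ ≤ 255 * (255 * 255) + 255 * 255 + 255 * 255 := by have := hp.le; gcongr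
      _ < _ := by norm_num

theorem H3_eq (hp : p < 255) (τ : ℕ × ℕ → ℚ) :
    H3 (ZMod p) τ = evH ((p + 1) ^ 2) (h3N p (tbl p)) fun i => τ (dec p i) := by
  have h := Rep.sum p fun b _ => rep_row hp 0 1 0 b
  refine Eq.trans ?_ (h.eval ?_ _)
  · simp only [H3, row, dec_prof, Nat.cast_one, Nat.cast_zero]
    rw [sum_zmod]
  · nlinarith

theorem H2_eq (hp : p < 255) (τ : ℕ × ℕ → ℚ) :
    H2 (ZMod p) τ = evH ((p + 1) ^ 2) (h2N p (tbl p)) fun i => τ (dec p i) := by
  have hp0 : 1 ≤ p := (Fact.out : p.Prime).pos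
  have h := ((Rep.smul p (Rep.sum (p - 1) fun a _ => rep_row hp 0 0 (a + 1) 0)).add
    (Rep.smul (p - 1) (rep_row hp 0 0 0 1))).add (rep_row hp 0 0 0 0)
  refine Eq.trans ?_ (h.eval ?_ _)
  · simp only [H2, row, dec_prof, sum_zmod_erase, ZMod.card, Nat.cast_one, Nat.cast_zero,
      Nat.cast_sub hp0]
  · have h1 : p - 1 ≤ 255 := by omega
    calc _ ≤ 255 * (255 * 255) + 255 * 255 + 255 := by have := hp.le; gcongr
      _ < _ := by norm_num

end Pool.Agent.MP_aed30a_nt.H54
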