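import Pool.Agent.MP_aed30a_nt.H54.Defs

namespace Pool.Agent.MP_aed30a_nt.H54
open Finset

/-! ### general lemmas -/

theorem b_card_pre {G H : Type*} [AddCommGroup G] [AddCommGroup H] (f : G →+ H)
    (hf : Function.Surjective f) (P : H → Prop) :
    Nat.card {g // P (f g)} = Nat.card {h // P h} * Nat.card f.ker := by
  classical
  choose s hs using hf
  rw [← Nat.card_prod]
  refine Nat.card_congr
    { toFun := fun g => (⟨f g.1, g.2⟩, ⟨g.1 - s (f g.1), by simp [AddMonoidHom.mem_ker, hs]⟩)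
      invFun := fun z => ⟨s z.1.1 + z.2.1, by
        have h2 : f z.2.1 = 0 := z.2.2
        rw [map_add, hs, h2, add_zero]; exact z.1.2⟩
      left_inv := fun g => by simp
      right_inv := fun z => by
        have h2 : f z.2.1 = 0 := z.2.2
        ext <;> simp [hs, h2] }

theorem b_card_ker {G H : Type*} [AddCommGroup G] [AddCommGroup H] (f : G →+ H)
    (hf : Function.Surjective f) : Nat.card G = Nat.card H * Nat.card f.ker := by
  have := b_card_pre f hf (fun _ => True)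
  rwa [Nat.card_congr (Equiv.subtypeUnivEquiv (fun _ => trivial)),
    Nat.card_congr (Equiv.subtypeUnivEquiv (p := fun _ : H => True) (fun _ => trivial))] at this

theorem b_card_fib {G S : Type*} [Finite G] [Finite S] (f : G → S) (m : ℕ)
    (h : ∀ s, Nat.card {g // f g = s} = m) : Nat.card G = Nat.card S * m := by
  classical
  have := Fintype.ofFinite S
  rw [← Nat.card_congr (Equiv.sigmaFiberEquiv f), Nat.card_sigma]
  simp [h]

theorem b_card_det (p : ℕ) [Fact p.Prime] :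
    Nat.card {M : Matrix (Fin 2) (Fin 2) (ZMod p) // M.det ≠ 0} = (p ^ 2 - 1) * (p ^ 2 - p) := by
  have h := Matrix.card_GL_field (𝔽 := ZMod p) 2
  rw [Fin.prod_univ_two, ZMod.card] at h
  simp only [Fin.val_zero, Fin.val_one, pow_zero, pow_one] at h
  rw [← h]
  refine Nat.card_congr
    { toFun := fun M => Matrix.GeneralLinearGroup.mkOfDetNeZero M.1 M.2
      invFun := fun g => ⟨g.1, g.det_ne_zero⟩
      left_inv := fun M => rfl
      right_inv := fun g => by ext; rfl }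

section ring
variable {R : Type*} [CommRing R]

/-- evaluation matrix -/
def b_M (t : Fin 10 → R × R) : Matrix (Fin 10) (Fin 10) R := fun i =>
  ![1, (t i).1, (t i).2, (t i).1 ^ 2, (t i).1 * (t i).2, (t i).2 ^ 2, (t i).1 ^ 3,
    (t i).1 ^ 2 * (t i).2, (t i).1 * (t i).2 ^ 2, (t i).2 ^ 3]

theorem b_mulVec (t : Fin 10 → R × R) (c : Fin 10 → R) (i : Fin 10) :
    (b_M t).mulVec c i = ev3 c (t i) := by
  simp [Matrix.mulVec, dotProduct, b_M, ev3, Fin.sum_univ_succ]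
  ring

/-- evaluation map -/
def b_Phi (x y : Fin 10 → R) : (Fin 10 → R) →+ (Fin 10 → R) where
  toFun c := fun i => ev3 c (x i, y i)
  map_zero' := by ext i; simp [ev3]
  map_add' c c' := by ext i; simp [ev3]; ring

theorem b_Phi_apply (x y c : Fin 10 → R) (i : Fin 10) : b_Phi x y c i = ev3 c (x i, y i) := rfl

/-- boxes -/
def b_Box (π : R) (d : Fin 10 → ℕ) : AddSubgroup (Fin 10 → R) :=
  AddSubgroup.pi Set.univ fun j => (Ideal.span {π ^ d j}).toAddSubgroup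

theorem b_mem_Box (π : R) (d : Fin 10 → ℕ) (c : Fin 10 → R) :
    c ∈ b_Box π d ↔ ∀ j, π ^ d j ∣ c j := by
  simp [b_Box, AddSubgroup.mem_pi, Ideal.mem_span_singleton]

def b_d : Fin 10 → ℕ := ![0, 0, 0, 1, 1, 1, 2, 2, 2, 2]
def b_d' : Fin 10 → ℕ := ![1, 1, 1, 1, 1, 1, 2, 2, 2, 2]

theorem b_mem_const (π : R) (k : ℕ) (u : Fin 10 → R) :
    u ∈ b_Box π (fun _ => k) ↔ ∃ a : Fin 10 → R, u = π ^ k • a := by
  rw [b_mem_Box]
  constructor
  · intro h
    choose a ha using h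
    exact ⟨a, funext fun j => by simp [ha j]⟩
  · rintro ⟨a, rfl⟩ j
    simp

theorem b_Box_mono (π : R) {d e : Fin 10 → ℕ} (h : ∀ j, d j ≤ e j) : b_Box π e ≤ b_Box π d := by
  intro c hc
  rw [b_mem_Box] at hc ⊢
  exact fun j => (pow_dvd_pow π (h j)).trans (hc j)

theorem b_mem_d (π : R) (c : Fin 10 → R) (hc : c ∈ b_Box π b_d) :
    ∃ e : Fin 10 → R, c = ![e 0, e 1, e 2, π * e 3, π * e 4, π * e 5, π ^ 2 * e 6, π ^ 2 * e 7,
      π ^ 2 * e 8, π ^ 2 * e 9] := by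
  rw [b_mem_Box] at hc
  choose e he using hc
  refine ⟨e, funext fun j => ?_⟩
  rw [he j]
  fin_cases j <;> simp [b_d]

theorem b_mem_d' (π : R) (c : Fin 10 → R) (hc : c ∈ b_Box π b_d') :
    ∃ e : Fin 10 → R, c = ![π * e 0, π * e 1, π * e 2, π * e 3, π * e 4, π * e 5, π ^ 2 * e 6,
      π ^ 2 * e 7, π ^ 2 * e 8, π ^ 2 * e 9] := by
  rw [b_mem_Box] at hc
  choose e he using hc
  refine ⟨e, funext fun j => ?_⟩
  rw [he j]
  fin_cases j <;> simp [b_d']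

theorem b_mk_d (π : R) (e : Fin 10 → R) :
    ![e 0, e 1, e 2, π * e 3, π * e 4, π * e 5, π ^ 2 * e 6, π ^ 2 * e 7,
      π ^ 2 * e 8, π ^ 2 * e 9] ∈ b_Box π b_d := by
  rw [b_mem_Box]; intro j
  fin_cases j <;> simp [b_d]

theorem b_mk_d' (π : R) (e : Fin 10 → R) :
    ![π * e 0, π * e 1, π * e 2, π * e 3, π * e 4, π * e 5, π ^ 2 * e 6,
      π ^ 2 * e 7, π ^ 2 * e 8, π ^ 2 * e 9] ∈ b_Box π b_d' := by
  rw [b_mem_Box]; intro j
  fin_cases j <;> simp [b_d']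

/-- product lemma -/
theorem b_prod (π : R) (x y c c' : Fin 10 → R) (hc : c ∈ b_Box π b_d) (hc' : c' ∈ b_Box π b_d) :
    ∃ c'' ∈ b_Box π b_d', ∃ a : Fin 10 → R,
      π • (b_Phi x y c * b_Phi x y c') = b_Phi x y c'' + π ^ 3 • a := by
  obtain ⟨e, rfl⟩ := b_mem_d π c hc
  obtain ⟨f, rfl⟩ := b_mem_d π c' hc'
  refine ⟨_, b_mk_d' π ![e 0 * f 0, e 0 * f 1 + e 1 * f 0, e 0 * f 2 + e 2 * f 0,
    e 1 * f 1 + π * (e 0 * f 3 + e 3 * f 0), e 1 * f 2 + e 2 * f 1 + π * (e 0 * f 4 + e 4 * f 0),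
    e 2 * f 2 + π * (e 0 * f 5 + e 5 * f 0), e 1 * f 3 + e 3 * f 1,
    e 1 * f 4 + e 2 * f 3 + e 4 * f 1 + e 3 * f 2, e 1 * f 5 + e 2 * f 4 + e 5 * f 1 + e 4 * f 2,
    e 2 * f 5 + e 5 * f 2], fun i =>
      (e 0 + e 1 * x i + e 2 * y i) *
        (f 6 * x i ^ 3 + f 7 * (x i ^ 2 * y i) + f 8 * (x i * y i ^ 2) + f 9 * y i ^ 3) +
      (e 3 * x i ^ 2 + e 4 * (x i * y i) + e 5 * y i ^ 2) *
        (f 3 * x i ^ 2 + f 4 * (x i * y i) + f 5 * y i ^ 2 + π *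
          (f 6 * x i ^ 3 + f 7 * (x i ^ 2 * y i) + f 8 * (x i * y i ^ 2) + f 9 * y i ^ 3)) +
      (e 6 * x i ^ 3 + e 7 * (x i ^ 2 * y i) + e 8 * (x i * y i ^ 2) + e 9 * y i ^ 3) *
        (f 0 + f 1 * x i + f 2 * y i + π * (f 3 * x i ^ 2 + f 4 * (x i * y i) + f 5 * y i ^ 2) +
          π ^ 2 * (f 6 * x i ^ 3 + f 7 * (x i ^ 2 * y i) + f 8 * (x i * y i ^ 2) +
            f 9 * y i ^ 3)), ?_⟩
  ext i
  simp [b_Phi_apply, ev3]
  ring

/-- composition of a cubic with an affine map -/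
theorem b_affine (e : Fin 10 → R) (a b c a' b' c' : R) :
    ∃ e' : Fin 10 → R, ∀ P : R × R,
      ev3 e (a + b * P.1 + c * P.2, a' + b' * P.1 + c' * P.2) = ev3 e' P := by
  refine ⟨![ev3 e (a, a'),
    e 1 * b + e 2 * b' + e 3 * (2 * a * b) + e 4 * (a * b' + b * a') + e 5 * (2 * a' * b') +
      e 6 * (3 * a ^ 2 * b) + e 7 * (2 * a * b * a' + a ^ 2 * b') +
      e 8 * (b * a' ^ 2 + 2 * a * a' * b') + e 9 * (3 * a' ^ 2 * b'),
    e 1 * c + e 2 * c' + e 3 * (2 * a * c) + e 4 * (a * c' + c * a') + e 5 * (2 * a' * c') +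
      e 6 * (3 * a ^ 2 * c) + e 7 * (2 * a * c * a' + a ^ 2 * c') +
      e 8 * (c * a' ^ 2 + 2 * a * a' * c') + e 9 * (3 * a' ^ 2 * c'),
    e 3 * b ^ 2 + e 4 * (b * b') + e 5 * b' ^ 2 + e 6 * (3 * a * b ^ 2) +
      e 7 * (b ^ 2 * a' + 2 * a * b * b') + e 8 * (2 * b * a' * b' + a * b' ^ 2) +
      e 9 * (3 * a' * b' ^ 2),
    e 3 * (2 * b * c) + e 4 * (b * c' + c * b') + e 5 * (2 * b' * c') + e 6 * (6 * a * b * c) +
      e 7 * (2 * b * c * a' + 2 * a * b * c' + 2 * a * c * b') +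
      e 8 * (2 * b * a' * c' + 2 * c * a' * b' + 2 * a * b' * c') + e 9 * (6 * a' * b' * c'),
    e 3 * c ^ 2 + e 4 * (c * c') + e 5 * c' ^ 2 + e 6 * (3 * a * c ^ 2) +
      e 7 * (c ^ 2 * a' + 2 * a * c * c') + e 8 * (2 * c * a' * c' + a * c' ^ 2) +
      e 9 * (3 * a' * c' ^ 2),
    e 6 * b ^ 3 + e 7 * (b ^ 2 * b') + e 8 * (b * b' ^ 2) + e 9 * b' ^ 3,
    e 6 * (3 * b ^ 2 * c) + e 7 * (2 * b * c * b' + b ^ 2 * c') +
      e 8 * (c * b' ^ 2 + 2 * b * b' * c') + e 9 * (3 * b' ^ 2 * c'),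
    e 6 * (3 * b * c ^ 2) + e 7 * (c ^ 2 * b' + 2 * b * c * c') +
      e 8 * (2 * c * b' * c' + b * c' ^ 2) + e 9 * (3 * b' * c' ^ 2),
    e 6 * c ^ 3 + e 7 * (c ^ 2 * c') + e 8 * (c * c' ^ 2) + e 9 * c' ^ 3], fun P => ?_⟩
  simp [ev3]
  ring

end ring

section field
variable {F : Type*} [Field F]

theorem b_gen_iff_det (t : Fin 10 → F × F) : Gen t ↔ (b_M t).det ≠ 0 := by
  rw [Ne, ← Matrix.exists_mulVec_eq_zero_iff]
  constructor
  · rintro h ⟨v, hv, h0⟩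
    exact hv (h v fun i => by rw [← b_mulVec, h0]; rfl)
  · intro h c hc
    by_contra hne
    exact h ⟨c, hne, funext fun i => by rw [b_mulVec, hc i]; rfl⟩

theorem b_gen_iff_surj (t : Fin 10 → F × F) :
    Gen t ↔ ∀ w : Fin 10 → F, ∃ c, ∀ i, ev3 c (t i) = w i := by
  rw [b_gen_iff_det, ← isUnit_iff_ne_zero, ← Matrix.isUnit_iff_isUnit_det,
    ← Matrix.mulVec_surjective_iff_isUnit]
  constructor
  · intro h w
    obtain ⟨c, hc⟩ := h w
    exact ⟨c, fun i => by rw [← b_mulVec, hc]⟩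
  · intro h w
    obtain ⟨c, hc⟩ := h w
    exact ⟨c, funext fun i => by rw [b_mulVec, hc]⟩

theorem b_gen_affine (t : Fin 10 → F × F) (ht : Gen t) (a b c a' b' c' : F) :
    Gen (fun i => (a + b * (t i).1 + c * (t i).2, a' + b' * (t i).1 + c' * (t i).2)) ↔
      b * c' - c * b' ≠ 0 := by
  constructor
  · intro h hdet
    have key : ∀ u v : F, u * b + v * b' = 0 → u * c + v * c' = 0 → u = 0 ∧ v = 0 := by
      intro u v h1 h2
      have := h ![-(u * a + v * a'), u, v, 0, 0, 0, 0, 0, 0, 0] (fun i => by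
        simp [ev3]
        linear_combination (t i).1 * h1 + (t i).2 * h2)
      exact ⟨by simpa using congrFun this 1, by simpa using congrFun this 2⟩
    obtain ⟨h1, h2⟩ := key b' (-b) (by ring) (by linear_combination -hdet)
    obtain ⟨h3, h4⟩ := key c' (-c) (by linear_combination hdet) (by ring)
    have := (key 1 0 (by linear_combination -h2) (by linear_combination -h4)).1
    exact one_ne_zero this
  · intro hdet
    rw [b_gen_iff_surj] at ht ⊢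
    intro w
    obtain ⟨e, he⟩ := ht w
    set D := b * c' - c * b' with hD
    obtain ⟨e', he'⟩ := b_affine e ((c * a' - c' * a) / D) (c' / D) (-c / D)
      ((b' * a - b * a') / D) (-b' / D) (b / D)
    refine ⟨e', fun i => ?_⟩
    rw [← he', ← he i]
    congr 1
    ext
    · simp only; field_simp; rw [hD]; ring
    · simp only; field_simp; rw [hD]; ring

end field

section zmod
variable (p K : ℕ) [hp : Fact p.Prime]

theorem b_cast_zero (e : ℕ) (he : e ≤ K) (a : ZMod (p ^ K)) :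
    ZMod.castHom (pow_dvd_pow p he) (ZMod (p ^ e)) a = 0 ↔ (p : ZMod (p ^ K)) ^ e ∣ a := by
  have : NeZero (p ^ K) := ⟨pow_ne_zero _ hp.out.ne_zero⟩
  constructor
  · intro h
    rw [← ZMod.natCast_zmod_val a, map_natCast, ZMod.natCast_eq_zero_iff] at h
    obtain ⟨k, hk⟩ := h
    refine ⟨k, ?_⟩
    rw [← ZMod.natCast_zmod_val a, hk]; push_cast; rfl
  · rintro ⟨b, rfl⟩
    rw [map_mul, map_pow, map_natCast, ← Nat.cast_pow, ZMod.natCast_self, zero_mul]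

theorem b_index_span (e : ℕ) (he : e ≤ K) :
    (Ideal.span {(p : ZMod (p ^ K)) ^ e}).toAddSubgroup.index = p ^ e := by
  have : NeZero (p ^ e) := ⟨pow_ne_zero _ hp.out.ne_zero⟩
  have h : (Ideal.span {(p : ZMod (p ^ K)) ^ e}).toAddSubgroup =
      (ZMod.castHom (pow_dvd_pow p he) (ZMod (p ^ e))).toAddMonoidHom.ker := by
    ext a
    rw [AddMonoidHom.mem_ker]
    simp only [Submodule.mem_toAddSubgroup, Ideal.mem_span_singleton]
    exact (b_cast_zero p K e he a).symm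
  rw [h, AddSubgroup.index_ker, AddMonoidHom.range_eq_top_of_surjective _
    (ZMod.castHom_surjective (pow_dvd_pow p he)), AddSubgroup.card_top, Nat.card_zmod]

theorem b_index_Box (d : Fin 10 → ℕ) (hd : ∀ j, d j ≤ K) :
    (b_Box (p : ZMod (p ^ K)) d).index = p ^ (∑ j, d j) := by
  rw [b_Box, AddSubgroup.index_pi, ← Finset.prod_pow_eq_pow_sum]
  exact Finset.prod_congr rfl fun j _ => b_index_span p K _ (hd j)

variable (hK : 3 ≤ K)
include hK

theorem b_dvd : p ∣ p ^ K := dvd_pow_self p (by omega)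

/-- reduction modulo `p` -/
def b_rho : ZMod (p ^ K) →+* ZMod p := ZMod.castHom (b_dvd p K hK) (ZMod p)

theorem b_rho_p : b_rho p K hK (p : ZMod (p ^ K)) = 0 := by
  rw [map_natCast, ZMod.natCast_self]

theorem b_rho_surj : Function.Surjective (b_rho p K hK) := ZMod.castHom_surjective (b_dvd p K hK)

theorem b_rho_zero (a : ZMod (p ^ K)) : b_rho p K hK a = 0 ↔ (p : ZMod (p ^ K)) ∣ a := by
  have : NeZero (p ^ K) := ⟨pow_ne_zero _ hp.out.ne_zero⟩
  constructor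
  · intro h
    rw [← ZMod.natCast_zmod_val a, map_natCast, ZMod.natCast_eq_zero_iff] at h
    obtain ⟨k, hk⟩ := h
    refine ⟨k, ?_⟩
    rw [← ZMod.natCast_zmod_val a, hk]; push_cast; rfl
  · rintro ⟨b, rfl⟩
    rw [map_mul, b_rho_p, zero_mul]

theorem b_unit (a : ZMod (p ^ K)) (h : b_rho p K hK a ≠ 0) : IsUnit a := by
  have : NeZero (p ^ K) := ⟨pow_ne_zero _ hp.out.ne_zero⟩
  rw [← ZMod.natCast_zmod_val a, map_natCast, Ne, ZMod.natCast_eq_zero_iff] at h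
  rw [← ZMod.natCast_zmod_val a, ZMod.isUnit_iff_coprime]
  exact Nat.Coprime.pow_right _ ((Nat.Prime.coprime_iff_not_dvd hp.out).2 h).symm

theorem b_psq_ne : (p : ZMod (p ^ K)) ^ 2 ≠ 0 := by
  rw [← Nat.cast_pow, Ne, ZMod.natCast_eq_zero_iff, Nat.pow_dvd_pow_iff_le_right hp.out.one_lt]
  omega

/-- the reduced points -/
def b_red (x y : Fin 10 → ZMod (p ^ K)) : Fin 10 → ZMod p × ZMod p :=
  fun i => (b_rho p K hK (x i), b_rho p K hK (y i))

theorem b_rho_ev (x y c : Fin 10 → ZMod (p ^ K)) (i : Fin 10) :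
    b_rho p K hK (b_Phi x y c i) = ev3 (fun j => b_rho p K hK (c j)) (b_red p K hK x y i) := by
  simp [b_Phi_apply, ev3, b_red]

theorem b_bij (x y : Fin 10 → ZMod (p ^ K)) (h : Gen (b_red p K hK x y)) :
    Function.Bijective (b_Phi x y) := by
  have : NeZero (p ^ K) := ⟨pow_ne_zero _ hp.out.ne_zero⟩
  rw [b_gen_iff_det] at h
  have h1 : (b_M fun i => (x i, y i)).map (b_rho p K hK) = b_M (b_red p K hK x y) := by
    ext i j
    fin_cases j <;> simp [b_M, b_red]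
  have h2 : IsUnit (b_M fun i => (x i, y i)) := by
    rw [Matrix.isUnit_iff_isUnit_det]
    apply b_unit p K hK
    rw [RingHom.map_det, RingHom.mapMatrix_apply, h1]
    exact h
  have h3 : Function.Surjective (b_Phi x y) := by
    intro w
    obtain ⟨c, hc⟩ := Matrix.mulVec_surjective_iff_isUnit.2 h2 w
    exact ⟨c, funext fun i => by rw [← hc, b_mulVec]; rfl⟩
  exact ⟨Finite.injective_iff_surjective.2 h3, h3⟩

omit hK in
theorem b_smul_eq (x : Fin 10 → ZMod (p ^ K)) :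
    (p : Fin 10 → ZMod (p ^ K)) * x = (p : ZMod (p ^ K)) • x := by
  ext i; simp

/-- the lattice generated by `x` and `y` -/
def b_L (x y : Fin 10 → ZMod (p ^ K)) : AddSubgroup (Fin 10 → ZMod (p ^ K)) :=
  (b_Box (p : ZMod (p ^ K)) b_d).map (b_Phi x y)

omit hK in
theorem b_Phi_smul (x y c : Fin 10 → ZMod (p ^ K)) (r : ZMod (p ^ K)) :
    b_Phi x y (r • c) = r • b_Phi x y c := by
  ext i; simp [b_Phi_apply, ev3]; ring

omit hK in
theorem b_lin_mem (x y : Fin 10 → ZMod (p ^ K)) (a b c : ZMod (p ^ K)) :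
    a • (1 : Fin 10 → ZMod (p ^ K)) + b • x + c • y ∈ b_L p K x y := by
  refine ⟨_, b_mk_d _ ![a, b, c, 0, 0, 0, 0, 0, 0, 0], ?_⟩
  ext i; simp [b_Phi_apply, ev3]

omit hK in
theorem b_one_mem (x y : Fin 10 → ZMod (p ^ K)) : 1 ∈ b_L p K x y := by
  simpa using b_lin_mem p K x y 1 0 0

omit hK in
theorem b_x_mem (x y : Fin 10 → ZMod (p ^ K)) : x ∈ b_L p K x y := by
  simpa using b_lin_mem p K x y 0 1 0

omit hK in
theorem b_y_mem (x y : Fin 10 → ZMod (p ^ K)) : y ∈ b_L p K x y := by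
  simpa using b_lin_mem p K x y 0 0 1

omit hK in
/-- any admissible-like lattice containing `x`, `y` has the box images inside -/
theorem b_le_sq (L : AddSubgroup (Fin 10 → ZMod (p ^ K))) (h1 : 1 ∈ L)
    (hm : ∀ x ∈ L, ∀ y ∈ L, (p : Fin 10 → ZMod (p ^ K)) * (x * y) ∈ L)
    (x y : Fin 10 → ZMod (p ^ K)) (hx : x ∈ L) (hy : y ∈ L) :
    (b_Box (p : ZMod (p ^ K)) b_d').map (b_Phi x y) ≤ sq p L := by
  rintro _ ⟨c, hc, rfl⟩
  obtain ⟨e, rfl⟩ := b_mem_d' _ c hc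
  have g : ∀ (r : ZMod (p ^ K)) (u w : Fin 10 → ZMod (p ^ K)), u ∈ L → w ∈ L →
      r • ((p : Fin 10 → ZMod (p ^ K)) * (u * w)) ∈ sq p L := fun r u w hu hw => by
    have hz : (p : Fin 10 → ZMod (p ^ K)) * (u * w) ∈ sq p L :=
      AddSubgroup.subset_closure ⟨u, hu, w, hw, rfl⟩
    exact ZMod.smul_mem hz r
  have hxx := hm x hx x hx
  have hyy := hm y hy y hy
  have := add_mem (add_mem (add_mem (add_mem (add_mem (add_mem (add_mem (add_mem (add_mem
    (g (e 0) 1 1 h1 h1) (g (e 1) x 1 hx h1)) (g (e 2) y 1 hy h1)) (g (e 3) x x hx hx))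
    (g (e 4) x y hx hy)) (g (e 5) y y hy hy)) (g (e 6) _ x hxx hx)) (g (e 7) _ y hxx hy))
    (g (e 8) _ x hyy hx)) (g (e 9) _ y hyy hy)
  convert this using 1
  ext i; simp [b_Phi_apply, ev3]; ring

omit hK in
theorem b_sq_le (L : AddSubgroup (Fin 10 → ZMod (p ^ K)))
    (hm : ∀ x ∈ L, ∀ y ∈ L, (p : Fin 10 → ZMod (p ^ K)) * (x * y) ∈ L) : sq p L ≤ L := by
  rw [sq, AddSubgroup.closure_le]
  rintro _ ⟨u, hu, w, hw, rfl⟩
  exact hm u hu w hw

omit hK in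
theorem b_L_le (L : AddSubgroup (Fin 10 → ZMod (p ^ K))) (h1 : 1 ∈ L)
    (hm : ∀ x ∈ L, ∀ y ∈ L, (p : Fin 10 → ZMod (p ^ K)) * (x * y) ∈ L)
    (x y : Fin 10 → ZMod (p ^ K)) (hx : x ∈ L) (hy : y ∈ L) : b_L p K x y ≤ L := by
  rintro _ ⟨c, hc, rfl⟩
  obtain ⟨e, rfl⟩ := b_mem_d _ c hc
  have h2 := b_sq_le p K L hm (b_le_sq p K L h1 hm x y hx hy
    ⟨_, b_mk_d' _ ![0, 0, 0, e 3, e 4, e 5, e 6, e 7, e 8, e 9], rfl⟩)
  have := add_mem (add_mem (add_mem (ZMod.smul_mem h1 (e 0)) (ZMod.smul_mem hx (e 1)))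
    (ZMod.smul_mem hy (e 2))) h2
  convert this using 1
  ext i; simp [b_Phi_apply, ev3]; ring

omit hK in
theorem b_dd' : b_Box (p : ZMod (p ^ K)) b_d' ≤ b_Box (p : ZMod (p ^ K)) b_d :=
  b_Box_mono _ fun j => by fin_cases j <;> simp [b_d, b_d']

theorem b_mul_mem (x y : Fin 10 → ZMod (p ^ K)) (h : Gen (b_red p K hK x y))
    (u : Fin 10 → ZMod (p ^ K)) (hu : u ∈ b_L p K x y) (w : Fin 10 → ZMod (p ^ K))
    (hw : w ∈ b_L p K x y) : (p : Fin 10 → ZMod (p ^ K)) * (u * w) ∈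
      (b_Box (p : ZMod (p ^ K)) b_d').map (b_Phi x y) := by
  obtain ⟨c, hc, rfl⟩ := hu
  obtain ⟨c', hc', rfl⟩ := hw
  obtain ⟨c'', hc'', a, ha⟩ := b_prod _ x y c c' hc hc'
  obtain ⟨a', rfl⟩ := (b_bij p K hK x y h).2 a
  rw [b_smul_eq, ha, ← b_Phi_smul, ← map_add]
  refine ⟨_, add_mem hc'' ?_, rfl⟩
  exact b_Box_mono _ (e := fun _ => 3) (fun j => by fin_cases j <;> simp [b_d'])
    ((b_mem_const _ 3 _).2 ⟨a', rfl⟩)

theorem b_index_d : (b_Box (p : ZMod (p ^ K)) b_d).index = p ^ 11 := by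
  rw [b_index_Box p K b_d fun j => by fin_cases j <;> simp [b_d] <;> omega]
  simp [b_d, Fin.sum_univ_succ]

theorem b_index_d' : (b_Box (p : ZMod (p ^ K)) b_d').index = p ^ 14 := by
  rw [b_index_Box p K b_d' fun j => by fin_cases j <;> simp [b_d'] <;> omega]
  simp [b_d', Fin.sum_univ_succ]

theorem b_F1 (x y : Fin 10 → ZMod (p ^ K)) (h : Gen (b_red p K hK x y)) :
    Adm p 11 (b_L p K x y) ∧ (sq p (b_L p K x y)).relIndex (b_L p K x y) = p ^ 3 := by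
  have hm : ∀ u ∈ b_L p K x y, ∀ w ∈ b_L p K x y,
      (p : Fin 10 → ZMod (p ^ K)) * (u * w) ∈ b_L p K x y := fun u hu w hw =>
    AddSubgroup.map_mono (b_dd' p K) (b_mul_mem p K hK x y h u hu w hw)
  have hi : (b_L p K x y).index = p ^ 11 := by
    rw [b_L, AddSubgroup.index_map_of_bijective (b_bij p K hK x y h), b_index_d p K hK]
  refine ⟨⟨b_one_mem p K x y, hm, hi⟩, ?_⟩
  have hs : sq p (b_L p K x y) = (b_Box (p : ZMod (p ^ K)) b_d').map (b_Phi x y) := by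
    apply le_antisymm
    · rw [sq, AddSubgroup.closure_le]
      rintro _ ⟨u, hu, w, hw, rfl⟩
      exact b_mul_mem p K hK x y h u hu w hw
    · exact b_le_sq p K _ (b_one_mem p K x y) hm x y (b_x_mem p K x y) (b_y_mem p K x y)
  have h3 := AddSubgroup.relIndex_mul_index (b_sq_le p K _ hm)
  rw [hi] at h3
  conv at h3 => rhs; rw [hs, AddSubgroup.index_map_of_bijective (b_bij p K hK x y h),
    b_index_d' p K hK]
  have h4 : p ^ 14 = p ^ 3 * p ^ 11 := by ring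
  rw [h4] at h3
  exact Nat.eq_of_mul_eq_mul_right (pow_pos hp.out.pos _) h3

theorem b_F2 (L : AddSubgroup (Fin 10 → ZMod (p ^ K))) (hL : Adm p 11 L)
    (x y : Fin 10 → ZMod (p ^ K)) (hx : x ∈ L) (hy : y ∈ L) (h : Gen (b_red p K hK x y)) :
    b_L p K x y = L := by
  have hle := b_L_le p K L hL.1 hL.2.1 x y hx hy
  have h3 := AddSubgroup.relIndex_mul_index hle
  rw [hL.2.2, (b_F1 p K hK x y h).1.2.2] at h3
  have h4 : (b_L p K x y).relIndex L = 1 :=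
    Nat.eq_of_mul_eq_mul_right (pow_pos hp.out.pos 11) (by rw [h3, one_mul])
  exact le_antisymm hle (AddSubgroup.relIndex_eq_one.1 h4)

omit hK in
theorem b_cardA : Nat.card (Fin 10 → ZMod (p ^ K)) = p ^ (K * 10) := by
  rw [Nat.card_fun, Nat.card_zmod, Nat.card_eq_fintype_card, Fintype.card_fin, pow_mul]

omit hK in
theorem b_step (H H' : AddSubgroup (Fin 10 → ZMod (p ^ K))) (h : ¬ H' ≤ H) :
    p ≤ H.relIndex H' := by
  have h1 : H.relIndex H' ∣ p ^ (K * 10) := by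
    rw [← b_cardA p K]
    exact (AddSubgroup.relIndex_dvd_card H H').trans (AddSubgroup.card_addSubgroup_dvd_card H')
  obtain ⟨k, -, hk⟩ := (Nat.dvd_prime_pow hp.out).1 h1
  rcases Nat.eq_zero_or_pos k with rfl | hk0
  · rw [pow_zero] at hk
    exact absurd (AddSubgroup.relIndex_eq_one.1 hk) h
  · rw [hk]
    exact Nat.le_self_pow hk0.ne' p

theorem b_one_not_mem (L : AddSubgroup (Fin 10 → ZMod (p ^ K))) : 1 ∉ sq p L := by
  intro h
  have h1 : sq p L ≤ b_Box (p : ZMod (p ^ K)) (fun _ => 1) := by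
    rw [sq, AddSubgroup.closure_le]
    rintro _ ⟨u, -, w, -, rfl⟩
    exact (b_mem_const _ 1 _).2 ⟨u * w, by rw [b_smul_eq, pow_one]⟩
  have h2 := (b_mem_Box _ _ _).1 (h1 h) 0
  rw [pow_one, ← b_rho_zero p K hK] at h2
  simp at h2

theorem b_F3a (L : AddSubgroup (Fin 10 → ZMod (p ^ K))) (hL : Adm p 11 L)
    (h : (sq p L).relIndex L ≤ p ^ 3) :
    ∃ x ∈ L, ∃ y ∈ L, L ≤ sq p L ⊔ b_L p K x y := by
  by_contra hcon
  push Not at hcon
  have hz : ∀ (H : AddSubgroup (Fin 10 → ZMod (p ^ K))) (u : Fin 10 → ZMod (p ^ K)), u ∈ H →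
      AddSubgroup.zmultiples u ≤ H := fun H u hu => AddSubgroup.zmultiples_le_of_mem hu
  have hS := b_sq_le p K L hL.2.1
  set S := sq p L with hSdef
  set H1 := S ⊔ AddSubgroup.zmultiples 1 with hH1
  have a1 : H1 ≤ L := sup_le hS (hz _ _ hL.1)
  have n1 : ¬ L ≤ H1 := fun hh => hcon 0 L.zero_mem 0 L.zero_mem
    (hh.trans (sup_le_sup_left (hz _ _ (b_one_mem p K 0 0)) _))
  obtain ⟨x, hx, hx'⟩ := SetLike.not_le_iff_exists.1 n1
  set H2 := H1 ⊔ AddSubgroup.zmultiples x with hH2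
  have a2 : H2 ≤ L := sup_le a1 (hz _ _ hx)
  have n2 : ¬ L ≤ H2 := fun hh => hcon x hx 0 L.zero_mem
    (hh.trans (sup_le (sup_le_sup_left (hz _ _ (b_one_mem p K x 0)) _)
      (le_sup_of_le_right (hz _ _ (b_x_mem p K x 0)))))
  obtain ⟨y, hy, hy'⟩ := SetLike.not_le_iff_exists.1 n2
  set H3 := H2 ⊔ AddSubgroup.zmultiples y with hH3
  have a3 : H3 ≤ L := sup_le a2 (hz _ _ hy)
  have n3 : ¬ L ≤ H3 := fun hh => hcon x hx y hy
    (hh.trans (sup_le (sup_le (sup_le_sup_left (hz _ _ (b_one_mem p K x y)) _)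
      (le_sup_of_le_right (hz _ _ (b_x_mem p K x y))))
      (le_sup_of_le_right (hz _ _ (b_y_mem p K x y)))))
  have s0 : p ≤ S.relIndex H1 := b_step p K _ _ fun hh => b_one_not_mem p K hK L
    (hh (AddSubgroup.mem_sup_right (AddSubgroup.mem_zmultiples 1)))
  have s1 : p ≤ H1.relIndex H2 := b_step p K _ _ fun hh => hx'
    (hh (AddSubgroup.mem_sup_right (AddSubgroup.mem_zmultiples x)))
  have s2 : p ≤ H2.relIndex H3 := b_step p K _ _ fun hh => hy'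
    (hh (AddSubgroup.mem_sup_right (AddSubgroup.mem_zmultiples y)))
  have s3 : p ≤ H3.relIndex L := b_step p K _ _ n3
  have e1 := AddSubgroup.relIndex_mul_relIndex S H1 L le_sup_left a1
  have e2 := AddSubgroup.relIndex_mul_relIndex H1 H2 L le_sup_left a2
  have e3 := AddSubgroup.relIndex_mul_relIndex H2 H3 L le_sup_left a3
  have h4 : p * (p * (p * p)) ≤ S.relIndex L := by
    rw [← e1, ← e2, ← e3]
    exact Nat.mul_le_mul s0 (Nat.mul_le_mul s1 (Nat.mul_le_mul s2 s3))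
  have h5 : p ^ 3 < p ^ 4 := Nat.pow_lt_pow_right hp.out.one_lt (by norm_num)
  have h6 : p ^ 4 = p * (p * (p * p)) := by ring
  omega

omit hK in
theorem b_F3b (L : AddSubgroup (Fin 10 → ZMod (p ^ K))) (x y : Fin 10 → ZMod (p ^ K))
    (k : ℕ) (hk : k ≤ 2) (h : L ≤ b_L p K x y ⊔ b_Box (p : ZMod (p ^ K)) (fun _ => k)) :
    sq p L ≤ b_L p K x y ⊔ b_Box (p : ZMod (p ^ K)) (fun _ => k + 1) := by
  rw [sq, AddSubgroup.closure_le]
  rintro _ ⟨u, hu, w, hw, rfl⟩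
  obtain ⟨_, ⟨c, hc, rfl⟩, _, ha, rfl⟩ := AddSubgroup.mem_sup.1 (h hu)
  obtain ⟨_, ⟨c', hc', rfl⟩, _, ha', rfl⟩ := AddSubgroup.mem_sup.1 (h hw)
  obtain ⟨a, rfl⟩ := (b_mem_const _ _ _).1 ha
  obtain ⟨a', rfl⟩ := (b_mem_const _ _ _).1 ha'
  obtain ⟨c'', hc'', a'', he⟩ := b_prod _ x y c c' hc hc'
  obtain ⟨m, hm⟩ : ∃ m, 3 = (k + 1) + m := ⟨2 - k, by omega⟩
  refine AddSubgroup.mem_sup.2 ⟨b_Phi x y c'', ⟨c'', b_dd' p K hc'', rfl⟩,
    (p : ZMod (p ^ K)) ^ (k + 1) • ((p : ZMod (p ^ K)) ^ m • a'' + a * b_Phi x y c' +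
      b_Phi x y c * a' + (p : ZMod (p ^ K)) ^ k • (a * a')), (b_mem_const _ _ _).2 ⟨_, rfl⟩, ?_⟩
  rw [hm, pow_add] at he
  ext i
  have hi := congrFun he i
  simp only [Pi.add_apply, Pi.mul_apply, Pi.smul_apply, smul_eq_mul, Pi.natCast_apply] at hi ⊢
  linear_combination -hi

theorem b_F3 (L : AddSubgroup (Fin 10 → ZMod (p ^ K))) (hL : Adm p 11 L)
    (h : (sq p L).relIndex L ≤ p ^ 3) : ∃ x ∈ L, ∃ y ∈ L, Gen (b_red p K hK x y) := by
  obtain ⟨x, hx, y, hy, hxy⟩ := b_F3a p K hK L hL h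
  refine ⟨x, hx, y, hy, ?_⟩
  have st : ∀ k, k ≤ 2 → L ≤ b_L p K x y ⊔ b_Box (p : ZMod (p ^ K)) (fun _ => k) →
      L ≤ b_L p K x y ⊔ b_Box (p : ZMod (p ^ K)) (fun _ => k + 1) := fun k hk hh =>
    hxy.trans (sup_le (b_F3b p K L x y k hk hh) le_sup_left)
  have w0 : L ≤ b_L p K x y ⊔ b_Box (p : ZMod (p ^ K)) (fun _ => 0) := fun u _ =>
    AddSubgroup.mem_sup_right ((b_mem_Box _ _ _).2 fun j => by simp)
  have w3 : L ≤ b_L p K x y ⊔ b_Box (p : ZMod (p ^ K)) (fun _ => 3) :=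
    st 2 le_rfl (st 1 (by norm_num) (st 0 (by norm_num) w0))
  intro c hc
  by_contra hne
  obtain ⟨j, hj⟩ := Function.ne_iff.1 hne
  choose c' hc' using fun j => b_rho_surj p K hK (c j)
  set T := b_Box (p : ZMod (p ^ K)) (fun _ => 3) with hT
  set B := b_Box (p : ZMod (p ^ K)) b_d with hB
  set N := T.comap (b_Phi x y) ⊓ B with hN
  have hTB : T ≤ B := b_Box_mono _ fun j => by fin_cases j <;> simp [b_d]
  have hTN : T ≤ N := by
    refine le_inf (fun u hu => ?_) hTB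
    obtain ⟨a, rfl⟩ := (b_mem_const _ _ _).1 hu
    rw [AddSubgroup.mem_comap, b_Phi_smul]
    exact (b_mem_const _ _ _).2 ⟨_, rfl⟩
  have hNT : ¬ N ≤ T := by
    intro hh
    have m1 : (p : ZMod (p ^ K)) ^ 2 • c' ∈ N := by
      refine ⟨?_, b_Box_mono _ (e := fun _ => 2) (fun j => by fin_cases j <;> simp [b_d])
        ((b_mem_const _ _ _).2 ⟨_, rfl⟩)⟩
      change b_Phi x y ((p : ZMod (p ^ K)) ^ 2 • c') ∈ T
      rw [b_Phi_smul]
      refine (b_mem_Box _ _ _).2 fun i => ?_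
      have h0 : (p : ZMod (p ^ K)) ∣ b_Phi x y c' i := by
        rw [← b_rho_zero p K hK, b_rho_ev, ← hc i]
        congr 1
        exact funext hc'
      obtain ⟨b, hb⟩ := h0
      exact ⟨b, by rw [Pi.smul_apply, hb, smul_eq_mul]; ring⟩
    obtain ⟨b, hb⟩ := (b_mem_Box _ _ _).1 (hh m1) j
    have hu : IsUnit (c' j - p * b) := by
      apply b_unit p K hK
      rw [map_sub, map_mul, b_rho_p, zero_mul, sub_zero, hc']
      exact hj
    apply b_psq_ne p K hK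
    rw [← hu.mul_left_eq_zero]
    rw [Pi.smul_apply, smul_eq_mul] at hb
    linear_combination hb
  have hiT : T.index = p ^ 30 := by
    rw [hT, b_index_Box p K _ fun _ => hK]; simp
  have e1 := AddSubgroup.relIndex_mul_index (le_sup_right : T ≤ b_L p K x y ⊔ T)
  rw [AddSubgroup.relIndex_sup_right, b_L, ← AddSubgroup.relIndex_comap,
    ← AddSubgroup.inf_relIndex_right] at e1
  have e2 := AddSubgroup.relIndex_mul_relIndex T N B hTN inf_le_right
  have e3 := AddSubgroup.relIndex_mul_index hTB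
  have e4 := b_step p K T N hNT
  have e5 := AddSubgroup.index_dvd_of_le w3
  rw [hL.2.2, b_L] at e5
  rw [b_index_d p K hK, ← e2, ← e1] at e3
  have e6 : (B.map (b_Phi x y) ⊔ T).index ≤ p ^ 11 := Nat.le_of_dvd (pow_pos hp.out.pos 11) e5
  rw [hiT] at e1
  have s0 : 0 < N.relIndex B := by
    apply Nat.pos_of_ne_zero
    intro h0
    rw [h0, zero_mul] at e1
    exact (pow_pos hp.out.pos 30).ne e1
  have e7 : T.relIndex N * p ^ 11 = (B.map (b_Phi x y) ⊔ T).index :=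
    Nat.eq_of_mul_eq_mul_left s0 (by rw [← e3]; ring)
  have e8 : 2 * p ^ 11 ≤ T.relIndex N * p ^ 11 :=
    Nat.mul_le_mul_right _ (hp.out.two_le.trans e4)
  have e9 := pow_pos hp.out.pos 11
  omega

/-- reduction of a pair of vectors -/
def b_f2 : (Fin 10 → ZMod (p ^ K)) × (Fin 10 → ZMod (p ^ K)) →+ (Fin 10 → ZMod p × ZMod p) where
  toFun z := b_red p K hK z.1 z.2
  map_zero' := by ext i <;> simp [b_red]
  map_add' z w := by ext i <;> simp [b_red]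

theorem b_f2_surj : Function.Surjective (b_f2 p K hK) := by
  intro t
  choose s hs using b_rho_surj p K hK
  refine ⟨(fun i => s (t i).1, fun i => s (t i).2), ?_⟩
  ext i <;> simp [b_f2, b_red, hs]

/-- the linear parts of a pair of coefficient vectors -/
def b_f1 : b_Box (p : ZMod (p ^ K)) b_d × b_Box (p : ZMod (p ^ K)) b_d →+
    Matrix (Fin 2) (Fin 2) (ZMod p) where
  toFun z := !![b_rho p K hK (z.1.1 1), b_rho p K hK (z.1.1 2);
    b_rho p K hK (z.2.1 1), b_rho p K hK (z.2.1 2)]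
  map_zero' := by ext i j; fin_cases i <;> fin_cases j <;> simp
  map_add' z w := by ext i j; fin_cases i <;> fin_cases j <;> simp

theorem b_f1_surj : Function.Surjective (b_f1 p K hK) := by
  intro M
  choose s hs using b_rho_surj p K hK
  refine ⟨(⟨_, b_mk_d _ ![0, s (M 0 0), s (M 0 1), 0, 0, 0, 0, 0, 0, 0]⟩,
    ⟨_, b_mk_d _ ![0, s (M 1 0), s (M 1 1), 0, 0, 0, 0, 0, 0, 0]⟩), ?_⟩
  ext i j; fin_cases i <;> fin_cases j <;> simp [b_f1, hs]

theorem b_rho_lin (x y c : Fin 10 → ZMod (p ^ K)) (hc : c ∈ b_Box (p : ZMod (p ^ K)) b_d)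
    (i : Fin 10) : b_rho p K hK (b_Phi x y c i) = b_rho p K hK (c 0) +
      b_rho p K hK (c 1) * (b_red p K hK x y i).1 +
      b_rho p K hK (c 2) * (b_red p K hK x y i).2 := by
  obtain ⟨e, rfl⟩ := b_mem_d _ c hc
  rw [b_rho_ev]
  simp [ev3]

theorem b_gen_pair (x y : Fin 10 → ZMod (p ^ K)) (h : Gen (b_red p K hK x y))
    (z : b_Box (p : ZMod (p ^ K)) b_d × b_Box (p : ZMod (p ^ K)) b_d) :
    Gen (b_red p K hK (b_Phi x y z.1.1) (b_Phi x y z.2.1)) ↔ (b_f1 p K hK z).det ≠ 0 := by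
  have h1 : b_red p K hK (b_Phi x y z.1.1) (b_Phi x y z.2.1) = fun i =>
      (b_rho p K hK (z.1.1 0) + b_rho p K hK (z.1.1 1) * (b_red p K hK x y i).1 +
        b_rho p K hK (z.1.1 2) * (b_red p K hK x y i).2,
      b_rho p K hK (z.2.1 0) + b_rho p K hK (z.2.1 1) * (b_red p K hK x y i).1 +
        b_rho p K hK (z.2.1 2) * (b_red p K hK x y i).2) := by
    funext i
    rw [← b_rho_lin p K hK x y _ z.1.2, ← b_rho_lin p K hK x y _ z.2.2]
    rfl
  rw [h1, b_gen_affine _ h]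
  simp [b_f1, Matrix.det_fin_two]

/-- the lattice of a generic pair -/
def b_F (g : {z : (Fin 10 → ZMod (p ^ K)) × (Fin 10 → ZMod (p ^ K)) // Gen (b_f2 p K hK z)}) :
    {L : AddSubgroup (Fin 10 → ZMod (p ^ K)) // Adm p 11 L ∧ (sq p L).relIndex L ≤ p ^ 3} :=
  ⟨b_L p K g.1.1 g.1.2, (b_F1 p K hK _ _ g.2).1, (b_F1 p K hK _ _ g.2).2.le⟩

theorem b_fiber
    (s : {L : AddSubgroup (Fin 10 → ZMod (p ^ K)) // Adm p 11 L ∧ (sq p L).relIndex L ≤ p ^ 3}) :
    Nat.card {g // b_F p K hK g = s} =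
      Nat.card {z // (b_f1 p K hK z).det ≠ 0} := by
  obtain ⟨L, hL, h⟩ := s
  obtain ⟨x, hx, y, hy, hxy⟩ := b_F3 p K hK L hL h
  have hE := b_F2 p K hK L hL x y hx hy hxy
  have hm : ∀ c : b_Box (p : ZMod (p ^ K)) b_d, b_Phi x y c.1 ∈ L := fun c =>
    hE ▸ ⟨c.1, c.2, rfl⟩
  symm
  refine Nat.card_congr (Equiv.ofBijective (fun z =>
    ⟨⟨(b_Phi x y z.1.1.1, b_Phi x y z.1.2.1), (b_gen_pair p K hK x y hxy z.1).2 z.2⟩,
      Subtype.ext (b_F2 p K hK L hL _ _ (hm _) (hm _)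
        ((b_gen_pair p K hK x y hxy z.1).2 z.2))⟩) ⟨?_, ?_⟩)
  · intro z w hzw
    have h1 := congrArg (fun g => g.1.1) hzw
    simp only [Prod.mk.injEq] at h1
    exact Subtype.ext (Prod.ext (Subtype.ext ((b_bij p K hK x y hxy).1 h1.1))
      (Subtype.ext ((b_bij p K hK x y hxy).1 h1.2)))
  · rintro ⟨⟨⟨u, w⟩, hg⟩, hF⟩
    have h1 : b_L p K u w = L := congrArg Subtype.val hF
    have hu : u ∈ b_L p K x y := by rw [hE, ← h1]; exact b_x_mem p K u w
    have hw : w ∈ b_L p K x y := by rw [hE, ← h1]; exact b_y_mem p K u w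
    obtain ⟨c, hc, rfl⟩ := hu
    obtain ⟨c', hc', rfl⟩ := hw
    exact ⟨⟨(⟨c, hc⟩, ⟨c', hc'⟩), (b_gen_pair p K hK x y hxy (⟨c, hc⟩, ⟨c', hc'⟩)).1 hg⟩, rfl⟩

end zmod

theorem twoGen_count (p K : ℕ) [hp : Fact p.Prime] (hK : 3 ≤ K) :
    Nat.card {L : AddSubgroup (Fin 10 → ZMod (p ^ K)) //
        Adm p 11 L ∧ (sq p L).relIndex L ≤ p ^ 3} * ((p ^ 2 - 1) * (p - 1)) =
      Rc (ZMod p) * p ^ 5 := by
  have : NeZero (p ^ K) := ⟨pow_ne_zero _ hp.out.ne_zero⟩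
  have e1 := b_card_fib (b_F p K hK) _ (b_fiber p K hK)
  rw [b_card_pre _ (b_f2_surj p K hK) Gen,
    b_card_pre _ (b_f1_surj p K hK) (fun M => M.det ≠ 0), b_card_det] at e1
  have e2 := b_card_ker _ (b_f2_surj p K hK)
  have e3 := b_card_ker _ (b_f1_surj p K hK)
  have e4 := AddSubgroup.card_mul_index (b_Box (p : ZMod (p ^ K)) b_d)
  have c2 : Nat.card (Fin 10 → ZMod p × ZMod p) = p ^ 20 := by
    rw [Nat.card_fun, Nat.card_prod, Nat.card_zmod, Nat.card_eq_fintype_card, Fintype.card_fin]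
    ring
  have c3 : Nat.card (Matrix (Fin 2) (Fin 2) (ZMod p)) = p ^ 4 := by
    rw [Matrix, Nat.card_fun, Nat.card_fun, Nat.card_zmod, Nat.card_eq_fintype_card,
      Fintype.card_fin]
    ring
  rw [Nat.card_prod, c2] at e2
  rw [Nat.card_prod, c3] at e3
  rw [b_index_d p K hK] at e4
  have k1 : 0 < Nat.card (b_f1 p K hK).ker := Nat.card_pos
  have hp0 := hp.out.pos
  rw [← e4] at e2
  have e5 : Nat.card (b_f2 p K hK).ker = p ^ 6 * Nat.card (b_f1 p K hK).ker :=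
    Nat.eq_of_mul_eq_mul_left (pow_pos hp0 20) (by
      rw [← e2]
      calc _ = (Nat.card (b_Box (p : ZMod (p ^ K)) b_d) *
            Nat.card (b_Box (p : ZMod (p ^ K)) b_d)) * p ^ 22 := by ring
        _ = _ := by rw [e3]; ring)
  have e6 : p ^ 2 - p = p * (p - 1) := by rw [Nat.mul_sub_one, pow_two]
  rw [e5, e6] at e1
  refine Nat.eq_of_mul_eq_mul_left (Nat.mul_pos hp0 k1) ?_
  rw [Rc]
  linear_combination -e1

theorem relIndex_eq_cube (p K : ℕ) [Fact p.Prime] (hK : 3 ≤ K)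
    (L : AddSubgroup (Fin 10 → ZMod (p ^ K))) (hL : Adm p 11 L)
    (h : (sq p L).relIndex L ≤ p ^ 3) : (sq p L).relIndex L = p ^ 3 := by
  obtain ⟨x, hx, y, hy, hxy⟩ := b_F3 p K hK L hL h
  have := (b_F1 p K hK x y hxy).2
  rwa [b_F2 p K hK L hL x y hx hy hxy] at this

end Pool.Agent.MP_aed30a_nt.H54
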