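import Pool.Agent.MP_aed30a_nt.H54.Padic
import Pool.Agent.MP_aed30a_nt.H54.TwoGen

/-! If all counts are polynomial then so is the number of ten-tuples on no cubic. -/

namespace Pool.Agent.MP_aed30a_nt.H54
open Finset Polynomial

section fixed
variable {p : ℕ} [Fact p.Prime] {K n : ℕ}

theorem card_ker_mul (hK : K ≠ 0) :
    Nat.card (AddMonoidHom.mulLeft (p : Fin n → ZMod (p ^ K))).ker = p ^ n := by
  let ρ : (Fin n → ZMod (p ^ K)) →+* (Fin n → ZMod p) :=
    RingHom.pi fun i => (ZMod.castHom (dvd_pow_self p hK) (ZMod p)).comp (Pi.evalRingHom _ i)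
  set m := AddMonoidHom.mulLeft (p : Fin n → ZMod (p ^ K)) with hm
  have h1 : m.range = ρ.toAddMonoidHom.ker := by
    ext z
    constructor
    · rintro ⟨x, rfl⟩
      change ρ (p * x) = 0
      rw [map_mul, map_natCast]
      funext i; simp
    · intro hz
      have : ∀ i, ∃ k : ℕ, z i = k • (p : ZMod (p ^ K)) := fun i => ker_cast hK _ (congrFun hz i)
      choose k hk using this
      exact ⟨fun i => k i, funext fun i => by rw [hk i]; simp [hm, mul_comm]⟩
  have h2 : Function.Surjective ρ.toAddMonoidHom := by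
    intro y
    exact ⟨fun i => ((y i).val : ZMod (p ^ K)), funext fun i => by simp [ρ]⟩
  have h3 : m.range.index = p ^ n := by
    rw [h1, AddSubgroup.index_ker, AddMonoidHom.range_eq_top.mpr h2, AddSubgroup.card_top]
    simp
  have h4 := m.range.card_mul_index
  have h5 := m.ker.card_mul_index
  rw [AddSubgroup.index_ker, ← h4, h3, mul_comm] at h5
  exact Nat.eq_of_mul_eq_mul_left Nat.card_pos h5

theorem relIndex_pow (hK : K ≠ 0) {f : ℕ} (L : AddSubgroup (Fin n → ZMod (p ^ K)))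
    (hL : Adm p f L) : ∃ k ≤ n, (sq p L).relIndex L = p ^ k := by
  have hp : p.Prime := Fact.out
  set m := AddMonoidHom.mulLeft (p : Fin n → ZMod (p ^ K)) with hm
  have h1 : L.map m ≤ sq p L := by
    rintro _ ⟨x, hx, rfl⟩
    simpa [hm] using mem_sq (p := p) hx hL.1
  have h2 := (m.ker.addSubgroupOf L).card_mul_index
  have h3 := ((L.map m).addSubgroupOf L).card_mul_index
  rw [Nat.card_congr (AddSubgroup.addSubgroupOfEquivOfLe (h1.trans (sq_le hL.2.1))).toEquiv] at h3
  have h4 : (m.ker.addSubgroupOf L).index = Nat.card (L.map m) := AddSubgroup.relIndex_ker L m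
  rw [h4, ← h3, mul_comm] at h2
  have h5 := Nat.eq_of_mul_eq_mul_left Nat.card_pos h2
  have h6 : Nat.card (m.ker.addSubgroupOf L) ∣ p ^ n := by
    rw [← card_ker_mul (n := n) hK, ← AddSubgroup.card_map_of_injective (f := L.subtype) L.subtype_injective,
      AddSubgroup.addSubgroupOf_map_subtype]
    exact AddSubgroup.card_dvd_of_le inf_le_left
  have h7 : (sq p L).relIndex L ∣ p ^ n :=
    (AddSubgroup.relIndex_dvd_of_le_left L h1).trans (by rw [AddSubgroup.relIndex, ← h5]; exact h6)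
  exact (Nat.dvd_prime_pow hp).mp h7

omit [Fact p.Prime] in
theorem cw_top {A : Type} [CommRing A] [Finite A] : cw p A 0 0 = 1 := by
  have : admSet p 0 A = {⊤} := by
    ext L
    simp only [mem_admSet, Adm, pow_zero, AddSubgroup.index_eq_one, mem_singleton]
    exact ⟨fun h => h.2.2, fun h => by simp [h]⟩
  simp [cw, this]

theorem cw_AR_base (a j f : ℕ) :
    cw p (AR p K a 0) j f = cw p (Fin (a + 1) → ZMod (p ^ K)) j f :=
  (cw_congr (RingEquiv.prodZeroRing _ _) j f).symm

theorem sum_prod_eq :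
    ∑ L ∈ admSet p 11 (Fin 10 → ZMod (p ^ 18)),
        (((List.range 7).map fun k => ((sq p L).relIndex L : ℚ) - p ^ (k + 4)).prod) =
      Nat.card {L : AddSubgroup (Fin 10 → ZMod (p ^ 18)) //
        Adm p 11 L ∧ (sq p L).relIndex L ≤ p ^ 3} *
        ((List.range 7).map fun k => (p : ℚ) ^ 3 - p ^ (k + 4)).prod := by
  classical
  have hp : p.Prime := Fact.out
  rw [← sum_filter_add_sum_filter_not _ (fun L => (sq p L).relIndex L ≤ p ^ 3),
    sum_eq_zero (s := filter (fun L => ¬ _) _) (f := _), add_zero, sum_congr rfl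
      (g := fun _ => ((List.range 7).map fun k => (p : ℚ) ^ 3 - p ^ (k + 4)).prod), sum_const,
      nsmul_eq_mul]
  · congr 2
    rw [← Nat.card_eq_finsetCard]
    exact Nat.card_congr (Equiv.subtypeEquivRight fun L => by simp [mem_admSet])
  · intro L hL
    simp only [mem_filter, mem_admSet] at hL
    rw [relIndex_eq_cube p 18 (by norm_num) L hL.1 hL.2]
    push_cast; rfl
  · intro L hL
    simp only [mem_filter, mem_admSet] at hL
    obtain ⟨k, hk, e⟩ := relIndex_pow (by norm_num) L hL.1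
    have h4 : 3 < k := by
      by_contra h
      exact hL.2 (e ▸ Nat.pow_le_pow_right hp.pos (not_lt.mp h))
    apply List.prod_eq_zero
    refine List.mem_map.mpr ⟨k - 4, List.mem_range.mpr (by omega), ?_⟩
    rw [e, Nat.sub_add_cancel h4]
    simp

end fixed

/-- moments of the relative index, twisted by a product -/
noncomputable def mom (j : ℕ) (Λ : List ℕ) : PF := fun p =>
  haveI : Fact (p : ℕ).Prime := ⟨p.2⟩
  ∑ L ∈ admSet p 11 (Fin 10 → ZMod (p ^ 18)), ((sq p L).relIndex L : ℚ) ^ j *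
    (Λ.map fun k => ((sq p L).relIndex L : ℚ) - (p : ℕ) ^ (k + 4)).prod

theorem mom_mem (h : ∀ j ≤ 7, mom j [] ∈ RK) (Λ : List ℕ) :
    ∀ j, j + Λ.length ≤ 7 → mom j Λ ∈ RK := by
  induction Λ with
  | nil => intro j hj; exact h j hj
  | cons k Λ ih =>
    intro j hj
    rw [List.length_cons] at hj
    have := RK.sub_mem (ih (j + 1) (by omega))
      (RK.mul_mem (RK.pow_mem pX_mem (k + 4)) (ih j (by omega)))
    convert this using 1
    funext p
    simp only [mom, List.map_cons, List.prod_cons, Pi.sub_apply, Pi.mul_apply, Pi.pow_apply, pX,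
      mul_sum, ← sum_sub_distrib]
    exact sum_congr rfl fun L _ => by ring

/-- the number of ten-tuples on no cubic -/
noncomputable def RcP : PF := fun p => Rc (ZMod p)

theorem poly_Rc (h : ∀ a f : ℕ, 1 ≤ f → f ≤ 18 → ∃ P : ℚ[X], ∀ (p : ℕ) [Fact p.Prime],
    (Nat.card {Λ : Subring (Fin (a + 1) → ℤ_[p]) //
      Λ.toAddSubgroup.index = p ^ (a + f) ∧ Irr Λ} : ℚ) = P.eval (p : ℚ)) :
    ∃ P : ℚ[X], P.degree ≤ (17 : ℕ) ∧ ∀ p : Nat.Primes,
      RcP p = P.eval (pX p) * ((pX p ^ 2 - 1) * (pX p - 1)) := by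
  have h0 : ∀ f ≤ 18, ∀ a, BB 18 0 f a 0 ∈ RK := by
    intro f hf a
    rcases Nat.eq_zero_or_pos f with rfl | hf0
    · convert RK.one_mem using 1
      funext p
      have : Fact (p : ℕ).Prime := ⟨p.2⟩
      exact cw_top
    · obtain ⟨P, hP⟩ := h a f hf0 hf
      convert poly_mem_RK P using 1
      funext p
      have : Fact (p : ℕ).Prime := ⟨p.2⟩
      obtain ⟨e⟩ := irr_equiv (p := p) (n := a) hf
      rw [pX, ← hP p, Nat.card_congr e, ← cw_zero, ← cw_AR_base]
      rfl
  have h1 : ∀ j ≤ 7, mom j [] ∈ RK := by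
    intro j hj
    have := RK.mul_mem (RK.pow_mem (RK.pow_mem pX_mem 169) j)
      (BB_mem (by norm_num) 18 h0 j 11 (by omega) 9 0)
    convert this using 1
    funext p
    have : Fact (p : ℕ).Prime := ⟨p.2⟩
    have hp := pX_ge p
    simp only [mom, List.map_nil, List.prod_nil, mul_one, Pi.mul_apply, Pi.pow_apply, BB]
    rw [cw_AR_base, cw, mul_sum]
    refine sum_congr rfl fun L hL => ?_
    rw [relIndex_eq (mem_admSet.mp hL), mul_pow]
    congr 2
    rw [div_eq_iff (pow_ne_zero _ (by exact_mod_cast p.2.ne_zero))]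
    simp only [Nat.card_pi, Nat.card_zmod, prod_const, card_univ, Fintype.card_fin, pX]
    push_cast; ring
  have h2 := mom_mem h1 (List.range 7) 0 (by simp)
  let Y : PF := fun p => haveI : Fact (p : ℕ).Prime := ⟨p.2⟩
    Nat.card {L : AddSubgroup (Fin 10 → ZMod (p ^ 18)) //
      Adm p 11 L ∧ (sq p L).relIndex L ≤ p ^ 3}
  have h3 : Y ∈ RK := by
    refine mem_RK_of_mul (ψ := ((List.range 7).map fun k => pX ^ 3 - pX ^ (k + 4)).prod) ?_ ?_ ?_
    · refine RK.list_prod_mem fun x hx => ?_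
      obtain ⟨k, _, rfl⟩ := List.mem_map.mp hx
      exact RK.sub_mem (RK.pow_mem pX_mem _) (RK.pow_mem pX_mem _)
    · intro p
      rw [Pi.list_prod_apply]
      refine List.prod_ne_zero fun hx => ?_
      simp only [List.map_map, List.mem_map] at hx
      obtain ⟨k, _, hk⟩ := hx
      exact pX_pow_ne (show 3 ≠ k + 4 by omega) p (sub_eq_zero.mp hk)
    · convert h2 using 1
      funext p
      have : Fact (p : ℕ).Prime := ⟨p.2⟩
      simp only [mom, pow_zero, one_mul]
      rw [sum_prod_eq, Pi.mul_apply, Pi.list_prod_apply, List.map_map]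
      rfl
  have hD : ∀ p : Nat.Primes, (pX p ^ 2 - 1) * (pX p - 1) ≠ 0 := by
    intro p
    have := pX_ge p
    exact mul_ne_zero (by nlinarith) (by linarith)
  have h4 : ∀ p : Nat.Primes, ∃ z : ℕ, RcP p = z * ((pX p ^ 2 - 1) * (pX p - 1)) ∧
      Y p = z * pX p ^ 5 := by
    intro p
    have : Fact (p : ℕ).Prime := ⟨p.2⟩
    have hp : 1 ≤ (p : ℕ) := p.2.pos
    have hp2 : 1 ≤ (p : ℕ) ^ 2 := Nat.one_le_pow _ _ hp
    have e := twoGen_count p 18 (by norm_num)
    have hco : Nat.Coprime (((p : ℕ) ^ 2 - 1) * (p - 1)) ((p : ℕ) ^ 5) := by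
      apply Nat.Coprime.pow_right
      apply Nat.Coprime.mul_left
      · exact (Nat.coprime_pow_right_iff (by norm_num : 0 < 2) _ _).mp
          ((Nat.coprime_self_sub_left hp2).mpr (Nat.coprime_one_left _))
      · exact (Nat.coprime_self_sub_left hp).mpr (Nat.coprime_one_left _)
    obtain ⟨z, hz⟩ := hco.dvd_of_dvd_mul_right (Dvd.intro_left _ e)
    have hz' : RcP p = z * ((pX p ^ 2 - 1) * (pX p - 1)) := by
      unfold RcP pX
      rw [hz]; push_cast [hp, hp2]; ring
    refine ⟨z, hz', mul_right_cancel₀ (hD p) ?_⟩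
    have e' := congrArg (Nat.cast : ℕ → ℚ) e
    push_cast [hp, hp2] at e'
    change Y p * ((pX p ^ 2 - 1) * (pX p - 1)) = RcP p * pX p ^ 5 at e'
    rw [e', hz']; ring
  choose z hz using h4
  have h5 : (fun p => (z p : ℚ)) ∈ RK := by
    refine mem_RK_of_mul (RK.pow_mem pX_mem 5) (pX_pow_ne_zero 5) ?_
    convert h3 using 1
    funext p
    exact (hz p).2.symm
  obtain ⟨P, hP⟩ := poly_of_int h5 fun p => ⟨z p, by simp⟩
  refine ⟨P, degree_le_of_bound P 17 4 fun p => ?_, fun p => by rw [← hP p]; exact (hz p).1⟩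
  have : Fact (p : ℕ).Prime := ⟨p.2⟩
  have hp := pX_ge p
  have h6 : RcP p ≤ pX p ^ 20 := by
    have h7 : Rc (ZMod p) ≤ Nat.card (Fin 10 → ZMod p × ZMod p) :=
      Nat.card_le_card_of_injective _ Subtype.val_injective
    simp only [Nat.card_pi, Nat.card_prod, Nat.card_zmod, prod_const, card_univ,
      Fintype.card_fin] at h7
    unfold RcP pX
    have : ((p : ℕ) * p) ^ 10 = (p : ℕ) ^ 20 := by ring
    exact_mod_cast this ▸ h7
  rw [← hP p, abs_of_nonneg (Nat.cast_nonneg _)]
  rw [(hz p).1] at h6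
  have h8 : pX p ^ 3 ≤ 4 * ((pX p ^ 2 - 1) * (pX p - 1)) := by nlinarith
  have h9 : (z p : ℚ) * pX p ^ 3 ≤ 4 * pX p ^ 17 * pX p ^ 3 := by
    have := mul_le_mul_of_nonneg_left h8 (Nat.cast_nonneg (α := ℚ) (z p))
    nlinarith
  exact le_of_mul_le_mul_right h9 (by positivity)

end Pool.Agent.MP_aed30a_nt.H54
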