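import Pool.Agent.MP_aed30a_nt.H54.Defs

/-! Weighted counts of admissible lattices and the recursion for a free coordinate. -/

namespace Pool.Agent.MP_aed30a_nt.H54
open Finset

variable {A A' : Type} [CommRing A] [CommRing A'] {p : ℕ}

theorem sq_le {L : AddSubgroup A} (h : ∀ x ∈ L, ∀ y ∈ L, (p : A) * (x * y) ∈ L) : sq p L ≤ L := by
  refine (AddSubgroup.closure_le _).mpr ?_
  rintro z ⟨x, hx, y, hy, rfl⟩
  exact h x hx y hy

theorem mem_sq {L : AddSubgroup A} {x y : A} (hx : x ∈ L) (hy : y ∈ L) :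
    (p : A) * (x * y) ∈ sq p L :=
  AddSubgroup.subset_closure ⟨x, hx, y, hy, rfl⟩

theorem adm_comap (π : A →+* A') (hπ : Function.Surjective π) (f : ℕ) (L : AddSubgroup A') :
    Adm p f (L.comap π.toAddMonoidHom) ↔ Adm p f L := by
  unfold Adm
  rw [AddSubgroup.index_comap_of_surjective _ (f := π.toAddMonoidHom) hπ]
  refine and_congr (by simp) (and_congr ⟨fun h x hx y hy => ?_, fun h x hx y hy => ?_⟩ Iff.rfl)
  · obtain ⟨x, rfl⟩ := hπ x
    obtain ⟨y, rfl⟩ := hπ y
    simpa using h x hx y hy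
  · simpa using h _ hx _ hy

theorem sq_map (π : A →+* A') (L : AddSubgroup A) :
    (sq p L).map π.toAddMonoidHom = sq p (L.map π.toAddMonoidHom) := by
  unfold sq
  rw [AddMonoidHom.map_closure]
  congr 1
  ext z
  constructor
  · rintro ⟨_, ⟨x, hx, y, hy, rfl⟩, rfl⟩
    exact ⟨π x, ⟨x, hx, rfl⟩, π y, ⟨y, hy, rfl⟩, by simp⟩
  · rintro ⟨_, ⟨x, hx, rfl⟩, _, ⟨y, hy, rfl⟩, rfl⟩
    exact ⟨_, ⟨x, hx, y, hy, rfl⟩, by simp⟩

/-- lattices containing the kernel correspond to lattices in the image -/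
noncomputable def admEquiv (p : ℕ) (π : A →+* A') (hπ : Function.Surjective π) (f : ℕ) :
    {L : AddSubgroup A' // Adm p f L} ≃
      {L : AddSubgroup A // Adm p f L ∧ π.toAddMonoidHom.ker ≤ L} :=
  Equiv.ofBijective (fun L => ⟨L.1.comap π.toAddMonoidHom, (adm_comap π hπ f _).mpr L.2,
    AddSubgroup.ker_le_comap _ _⟩) (by
      constructor
      · intro L L' h
        exact Subtype.ext (AddSubgroup.comap_injective (f := π.toAddMonoidHom) hπ
          (congrArg Subtype.val h))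
      · rintro ⟨L, hL, hk⟩
        have h := AddSubgroup.comap_map_eq_self hk
        exact ⟨⟨L.map π.toAddMonoidHom, (adm_comap π hπ f _).mp (by rw [h]; exact hL)⟩,
          Subtype.ext h⟩)

instance finite_addSubgroup [Finite A] : Finite (AddSubgroup A) :=
  Finite.of_injective _ SetLike.coe_injective

/-- the finite set of admissible lattices -/
noncomputable def admSet (p f : ℕ) (A : Type) [CommRing A] [Finite A] : Finset (AddSubgroup A) :=
  (Set.toFinite {L : AddSubgroup A | Adm p f L}).toFinset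

theorem mem_admSet [Finite A] {f : ℕ} {L : AddSubgroup A} : L ∈ admSet p f A ↔ Adm p f L := by
  simp [admSet]

/-- weighted count -/
noncomputable def cw (p : ℕ) (A : Type) [CommRing A] [Finite A] (j f : ℕ) : ℚ :=
  ∑ L ∈ admSet p f A, ((Nat.card (sq p L) : ℚ)⁻¹) ^ j

theorem cw_zero [Finite A] (f : ℕ) : cw p A 0 f = Nat.card {L : AddSubgroup A // Adm p f L} := by
  simp only [cw, pow_zero, sum_const, nsmul_eq_mul, mul_one, Nat.cast_inj]
  rw [admSet, ← Set.ncard_eq_toFinset_card]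
  rfl

open Classical in
theorem sum_ker [Finite A] [Finite A'] (π : A →+* A') (hπ : Function.Surjective π) (f : ℕ)
    (g : AddSubgroup A' → ℚ) :
    ∑ L ∈ admSet p f A with π.toAddMonoidHom.ker ≤ L, g (L.map π.toAddMonoidHom) =
      ∑ L ∈ admSet p f A', g L := by
  symm
  refine sum_nbij' (fun L => L.comap π.toAddMonoidHom) (fun L => L.map π.toAddMonoidHom)
    ?_ ?_ ?_ ?_ ?_
  · intro L hL
    simp only [mem_filter, mem_admSet] at hL ⊢
    exact ⟨(adm_comap π hπ f _).mpr hL, AddSubgroup.ker_le_comap _ _⟩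
  · intro L hL
    simp only [mem_filter, mem_admSet] at hL ⊢
    exact (adm_comap π hπ f _).mp (by rw [AddSubgroup.comap_map_eq_self hL.2]; exact hL.1)
  · intro L _
    exact AddSubgroup.map_comap_eq_self_of_surjective (f := π.toAddMonoidHom) hπ L
  · intro L hL
    simp only [mem_filter, mem_admSet] at hL
    exact AddSubgroup.comap_map_eq_self hL.2
  · intro L _
    rw [AddSubgroup.map_comap_eq_self_of_surjective (f := π.toAddMonoidHom) hπ L]

theorem cw_congr [Finite A] [Finite A'] (e : A ≃+* A') (j f : ℕ) : cw p A j f = cw p A' j f := by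
  classical
  unfold cw
  rw [← sum_ker e.toRingHom e.surjective f]
  have hk : e.toRingHom.toAddMonoidHom.ker = ⊥ :=
    (AddMonoidHom.ker_eq_bot_iff _).mpr e.injective
  rw [filter_true_of_mem (fun L _ => by rw [hk]; exact bot_le)]
  refine sum_congr rfl fun L _ => ?_
  rw [← sq_map, AddSubgroup.card_map_of_injective (f := e.toRingHom.toAddMonoidHom) e.injective]

section free
variable [Fact p.Prime]

theorem card_dual (Q : Type) [AddCommGroup Q] [Finite Q] [Module (ZMod p) Q] :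
    Nat.card (Q →+ ZMod p) = Nat.card Q := by
  have e : (Q →+ ZMod p) ≃ Module.Dual (ZMod p) Q := (AddMonoidHom.toZModLinearMapEquiv p).toEquiv
  have : Module.Finite (ZMod p) Q := Module.Finite.of_finite
  rw [Nat.card_congr e, Module.natCard_eq_pow_finrank (K := ZMod p) (V := Module.Dual (ZMod p) Q),
    Module.natCard_eq_pow_finrank (K := ZMod p) (V := Q), Subspace.dual_finrank_eq]

theorem card_hom (Q : Type) [AddCommGroup Q] [Finite Q] (hQ : ∀ x : Q, p • x = 0) :
    Nat.card (Q →+ ZMod p) = Nat.card Q :=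
  @card_dual p _ Q _ _ (AddCommGroup.zmodModule hQ)

theorem sq_prod (L : AddSubgroup (A × ZMod p)) :
    sq p L = (sq p (L.map (AddMonoidHom.fst A (ZMod p)))).map (AddMonoidHom.inl A (ZMod p)) := by
  unfold sq
  rw [AddMonoidHom.map_closure]
  congr 1
  ext z
  constructor
  · rintro ⟨x, hx, y, hy, rfl⟩
    exact ⟨_, ⟨x.1, ⟨x, hx, rfl⟩, y.1, ⟨y, hy, rfl⟩, rfl⟩, by ext <;> simp⟩
  · rintro ⟨_, ⟨_, ⟨x, hx, rfl⟩, _, ⟨y, hy, rfl⟩, rfl⟩, rfl⟩
    exact ⟨x, hx, y, hy, by ext <;> simp⟩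

theorem card_sq_prod (L : AddSubgroup (A × ZMod p)) :
    Nat.card (sq p L) = Nat.card (sq p (L.map (AddMonoidHom.fst A (ZMod p)))) := by
  rw [sq_prod, AddSubgroup.card_map_of_injective]
  intro a b h
  simpa using h

theorem mem_of_snd {L : AddSubgroup (A × ZMod p)} (h : ((0 : A), (1 : ZMod p)) ∈ L) (a : ZMod p) :
    ((0 : A), a) ∈ L := by
  have := L.nsmul_mem h a.val
  simpa using this

theorem snd_eq_zero {L : AddSubgroup (A × ZMod p)} (h : ((0 : A), (1 : ZMod p)) ∉ L) {a : ZMod p}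
    (ha : ((0 : A), a) ∈ L) : a = 0 := by
  by_contra h0
  apply h
  have := L.nsmul_mem ha (a⁻¹).val
  simpa [h0] using this

/-- the graph of a homomorphism -/
def graph (L : AddSubgroup A) (θ : L →+ ZMod p) : AddSubgroup (A × ZMod p) :=
  (L.subtype.prod θ).range

theorem mem_graph {L : AddSubgroup A} {θ : L →+ ZMod p} {z : A × ZMod p} :
    z ∈ graph L θ ↔ ∃ h : z.1 ∈ L, θ ⟨z.1, h⟩ = z.2 := by
  constructor
  · rintro ⟨x, rfl⟩
    exact ⟨x.2, rfl⟩
  · rintro ⟨h, h'⟩
    exact ⟨⟨z.1, h⟩, Prod.ext rfl h'⟩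

theorem card_graph (L : AddSubgroup A) (θ : L →+ ZMod p) : Nat.card (graph L θ) = Nat.card L := by
  refine (Nat.card_congr (AddMonoidHom.ofInjective (f := L.subtype.prod θ) ?_).toEquiv).symm
  intro a b h
  exact Subtype.ext (congrArg Prod.fst h)

theorem map_graph (L : AddSubgroup A) (θ : L →+ ZMod p) :
    (graph L θ).map (AddMonoidHom.fst A (ZMod p)) = L := by
  ext x
  constructor
  · rintro ⟨z, hz, rfl⟩
    exact (mem_graph.mp hz).1
  · intro hx
    exact ⟨(x, θ ⟨x, hx⟩), mem_graph.mpr ⟨hx, rfl⟩, rfl⟩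

theorem exists_graph {L' : AddSubgroup (A × ZMod p)} (h : ((0 : A), (1 : ZMod p)) ∉ L')
    (L : AddSubgroup A) (hL : L'.map (AddMonoidHom.fst A (ZMod p)) = L) :
    ∃ θ : L →+ ZMod p, graph L θ = L' := by
  have hex : ∀ x : L, ∃ a : ZMod p, ((x : A), a) ∈ L' := by
    rintro ⟨x, hx⟩
    rw [← hL] at hx
    obtain ⟨z, hz, rfl⟩ := hx
    exact ⟨z.2, hz⟩
  have huniq : ∀ (x : A) (a b : ZMod p), (x, a) ∈ L' → (x, b) ∈ L' → a = b := by
    intro x a b ha hb
    have := L'.sub_mem ha hb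
    simp only [Prod.mk_sub_mk, sub_self] at this
    exact sub_eq_zero.mp (snd_eq_zero h this)
  choose t ht using hex
  refine ⟨AddMonoidHom.mk' t fun x y => huniq _ _ _ (ht (x + y)) (L'.add_mem (ht x) (ht y)), ?_⟩
  ext z
  rw [mem_graph]
  constructor
  · rintro ⟨hz, h'⟩
    have := ht ⟨z.1, hz⟩
    simp only [AddMonoidHom.mk'_apply] at h'
    rwa [h'] at this
  · intro hz
    have hz1 : z.1 ∈ L := by rw [← hL]; exact ⟨z, hz, rfl⟩
    exact ⟨hz1, huniq _ _ _ (ht ⟨z.1, hz1⟩) hz⟩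

theorem index_graph [Finite A] (L : AddSubgroup A) (θ : L →+ ZMod p) :
    (graph L θ).index = L.index * p := by
  have h1 := (graph L θ).card_mul_index
  have h2 := L.card_mul_index
  rw [card_graph, Nat.card_prod, Nat.card_zmod, ← h2, mul_assoc] at h1
  exact Nat.eq_of_mul_eq_mul_left Nat.card_pos h1

omit [Fact p.Prime] in
theorem nsmul_quot {f : ℕ} {L : AddSubgroup A} (hL : Adm p f L)
    (x : L ⧸ (sq p L).addSubgroupOf L) : p • x = 0 := by
  induction x using QuotientAddGroup.induction_on with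
  | H x =>
    rw [← QuotientAddGroup.mk_nsmul, QuotientAddGroup.eq_zero_iff, AddSubgroup.mem_addSubgroupOf]
    have := mem_sq (p := p) x.2 hL.1
    simpa using this

theorem card_theta [Finite A] (θ₀ : A →+* ZMod p) {f : ℕ} {L : AddSubgroup A} (hL : Adm p f L) :
    Nat.card {θ : L →+ ZMod p // (∀ z : L, (z : A) ∈ sq p L → θ z = 0) ∧ θ ⟨1, hL.1⟩ = 1} * p =
      (sq p L).relIndex L := by
  set H := (sq p L).addSubgroupOf L with hH
  let ev : ((L ⧸ H) →+ ZMod p) →+ ZMod p :=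
    AddMonoidHom.eval (QuotientAddGroup.mk (⟨1, hL.1⟩ : L))
  have h0 : ∀ z ∈ sq p L, θ₀ z = 0 := by
    intro z hz
    have : sq p L ≤ θ₀.toAddMonoidHom.ker := by
      refine (AddSubgroup.closure_le _).mpr ?_
      rintro z ⟨x, _, y, _, rfl⟩
      simp
    exact this hz
  let φ₀ : (L ⧸ H) →+ ZMod p := QuotientAddGroup.lift H (θ₀.toAddMonoidHom.comp L.subtype)
    (fun z hz => h0 z hz)
  have hφ₀ : ev φ₀ = 1 := by simp [ev, φ₀]
  have hsurj : Function.Surjective ev := by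
    intro a
    refine ⟨a.val • φ₀, ?_⟩
    rw [map_nsmul, hφ₀]; simp
  have e1 : {θ : L →+ ZMod p // (∀ z : L, (z : A) ∈ sq p L → θ z = 0) ∧ θ ⟨1, hL.1⟩ = 1} ≃
      ev.ker :=
    { toFun := fun θ => ⟨QuotientAddGroup.lift H θ.1 (fun z hz => θ.2.1 z hz) - φ₀, by
        rw [AddMonoidHom.mem_ker, map_sub, hφ₀]
        exact sub_eq_zero.mpr θ.2.2⟩
      invFun := fun φ => ⟨(φ.1 + φ₀).comp (QuotientAddGroup.mk' H), fun z hz => by
        have : (QuotientAddGroup.mk' H) z = 0 := (QuotientAddGroup.eq_zero_iff z).mpr hz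
        rw [AddMonoidHom.comp_apply, this, map_zero], by
        have h1 : ev (φ.1 + φ₀) = 1 := by rw [map_add, hφ₀, φ.2, zero_add]
        exact h1⟩
      left_inv := fun θ => by
        ext z; simp only [sub_add_cancel]; rfl
      right_inv := fun φ => by
        ext z
        exact add_sub_cancel_right (φ.1 (QuotientAddGroup.mk z)) (φ₀ (QuotientAddGroup.mk z)) }
  rw [Nat.card_congr e1]
  have h2 := ev.ker.card_mul_index
  rw [AddSubgroup.index_ker, AddMonoidHom.range_eq_top.mpr hsurj, AddSubgroup.card_top,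
    Nat.card_zmod, card_hom _ (nsmul_quot hL)] at h2
  exact h2

open Classical in
theorem card_fiber [Finite A] (θ₀ : A →+* ZMod p) {f : ℕ} {L : AddSubgroup A} (hL : Adm p f L) :
    #{L' ∈ {L' ∈ admSet p (f + 1) (A × ZMod p) | ((0 : A), (1 : ZMod p)) ∉ L'} |
        L'.map (AddMonoidHom.fst A (ZMod p)) = L} * p = (sq p L).relIndex L := by
  rw [← card_theta θ₀ hL]
  congr 1
  rw [← Nat.card_eq_finsetCard]
  symm
  refine Nat.card_congr (Equiv.ofBijective (fun θ => ⟨graph L θ.1, ?_⟩) ⟨?_, ?_⟩)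
  · simp only [mem_filter, mem_admSet]
    refine ⟨⟨⟨mem_graph.mpr ⟨hL.1, θ.2.2⟩, ?_, ?_⟩, ?_⟩, map_graph _ _⟩
    · intro x hx y hy
      obtain ⟨hx, _⟩ := mem_graph.mp hx
      obtain ⟨hy, _⟩ := mem_graph.mp hy
      refine mem_graph.mpr ⟨hL.2.1 _ hx _ hy, ?_⟩
      rw [θ.2.1 _ (mem_sq hx hy)]
      simp
    · rw [index_graph, hL.2.2, pow_succ]
    · intro h
      obtain ⟨h, h'⟩ := mem_graph.mp h
      have : (⟨_, h⟩ : L) = 0 := rfl
      rw [this, map_zero] at h'
      exact zero_ne_one h'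
  · intro θ θ' h
    have h1 : graph L θ.1 = graph L θ'.1 := congrArg Subtype.val h
    ext z
    have h2 : ((z : A), θ.1 z) ∈ graph L θ'.1 := by rw [← h1]; exact mem_graph.mpr ⟨z.2, rfl⟩
    exact (mem_graph.mp h2).2.symm
  · rintro ⟨L', hL'⟩
    simp only [mem_filter, mem_admSet] at hL'
    obtain ⟨⟨hA, he⟩, hm⟩ := hL'
    obtain ⟨θ, rfl⟩ := exists_graph he L hm
    refine ⟨⟨θ, fun z hz => ?_, (mem_graph.mp hA.1).2⟩, rfl⟩
    have h1 : ((z : A), (0 : ZMod p)) ∈ sq p (graph L θ) := by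
      rw [sq_prod, map_graph]
      exact ⟨z, hz, rfl⟩
    exact (mem_graph.mp (sq_le hA.2.1 h1)).2

theorem adm_map_fst [Finite A] {f : ℕ} {L' : AddSubgroup (A × ZMod p)} (hL : Adm p (f + 1) L')
    (he : ((0 : A), (1 : ZMod p)) ∉ L') : Adm p f (L'.map (AddMonoidHom.fst A (ZMod p))) := by
  refine ⟨⟨1, hL.1, rfl⟩, ?_, ?_⟩
  · rintro _ ⟨x, hx, rfl⟩ _ ⟨y, hy, rfl⟩
    exact ⟨_, hL.2.1 x hx y hy, by simp⟩
  · obtain ⟨θ, hθ⟩ := exists_graph he _ rfl
    have h := index_graph _ θ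
    rw [hθ, hL.2.2, pow_succ] at h
    exact (Nat.eq_of_mul_eq_mul_right (Fact.out : p.Prime).pos h).symm

theorem relIndex_eq [Finite A] {f : ℕ} {L : AddSubgroup A} (hL : Adm p f L) :
    ((sq p L).relIndex L : ℚ) = Nat.card A / p ^ f * (Nat.card (sq p L) : ℚ)⁻¹ := by
  have h1 := ((sq p L).addSubgroupOf L).card_mul_index
  rw [Nat.card_congr (AddSubgroup.addSubgroupOfEquivOfLe (sq_le hL.2.1)).toEquiv] at h1
  have h2 := L.card_mul_index
  rw [hL.2.2, ← h1] at h2
  have h3 : (Nat.card (sq p L) : ℚ) ≠ 0 := by exact_mod_cast Nat.card_pos.ne'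
  have h4 : (p : ℚ) ≠ 0 := by exact_mod_cast (Fact.out : p.Prime).ne_zero
  rw [← h2, AddSubgroup.relIndex]
  push_cast
  field_simp

theorem cw_free [Finite A] (θ₀ : A →+* ZMod p) (j f : ℕ) :
    cw p (A × ZMod p) j (f + 1) =
      cw p A j (f + 1) + Nat.card A / p ^ (f + 1) * cw p A (j + 1) f := by
  classical
  have h4 : (p : ℚ) ≠ 0 := by exact_mod_cast (Fact.out : p.Prime).ne_zero
  unfold cw
  rw [← sum_filter_add_sum_filter_not _ (fun L' => ((0 : A), (1 : ZMod p)) ∈ L')]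
  congr 1
  · rw [← sum_ker (RingHom.fst A (ZMod p)) Prod.fst_surjective]
    refine sum_congr (filter_congr fun L _ => ⟨fun h z hz => ?_, fun h => h rfl⟩)
      fun L _ => by rw [card_sq_prod]; rfl
    have : z = (0, z.2) := Prod.ext hz rfl
    rw [this]; exact mem_of_snd h _
  · rw [← sum_fiberwise_of_maps_to (t := admSet p f A)
      (g := fun L' => L'.map (AddMonoidHom.fst A (ZMod p))), mul_sum]
    · refine sum_congr rfl fun L hL => ?_
      rw [mem_admSet] at hL
      rw [sum_congr rfl (g := fun _ => ((Nat.card (sq p L) : ℚ)⁻¹) ^ j)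
        (fun L' hL' => by rw [card_sq_prod, (mem_filter.mp hL').2]), sum_const, nsmul_eq_mul]
      have h1 := congrArg (Nat.cast : ℕ → ℚ) (card_fiber θ₀ hL)
      rw [relIndex_eq hL, Nat.cast_mul, ← eq_div_iff h4] at h1
      rw [pow_succ _ j, pow_succ]
      convert congrArg (· * ((Nat.card (sq p L) : ℚ)⁻¹) ^ j) h1 using 1
      field_simp
    · intro L' hL'
      simp only [mem_filter, mem_admSet] at hL' ⊢
      exact adm_map_fst hL'.1 hL'.2

theorem cw_free_zero [Finite A] (j : ℕ) : cw p (A × ZMod p) j 0 = cw p A j 0 := by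
  classical
  unfold cw
  rw [← sum_ker (RingHom.fst A (ZMod p)) Prod.fst_surjective, filter_true_of_mem]
  · exact sum_congr rfl fun L _ => by rw [card_sq_prod]; rfl
  · intro L hL
    have := (mem_admSet.mp hL).2.2
    rw [pow_zero, AddSubgroup.index_eq_one] at this
    rw [this]; exact le_top

end free

end Pool.Agent.MP_aed30a_nt.H54
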