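import Pool.Agent.MP_aed30a_nt.H54.Defs

namespace Pool.Agent.MP_aed30a_nt.H54
open Finset

variable {F : Type} [Field F] [Fintype F] [DecidableEq F]

omit [Fintype F] [DecidableEq F] in
theorem d4_four (h2 : (2 : F) ≠ 0) : (4 : F) ≠ 0 := by
  have : (4 : F) = 2 * 2 := by norm_num
  rw [this]; exact mul_ne_zero h2 h2

/-- the affine bijection `x ↦ u x + b` -/
def d4_aff (u b : F) (hu : u ≠ 0) : F ≃ F where
  toFun x := u * x + b
  invFun y := (y - b) / u
  left_inv x := by field_simp; ring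
  right_inv y := by field_simp; ring

omit [Fintype F] [DecidableEq F] in
theorem d4_aff_apply (u b : F) (hu : u ≠ 0) (x : F) : d4_aff u b hu x = u * x + b := rfl

omit [DecidableEq F] in
theorem d4_card_aff (u b : F) (hu : u ≠ 0) (p : F → Prop) [DecidablePred p] :
    #{x : F | p (u * x + b)} = #{x : F | p x} := by
  refine card_bij (fun x _ => u * x + b) ?_ ?_ ?_
  · intro x hx; simpa using hx
  · intro x _ y _ h
    exact mul_left_cancel₀ hu (add_right_cancel h)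
  · intro y hy
    refine ⟨(y - b) / u, ?_, by field_simp; ring⟩
    have : u * ((y - b) / u) + b = y := by field_simp; ring
    simpa [this] using hy

omit [DecidableEq F] in
theorem d4_sum_aff (u b : F) (hu : u ≠ 0) (f : F → ℚ) :
    ∑ x : F, f (u * x + b) = ∑ x : F, f x :=
  Equiv.sum_comp (d4_aff u b hu) f

theorem d4_sum_erase (u : F) (hu : u ≠ 0) (f : F → ℚ) :
    ∑ x ∈ univ.erase (0 : F), f (u * x) = ∑ x ∈ univ.erase (0 : F), f x := by
  have h1 := d4_sum_aff u 0 hu f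
  simp only [add_zero] at h1
  rw [← add_sum_erase _ _ (mem_univ (0 : F)), ← add_sum_erase _ f (mem_univ (0 : F))] at h1
  simp only [mul_zero] at h1
  exact add_left_cancel h1

theorem rc_eq_sqc (h2 : (2 : F) ≠ 0) (a b c : F) (ha : a ≠ 0) :
    rc a b c = sqc (b ^ 2 - 4 * a * c) := by
  unfold rc sqc
  rw [← d4_card_aff (2 * a) b (mul_ne_zero h2 ha) (fun w => w ^ 2 = b ^ 2 - 4 * a * c)]
  congr 1
  ext y
  simp only [mem_filter, mem_univ, true_and]
  constructor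
  · intro h
    linear_combination (4 * a) * h
  · intro h
    have h4 : (4 * a) * (a * y ^ 2 + b * y + c) = 0 := by linear_combination h
    rcases mul_eq_zero.1 h4 with h5 | h5
    · exact absurd h5 (mul_ne_zero (d4_four h2) ha)
    · exact h5

theorem sqc_cases (h2 : (2 : F) ≠ 0) (v : F) :
    (v = 0 ∧ sqc v = 1) ∨ (v ≠ 0 ∧ sqc v = 0) ∨ (v ≠ 0 ∧ sqc v = 2) := by
  by_cases hv : v = 0
  · left
    refine ⟨hv, ?_⟩
    unfold sqc
    rw [card_eq_one]
    refine ⟨0, ?_⟩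
    ext w
    simp [hv]
  · right
    by_cases hw : ∃ w : F, w ^ 2 = v
    · right
      refine ⟨hv, ?_⟩
      obtain ⟨w, hw⟩ := hw
      have hw0 : w ≠ 0 := by
        rintro rfl
        apply hv
        rw [← hw]; ring
      unfold sqc
      rw [card_eq_two]
      refine ⟨w, -w, ?_, ?_⟩
      · intro h
        have : 2 * w = 0 := by linear_combination h
        exact (mul_ne_zero h2 hw0) this
      · ext z
        simp only [mem_filter, mem_univ, true_and, mem_insert, mem_singleton]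
        rw [← hw]
        exact sq_eq_sq_iff_eq_or_eq_neg
    · left
      refine ⟨hv, ?_⟩
      unfold sqc
      rw [card_eq_zero, filter_eq_empty_iff]
      intro w _ h
      exact hw ⟨w, h⟩

theorem d4_sqc_scale (v : F) (hv : v ≠ 0) (z : F) : sqc (v ^ 2 * z) = sqc z := by
  unfold sqc
  rw [← d4_card_aff v 0 hv (fun w => w ^ 2 = v ^ 2 * z)]
  congr 1
  ext w
  simp only [mem_filter, mem_univ, true_and, add_zero, mul_pow]
  exact mul_right_inj' (pow_ne_zero 2 hv)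

theorem d4_prof_eq (g h : F → F) (u v b : F) (hu : u ≠ 0) (hv : v ≠ 0)
    (H : ∀ x, h x = v ^ 2 * g (u * x + b)) : prof h = prof g := by
  unfold prof
  simp only [H, d4_sqc_scale v hv]
  rw [d4_card_aff u b hu (fun x => sqc (g x) = 1), d4_card_aff u b hu (fun x => sqc (g x) = 2)]

theorem d4_row_eq (τ : ℕ × ℕ → ℚ) (e4 e3 e2 e1 f4 f3 f2 f1 u v b k : F) (hu : u ≠ 0) (hv : v ≠ 0)
    (H : ∀ x, f4 * x ^ 4 + f3 * x ^ 3 + f2 * x ^ 2 + f1 * x + k =
      v ^ 2 * (e4 * (u * x + b) ^ 4 + e3 * (u * x + b) ^ 3 + e2 * (u * x + b) ^ 2 +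
        e1 * (u * x + b))) :
    row τ f4 f3 f2 f1 = row τ e4 e3 e2 e1 := by
  unfold row
  rw [← d4_sum_aff (v ^ 2) k (pow_ne_zero 2 hv)
    (fun c => τ (prof fun x => f4 * x ^ 4 + f3 * x ^ 3 + f2 * x ^ 2 + f1 * x + c))]
  refine sum_congr rfl fun c _ => ?_
  congr 1
  refine d4_prof_eq _ _ u v b hu hv fun x => ?_
  linear_combination H x

theorem d4_depressed (τ : ℕ × ℕ → ℚ) :
    ∑ A : F, ∑ B : F, row τ 1 0 A B = H4 F τ := by
  unfold H4
  rw [← add_sum_erase _ _ (mem_univ (0 : F))]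
  have h1 : ∀ A ∈ univ.erase (0 : F), ∑ B : F, row τ 1 0 A B =
      row τ 1 0 A 0 + ∑ t ∈ univ.erase (0 : F), row τ 1 0 A (A * t) := by
    intro A hA
    rw [← add_sum_erase _ _ (mem_univ (0 : F)),
      d4_sum_erase A (ne_of_mem_erase hA) (fun B => row τ 1 0 A B)]
  rw [sum_congr rfl h1, sum_add_distrib, sum_comm]
  have h2 : ∀ t ∈ univ.erase (0 : F), ∑ A ∈ univ.erase (0 : F), row τ 1 0 A (A * t) =
      ∑ a ∈ univ.erase (0 : F), row τ 1 0 a a := by
    intro t ht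
    have ht0 : t ≠ 0 := ne_of_mem_erase ht
    rw [← d4_sum_erase (t ^ 2) (pow_ne_zero 2 ht0) (fun A => row τ 1 0 A (A * t))]
    refine sum_congr rfl fun a _ => ?_
    refine d4_row_eq τ 1 0 a a 1 0 _ _ t⁻¹ (t ^ 2) 0 0 (inv_ne_zero ht0) (pow_ne_zero 2 ht0)
      fun x => ?_
    field_simp
    ring
  rw [sum_congr rfl h2, sum_const, card_erase_of_mem (mem_univ _), card_univ, nsmul_eq_mul,
    Nat.cast_sub Fintype.card_pos]
  push_cast
  ring

theorem sum_quartic (h2 : (2 : F) ≠ 0) (τ : ℕ × ℕ → ℚ) :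
    ∑ g : F × F × F × F, τ (prof fun x : F =>
        x ^ 4 + g.1 * x ^ 3 + g.2.1 * x ^ 2 + g.2.2.1 * x + g.2.2.2) =
      Fintype.card F * H4 F τ := by
  have h4 := d4_four h2
  simp only [Fintype.sum_prod_type]
  have key : ∀ g1 : F, ∑ g2 : F, ∑ g3 : F, ∑ g4 : F, τ (prof fun x : F =>
      x ^ 4 + g1 * x ^ 3 + g2 * x ^ 2 + g3 * x + g4) = H4 F τ := by
    intro g1
    rw [← d4_depressed]
    obtain ⟨s, rfl⟩ : ∃ s, g1 = 4 * s := ⟨g1 / 4, by field_simp⟩
    rw [← d4_sum_aff 1 (-(6 * s ^ 2)) one_ne_zero (fun A => ∑ B : F, row τ 1 0 A B)]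
    refine sum_congr rfl fun g2 _ => ?_
    rw [← d4_sum_aff 1 (8 * s ^ 3 - 2 * g2 * s) one_ne_zero
      (fun B => row τ 1 0 (1 * g2 + -(6 * s ^ 2)) B)]
    refine sum_congr rfl fun g3 _ => ?_
    rw [d4_row_eq τ 1 (4 * s) g2 g3 1 0 _ _ 1 1 (-s) (-3 * s ^ 4 + g2 * s ^ 2 - g3 * s)
      one_ne_zero one_ne_zero (fun x => by ring)]
    unfold row
    simp only [one_mul]
  rw [sum_congr rfl fun g1 _ => key g1, sum_const, card_univ, nsmul_eq_mul]

theorem sum_cubic (h3 : (3 : F) ≠ 0) (τ : ℕ × ℕ → ℚ) (a : F) (ha : a ≠ 0) :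
    ∑ g : F × F × F, τ (prof fun x : F => a * x ^ 3 + g.1 * x ^ 2 + g.2.1 * x + g.2.2) =
      Fintype.card F * H3 F τ := by
  simp only [Fintype.sum_prod_type]
  have key : ∀ g1 : F, ∑ g2 : F, ∑ g3 : F, τ (prof fun x : F =>
      a * x ^ 3 + g1 * x ^ 2 + g2 * x + g3) = H3 F τ := by
    intro g1
    unfold H3
    obtain ⟨s, rfl⟩ : ∃ s, g1 = 3 * s := ⟨g1 / 3, by field_simp⟩
    rw [← d4_sum_aff a (-(3 * s ^ 2)) ha (fun A => row τ 0 1 0 A)]
    refine sum_congr rfl fun g2 _ => ?_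
    rw [d4_row_eq τ 0 a (3 * s) g2 0 1 0 _ a⁻¹ a (-(s / a)) (2 * s ^ 3 - a * g2 * s)
      (inv_ne_zero ha) ha (fun x => by field_simp; ring)]
    unfold row
    simp only [zero_mul, zero_add]
  rw [sum_congr rfl fun g1 _ => key g1, sum_const, card_univ, nsmul_eq_mul]

theorem sum_quadratic (h2 : (2 : F) ≠ 0) (τ : ℕ × ℕ → ℚ) :
    ∑ g : F × F × F, τ (prof fun x : F => g.1 * x ^ 2 + g.2.1 * x + g.2.2) = H2 F τ := by
  simp only [Fintype.sum_prod_type]
  have h0 : ∀ g1 g2 : F, ∑ g3 : F, τ (prof fun x : F => g1 * x ^ 2 + g2 * x + g3) =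
      row τ 0 0 g1 g2 := by
    intro g1 g2
    unfold row
    simp only [zero_mul, zero_add]
  simp only [h0]
  unfold H2
  rw [← add_sum_erase _ _ (mem_univ (0 : F))]
  have h1 : ∀ A ∈ univ.erase (0 : F), ∑ B : F, row τ 0 0 A B =
      (Fintype.card F : ℚ) * row τ 0 0 A 0 := by
    intro A hA
    have hA0 : A ≠ 0 := ne_of_mem_erase hA
    have : ∀ B : F, row τ 0 0 A B = row τ 0 0 A 0 := by
      intro B
      refine d4_row_eq τ 0 0 A 0 0 0 A B 1 1 (B / (2 * A)) (B ^ 2 / (4 * A)) one_ne_zero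
        one_ne_zero fun x => ?_
      have h4 := d4_four h2
      field_simp
      ring
    simp only [this]
    rw [sum_const, card_univ, nsmul_eq_mul]
  rw [sum_congr rfl h1, ← mul_sum, ← add_sum_erase _ _ (mem_univ (0 : F))]
  have h3 : ∀ B ∈ univ.erase (0 : F), row τ 0 0 0 B = row τ (0 : F) 0 0 1 := by
    intro B hB
    exact d4_row_eq τ 0 0 0 1 0 0 0 B B 1 0 0 (ne_of_mem_erase hB) one_ne_zero fun x => by ring
  rw [sum_congr rfl h3, sum_const, card_erase_of_mem (mem_univ _), card_univ, nsmul_eq_mul,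
    Nat.cast_sub Fintype.card_pos]
  push_cast
  ring

theorem d4_N2 (c : Fin 6 → F) :
    N2 c = ∑ x : F, rc (c 5) (c 4 * x + c 2) (c 3 * x ^ 2 + c 1 * x + c 0) := by
  unfold N2 rc
  rw [card_filter, Fintype.sum_prod_type]
  refine sum_congr rfl fun x _ => ?_
  rw [card_filter]
  refine sum_congr rfl fun y _ => ?_
  have : ev2 c (x, y) = c 5 * y ^ 2 + (c 4 * x + c 2) * y + (c 3 * x ^ 2 + c 1 * x + c 0) := by
    unfold ev2
    ring
  rw [this]

theorem d4_sum_sqc (h2 : (2 : F) ≠ 0) (g : F → F) :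
    ∑ x : F, sqc (g x) = (prof g).1 + 2 * (prof g).2 := by
  unfold prof
  simp only [card_filter]
  rw [mul_sum, ← sum_add_distrib]
  refine sum_congr rfl fun x _ => ?_
  rcases sqc_cases h2 (g x) with h | h | h <;> simp [h.2]

theorem d4_rc_lin (u v : F) (hu : u ≠ 0) : rc 0 u v = 1 := by
  unfold rc
  rw [card_eq_one]
  refine ⟨-v / u, ?_⟩
  ext y
  simp only [mem_filter, mem_univ, true_and, mem_singleton]
  constructor
  · intro h
    field_simp
    linear_combination h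
  · rintro rfl
    field_simp
    ring

theorem d4_rc_const (v : F) : rc 0 0 v = if v = 0 then Fintype.card F else 0 := by
  unfold rc
  split_ifs with h
  · simp [h]
  · simp [h]

/-- reordering of the coefficients of a conic -/
def d4_coef (F : Type) : (F × F × F × F × F × F) ≃ (Fin 6 → F) where
  toFun t := ![t.2.2.2.2.2, t.2.2.2.2.1, t.2.2.1, t.2.2.2.1, t.2.1, t.1]
  invFun c := (c 5, c 4, c 2, c 3, c 1, c 0)
  left_inv t := by simp
  right_inv c := by
    funext i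
    fin_cases i <;> simp

/-- number of points of a conic in terms of its coefficients -/
def d4_M (c5 c4 c2 c3 c1 c0 : F) : ℕ :=
  ∑ x : F, rc c5 (c4 * x + c2) (c3 * x ^ 2 + c1 * x + c0)

theorem d4_caseA (h2 : (2 : F) ≠ 0) (G : ℕ → ℚ) (c5 c4 c2 : F) (h5 : c5 ≠ 0) :
    ∑ c3 : F, ∑ c1 : F, ∑ c0 : F, G (d4_M c5 c4 c2 c3 c1 c0) =
      H2 F (fun s => G (s.1 + 2 * s.2)) := by
  rw [← sum_quadratic h2]
  simp only [Fintype.sum_prod_type]
  have h4 : -(4 * c5) ≠ 0 := neg_ne_zero.2 (mul_ne_zero (d4_four h2) h5)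
  symm
  rw [← d4_sum_aff _ (c4 ^ 2) h4]
  refine sum_congr rfl fun c3 _ => ?_
  rw [← d4_sum_aff _ (2 * c4 * c2) h4]
  refine sum_congr rfl fun c1 _ => ?_
  rw [← d4_sum_aff _ (c2 ^ 2) h4]
  refine sum_congr rfl fun c0 _ => ?_
  rw [← d4_sum_sqc h2]
  unfold d4_M
  congr 1
  refine sum_congr rfl fun x _ => ?_
  rw [rc_eq_sqc h2 _ _ _ h5]
  congr 1
  ring

theorem d4_caseB (G : ℕ → ℚ) (c4 c2 c3 c1 : F) (h4 : c4 ≠ 0) :
    ∑ c0 : F, G (d4_M 0 c4 c2 c3 c1 c0) =
      G (2 * Fintype.card F - 1) + ((Fintype.card F : ℚ) - 1) * G (Fintype.card F - 1) := by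
  have hq : 0 < Fintype.card F := Fintype.card_pos
  set x0 : F := -c2 / c4 with hx0
  have hx : c4 * x0 + c2 = 0 := by rw [hx0]; field_simp; ring
  have hM : ∀ c0 : F, d4_M 0 c4 c2 c3 c1 c0 =
      (if c3 * x0 ^ 2 + c1 * x0 + c0 = 0 then Fintype.card F else 0) + (Fintype.card F - 1) := by
    intro c0
    unfold d4_M
    rw [← add_sum_erase _ _ (mem_univ x0), hx, d4_rc_const]
    congr 1
    have : ∀ x ∈ univ.erase x0, rc 0 (c4 * x + c2) (c3 * x ^ 2 + c1 * x + c0) = 1 := by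
      intro x hx'
      refine d4_rc_lin _ _ fun h => ne_of_mem_erase hx' ?_
      have : c4 * x = c4 * x0 := by linear_combination h - hx
      exact mul_left_cancel₀ h4 this
    rw [sum_congr rfl this, sum_const, card_erase_of_mem (mem_univ _), card_univ, smul_eq_mul,
      mul_one]
  simp only [hM]
  rw [← add_sum_erase _ _ (mem_univ (-(c3 * x0 ^ 2 + c1 * x0)))]
  have h1 : ∀ c0 ∈ univ.erase (-(c3 * x0 ^ 2 + c1 * x0)),
      G ((if c3 * x0 ^ 2 + c1 * x0 + c0 = 0 then Fintype.card F else 0) + (Fintype.card F - 1)) =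
        G (Fintype.card F - 1) := by
    intro c0 hc0
    rw [if_neg, zero_add]
    intro h
    exact ne_of_mem_erase hc0 (by linear_combination h)
  rw [sum_congr rfl h1, sum_const, card_erase_of_mem (mem_univ _), card_univ, nsmul_eq_mul,
    Nat.cast_sub hq, if_pos (by ring)]
  have : Fintype.card F + (Fintype.card F - 1) = 2 * Fintype.card F - 1 := by omega
  rw [this]
  push_cast
  ring

theorem d4_caseC (c2 c3 c1 c0 : F) (h : c2 ≠ 0) : d4_M 0 0 c2 c3 c1 c0 = Fintype.card F := by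
  unfold d4_M
  simp only [zero_mul, zero_add, d4_rc_lin _ _ h]
  simp

theorem d4_caseD (h2 : (2 : F) ≠ 0) (G : ℕ → ℚ) :
    ∑ c3 : F, ∑ c1 : F, ∑ c0 : F, G (d4_M 0 0 0 c3 c1 c0) =
      H2 F (fun s => G (Fintype.card F * s.1)) := by
  rw [← sum_quadratic h2]
  simp only [Fintype.sum_prod_type]
  refine sum_congr rfl fun c3 _ => sum_congr rfl fun c1 _ => sum_congr rfl fun c0 _ => ?_
  congr 1
  unfold d4_M prof
  simp only [zero_mul, zero_add, d4_rc_const, card_filter]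
  rw [mul_sum]
  refine sum_congr rfl fun x _ => ?_
  rcases sqc_cases h2 (c3 * x ^ 2 + c1 * x + c0) with h | h | h
  · rw [if_pos h.1, if_pos h.2, mul_one]
  · simp [h.1, h.2]
  · simp [h.1, h.2]

theorem conic_sum (h2 : (2 : F) ≠ 0) (G : ℕ → ℚ) :
    ∑ c : Fin 6 → F, G (N2 c) =
      ((Fintype.card F : ℚ) - 1) * (Fintype.card F : ℚ) ^ 2 * H2 F (fun s => G (s.1 + 2 * s.2)) +
        ((Fintype.card F : ℚ) - 1) * Fintype.card F *
          ((Fintype.card F : ℚ) ^ 2 * G (2 * Fintype.card F - 1) +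
            ((Fintype.card F : ℚ) ^ 3 - (Fintype.card F : ℚ) ^ 2) * G (Fintype.card F - 1)) +
        ((Fintype.card F : ℚ) - 1) * (Fintype.card F : ℚ) ^ 3 * G (Fintype.card F) +
        H2 F (fun s => G (Fintype.card F * s.1)) := by
  have hq : 0 < Fintype.card F := Fintype.card_pos
  have herase : ∀ K : ℚ, ∑ _x ∈ univ.erase (0 : F), K = ((Fintype.card F : ℚ) - 1) * K := by
    intro K
    rw [sum_const, card_erase_of_mem (mem_univ _), card_univ, nsmul_eq_mul, Nat.cast_sub hq]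
    push_cast
    ring
  have hall : ∀ K : ℚ, ∑ _x : F, K = (Fintype.card F : ℚ) * K := by
    intro K
    rw [sum_const, card_univ, nsmul_eq_mul]
  rw [← Equiv.sum_comp (d4_coef F)]
  have h0 : ∀ t : F × F × F × F × F × F, N2 (d4_coef F t) =
      d4_M t.1 t.2.1 t.2.2.1 t.2.2.2.1 t.2.2.2.2.1 t.2.2.2.2.2 := by
    intro t
    rw [d4_N2]
    rfl
  simp only [h0, Fintype.sum_prod_type]
  rw [← add_sum_erase _ _ (mem_univ (0 : F))]
  have hA : ∀ c5 ∈ univ.erase (0 : F), ∑ c4 : F, ∑ c2 : F, ∑ c3 : F, ∑ c1 : F, ∑ c0 : F,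
      G (d4_M c5 c4 c2 c3 c1 c0) =
      (Fintype.card F : ℚ) * (Fintype.card F * H2 F (fun s => G (s.1 + 2 * s.2))) := by
    intro c5 hc5
    simp only [d4_caseA h2 G c5 _ _ (ne_of_mem_erase hc5), hall]
  rw [sum_congr rfl hA, herase, ← add_sum_erase _ _ (mem_univ (0 : F))]
  have hB : ∀ c4 ∈ univ.erase (0 : F), ∑ c2 : F, ∑ c3 : F, ∑ c1 : F, ∑ c0 : F,
      G (d4_M 0 c4 c2 c3 c1 c0) =
      (Fintype.card F : ℚ) * (Fintype.card F * (Fintype.card F * (G (2 * Fintype.card F - 1) +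
        ((Fintype.card F : ℚ) - 1) * G (Fintype.card F - 1)))) := by
    intro c4 hc4
    simp only [d4_caseB G c4 _ _ _ (ne_of_mem_erase hc4), hall]
  rw [sum_congr rfl hB, herase, ← add_sum_erase _ _ (mem_univ (0 : F))]
  have hC : ∀ c2 ∈ univ.erase (0 : F), ∑ c3 : F, ∑ c1 : F, ∑ c0 : F,
      G (d4_M 0 0 c2 c3 c1 c0) =
      (Fintype.card F : ℚ) * (Fintype.card F * (Fintype.card F * G (Fintype.card F))) := by
    intro c2 hc2
    simp only [d4_caseC c2 _ _ _ (ne_of_mem_erase hc2), hall]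
  rw [sum_congr rfl hC, herase, d4_caseD h2]
  ring

end Pool.Agent.MP_aed30a_nt.H54
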