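import Pool.Agent.MP_aed30a_nt.H54.Free

/-! Irreducible subrings of a power of the `p`-adic integers and admissible lattices. -/

namespace Pool.Agent.MP_aed30a_nt.H54
open Finset

variable {p : ℕ} [Fact p.Prime] {n : ℕ}

/-- multiplication by `p` -/
noncomputable def mulP (p n : ℕ) [Fact p.Prime] : (Fin n → ℤ_[p]) →+ (Fin n → ℤ_[p]) :=
  AddMonoidHom.mulLeft (p : Fin n → ℤ_[p])

theorem mulP_apply (x : Fin n → ℤ_[p]) (i : Fin n) : mulP p n x i = p * x i := rfl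

theorem pz_ne : (p : ℤ_[p]) ≠ 0 := by exact_mod_cast (Fact.out : p.Prime).ne_zero

theorem mulP_inj : Function.Injective (mulP p n) := by
  intro x y h
  funext i
  exact mul_left_cancel₀ pz_ne (congrFun h i)

theorem toZMod_eq_zero (x : ℤ_[p]) : PadicInt.toZMod x = 0 ↔ (p : ℤ_[p]) ∣ x := by
  rw [← RingHom.mem_ker, PadicInt.ker_toZMod, PadicInt.maximalIdeal_eq_span_p,
    Ideal.mem_span_singleton]

theorem mem_range_mulP (z : Fin n → ℤ_[p]) : z ∈ (mulP p n).range ↔ ∀ i, (p : ℤ_[p]) ∣ z i := by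
  constructor
  · rintro ⟨x, rfl⟩ i
    exact Dvd.intro _ rfl
  · intro h
    choose x hx using h
    exact ⟨x, funext fun i => (hx i).symm⟩

theorem index_range_mulP : (mulP p n).range.index = p ^ n := by
  let ρ : (Fin n → ℤ_[p]) →+* (Fin n → ZMod p) :=
    RingHom.pi fun i => PadicInt.toZMod.comp (Pi.evalRingHom _ i)
  have h1 : (mulP p n).range = ρ.toAddMonoidHom.ker := by
    ext z
    rw [mem_range_mulP, AddMonoidHom.mem_ker, funext_iff]
    exact forall_congr' fun i => (toZMod_eq_zero _).symm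
  have h2 : Function.Surjective ρ.toAddMonoidHom := by
    intro y
    exact ⟨fun i => ((y i).val : ℤ_[p]), funext fun i => by simp [ρ]⟩
  rw [h1, AddSubgroup.index_ker, AddMonoidHom.range_eq_top.mpr h2, AddSubgroup.card_top]
  simp

/-- all coordinates are congruent modulo `p` -/
def Irr (Λ : Subring (Fin n → ℤ_[p])) : Prop := ∀ x ∈ Λ, ∀ i j, (p : ℤ_[p]) ∣ x i - x j

theorem index_toL (Λ : Subring (Fin (n + 1) → ℤ_[p])) (h : Irr Λ) :
    Λ.toAddSubgroup.index = (Λ.toAddSubgroup.comap (mulP p (n + 1))).index * p ^ n := by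
  let φ : (Fin (n + 1) → ℤ_[p]) →+* ZMod p := PadicInt.toZMod.comp (Pi.evalRingHom _ 0)
  have h1 := AddSubgroup.index_map_of_injective (Λ.toAddSubgroup.comap (mulP p (n + 1)))
    (mulP_inj (p := p) (n := n + 1))
  rw [index_range_mulP, AddSubgroup.map_comap_eq] at h1
  have h2 : (mulP p (n + 1)).range ⊓ Λ.toAddSubgroup =
      φ.toAddMonoidHom.ker ⊓ Λ.toAddSubgroup := by
    ext z
    simp only [AddSubgroup.mem_inf, mem_range_mulP, AddMonoidHom.mem_ker]
    refine and_congr_left fun hz => ⟨fun h' => (toZMod_eq_zero _).mpr (h' 0), fun h' i => ?_⟩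
    have h0 : (p : ℤ_[p]) ∣ z 0 := (toZMod_eq_zero _).mp h'
    simpa using dvd_add (h z hz i 0) h0
  have h3 := AddSubgroup.relIndex_mul_index
    (inf_le_right : φ.toAddMonoidHom.ker ⊓ Λ.toAddSubgroup ≤ Λ.toAddSubgroup)
  have h4 : Λ.toAddSubgroup.map φ.toAddMonoidHom = ⊤ := by
    rw [eq_top_iff]
    intro a _
    exact ⟨(a.val : Fin (n + 1) → ℤ_[p]), natCast_mem Λ _, by simp⟩
  rw [AddSubgroup.inf_relIndex_right, AddSubgroup.relIndex_ker, h4, AddSubgroup.card_top,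
    Nat.card_zmod, ← h2, h1, pow_succ, ← mul_assoc, mul_comm p] at h3
  exact Nat.eq_of_mul_eq_mul_right (Fact.out : p.Prime).pos h3

/-- the ring attached to a lattice -/
def ofL (L : AddSubgroup (Fin n → ℤ_[p]))
    (h : ∀ x ∈ L, ∀ y ∈ L, (p : Fin n → ℤ_[p]) * (x * y) ∈ L) : Subring (Fin n → ℤ_[p]) where
  carrier := {z | ∃ c : ℤ, ∃ x ∈ L, z = c + p * x}
  zero_mem' := ⟨0, 0, L.zero_mem, by simp⟩
  one_mem' := ⟨1, 0, L.zero_mem, by simp⟩
  add_mem' := by
    rintro _ _ ⟨c, x, hx, rfl⟩ ⟨d, y, hy, rfl⟩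
    exact ⟨c + d, x + y, L.add_mem hx hy, by push_cast; ring⟩
  neg_mem' := by
    rintro _ ⟨c, x, hx, rfl⟩
    exact ⟨-c, -x, L.neg_mem hx, by push_cast; ring⟩
  mul_mem' := by
    rintro _ _ ⟨c, x, hx, rfl⟩ ⟨d, y, hy, rfl⟩
    refine ⟨c * d, c • y + d • x + p * (x * y),
      L.add_mem (L.add_mem (L.zsmul_mem hy c) (L.zsmul_mem hx d)) (h x hx y hy), ?_⟩
    simp only [zsmul_eq_mul]
    push_cast; ring

theorem irr_ofL (L : AddSubgroup (Fin n → ℤ_[p])) (h) : Irr (ofL L h) := by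
  rintro _ ⟨c, x, _, rfl⟩ i j
  exact ⟨x i - x j, by simp; ring⟩

theorem comap_ofL (L : AddSubgroup (Fin (n + 1) → ℤ_[p])) (h1 : 1 ∈ L) (h) :
    (ofL L h).toAddSubgroup.comap (mulP p (n + 1)) = L := by
  ext z
  constructor
  · rintro ⟨c, x, hx, e⟩
    have h0 : (p : ℤ_[p]) ∣ (c : ℤ_[p]) := by
      have := congrFun e 0
      rw [mulP_apply] at this
      exact ⟨z 0 - x 0, by simp at this; linear_combination -this⟩
    obtain ⟨d, rfl⟩ : (p : ℤ) ∣ c := by
      rwa [← PadicInt.norm_int_lt_one_iff_dvd, PadicInt.norm_lt_one_iff_dvd]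
    have : z = d • (1 : Fin (n + 1) → ℤ_[p]) + x := by
      apply mulP_inj
      rw [e]
      funext i
      simp [mulP_apply, mul_add]
    rw [this]
    exact L.add_mem (L.zsmul_mem h1 d) hx
  · intro hz
    exact ⟨0, z, hz, by simp [mulP]⟩

theorem card_irr (f : ℕ) :
    Nonempty ({Λ : Subring (Fin (n + 1) → ℤ_[p]) // Λ.toAddSubgroup.index = p ^ (n + f) ∧ Irr Λ} ≃
      {L : AddSubgroup (Fin (n + 1) → ℤ_[p]) // Adm p f L}) := by
  have hp : 0 < p ^ n := pow_pos (Fact.out : p.Prime).pos n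
  refine ⟨(Equiv.ofBijective (fun L => ⟨ofL L.1 L.2.2.1, by
    rw [index_toL _ (irr_ofL _ _), comap_ofL _ L.2.1, L.2.2.2, pow_add, mul_comm],
    irr_ofL _ _⟩) ⟨?_, ?_⟩).symm⟩
  · intro L L' h
    have h1 : ofL L.1 L.2.2.1 = ofL L'.1 L'.2.2.1 := congrArg Subtype.val h
    apply Subtype.ext
    rw [← comap_ofL L.1 L.2.1 L.2.2.1, h1, comap_ofL _ L'.2.1]
  · rintro ⟨Λ, hi, hΛ⟩
    refine ⟨⟨Λ.toAddSubgroup.comap (mulP p (n + 1)), ?_, ?_, ?_⟩, ?_⟩
    · change (p : Fin (n + 1) → ℤ_[p]) * 1 ∈ Λ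
      rw [mul_one]; exact natCast_mem Λ p
    · intro x hx y hy
      change (p : Fin (n + 1) → ℤ_[p]) * (p * (x * y)) ∈ Λ
      have := Λ.mul_mem (show (p : Fin (n + 1) → ℤ_[p]) * x ∈ Λ from hx)
        (show (p : Fin (n + 1) → ℤ_[p]) * y ∈ Λ from hy)
      convert this using 1
      ring
    · rw [index_toL _ hΛ, pow_add, mul_comm (p ^ n)] at hi
      exact Nat.eq_of_mul_eq_mul_right hp hi
    · apply Subtype.ext
      ext z
      constructor
      · rintro ⟨c, x, hx, rfl⟩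
        exact Λ.add_mem (intCast_mem Λ c) hx
      · intro hz
        have h0 : (p : ℤ_[p]) ∣ z 0 - ((PadicInt.toZMod (z 0)).val : ℤ_[p]) := by
          rw [← toZMod_eq_zero, map_sub, map_natCast, ZMod.natCast_zmod_val, sub_self]
        obtain ⟨x, hx⟩ := (mem_range_mulP
          (z - ((PadicInt.toZMod (z 0)).val : Fin (n + 1) → ℤ_[p]))).mpr fun i => by
            simpa using dvd_add (hΛ z hz i 0) h0
        refine ⟨(PadicInt.toZMod (z 0)).val, x, ?_, ?_⟩
        · change mulP p (n + 1) x ∈ Λ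
          rw [hx]
          exact Λ.sub_mem hz (natCast_mem Λ _)
        · change z = _ + mulP p (n + 1) x
          rw [hx]; simp

theorem card_trunc {K f : ℕ} (hf : f ≤ K) :
    Nonempty ({L : AddSubgroup (Fin n → ℤ_[p]) // Adm p f L} ≃
      {L : AddSubgroup (Fin n → ZMod (p ^ K)) // Adm p f L}) := by
  let π : (Fin n → ℤ_[p]) →+* (Fin n → ZMod (p ^ K)) :=
    RingHom.pi fun i => (PadicInt.toZModPow K).comp (Pi.evalRingHom _ i)
  have hπ : Function.Surjective π := by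
    intro y
    exact ⟨fun i => ((y i).val : ℤ_[p]), funext fun i => by simp [π]⟩
  refine ⟨((admEquiv p π hπ f).trans (Equiv.subtypeEquivRight fun L =>
    ⟨fun h => h.1, fun h => ⟨h, fun z hz => ?_⟩⟩)).symm⟩
  have h1 : ∀ i, ∃ w, z i = (p : ℤ_[p]) ^ K * w := by
    intro i
    have : z i ∈ RingHom.ker (PadicInt.toZModPow K) := congrFun hz i
    rw [PadicInt.ker_toZModPow, Ideal.mem_span_singleton] at this
    exact this
  choose w hw using h1
  have h2 := L.nsmul_index_mem ((p : Fin n → ℤ_[p]) ^ (K - f) * w)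
  rw [h.2.2] at h2
  convert h2 using 1
  funext i
  rw [hw i]
  simp only [nsmul_eq_mul, Nat.cast_pow, Pi.mul_apply, Pi.pow_apply, Pi.natCast_apply]
  rw [← mul_assoc, ← pow_add, Nat.add_sub_cancel' hf]

theorem irr_equiv {K f : ℕ} (hf : f ≤ K) :
    Nonempty ({Λ : Subring (Fin (n + 1) → ℤ_[p]) // Λ.toAddSubgroup.index = p ^ (n + f) ∧ Irr Λ} ≃
      {L : AddSubgroup (Fin (n + 1) → ZMod (p ^ K)) // Adm p f L}) :=
  (card_irr f).elim fun e => (card_trunc hf).elim fun e' => ⟨e.trans e'⟩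

end Pool.Agent.MP_aed30a_nt.H54
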