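import Pool.Agent.MP_aed30a_nt.H54.Defs

/-! Polynomials in two variables vanishing on a finite set of points. -/

namespace Pool.Agent.MP_aed30a_nt.H54
open Finset

variable {F : Type*} [CommRing F]

/-- value of a polynomial in two variables at a point -/
noncomputable def evP (G : MvPolynomial (Fin 2) F) (P : F × F) : F :=
  MvPolynomial.eval ![P.1, P.2] G

/-- polynomials of degree at most `d` vanishing on `S` -/
def Van (d : ℕ) (S : Finset (F × F)) : Set (MvPolynomial (Fin 2) F) :=
  {G | G.totalDegree ≤ d ∧ ∀ P ∈ S, evP G P = 0}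

/-- number of polynomials of degree at most `d` vanishing on `S` (zero included) -/
noncomputable def iv (d : ℕ) (S : Finset (F × F)) : ℕ := Nat.card (Van d S)

/-- number of pairs of a point of `S` and a conic through exactly the other points of `S` -/
noncomputable def c9 [DecidableEq F] (S : Finset (F × F)) : ℕ :=
  ∑ P ∈ S, Nat.card {G : MvPolynomial (Fin 2) F // G ∈ Van 2 (S.erase P) ∧ evP G P ≠ 0}

/-- `l` is a nonzero polynomial of degree at most one with at least six zeros in `S` -/
def Rich [DecidableEq F] (S : Finset (F × F)) (l : MvPolynomial (Fin 2) F) : Prop :=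
  l ≠ 0 ∧ l.totalDegree ≤ 1 ∧ 6 ≤ #{P ∈ S | evP l P = 0}

end Pool.Agent.MP_aed30a_nt.H54
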